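import Pool.Agent.Q199.SG.Cfg1
import Pool.Agent.TH665.CG6.Grow

/-!
# Six points: pairs of points which the blocks cannot separate
-/

set_option autoImplicit false

namespace Pool.Agent.Q199.SG

open Polynomial Finset Filter Topology Pool.Agent.W460.CG Pool.Agent.TH665.CG6

/-- nondegeneracy of a base for the six points -/
structure ND (S : Finset ℚ) : Prop where
  h0 : ∃ x : ℚ, ∏ s ∈ S, (x - s) ≠ ∏ s ∈ S, (-x - s)
  h1 : ∃ u : ℚ, ∏ s ∈ S, ((2 + 6 * u + u ^ 2) - s * (1 + u + u ^ 2)) ≠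
    ∏ s ∈ S, ((1 - 4 * u - 3 * u ^ 2) - s * (1 + u + u ^ 2))
  h2 : ∃ u : ℚ, ∏ s ∈ S, ((2 + 6 * u + u ^ 2) - s * (1 + u + u ^ 2)) ≠
    ∏ s ∈ S, (-(1 - 4 * u - 3 * u ^ 2) - s * (1 + u + u ^ 2))
  z0 : ∑ s ∈ S, (0 - s)⁻¹ ≠ 0
  z1 : ∑ s ∈ S, (7 - s ^ 2)⁻¹ ≠ 0
  z2 : ∑ s ∈ S, (7 / 3 - s ^ 2)⁻¹ ≠ 0

/-- points `x` such that `W = (x³ - 7x)²` and the product take the same values at another point -/
def BadS (S : Finset ℚ) : Set ℝ :=
  {x | ∃ y, y ≠ x ∧ (x ^ 3 - 7 * x) ^ 2 = (y ^ 3 - 7 * y) ^ 2 ∧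
    ∏ s ∈ S, (x - (s : ℝ)) = ∏ s ∈ S, (y - (s : ℝ))}

lemma prod_scale (S : Finset ℚ) (a d : ℝ) (hd : d ≠ 0) :
    ∏ s ∈ S, (a - (s : ℝ) * d) = d ^ S.card * ∏ s ∈ S, (a / d - (s : ℝ)) := by
  rw [← Finset.prod_const, ← Finset.prod_mul_distrib]
  refine Finset.prod_congr rfl fun s _ => ?_
  field_simp

lemma finite_zero {H : ℝ[X]} {u : ℝ} (h : H.eval u ≠ 0) : {v : ℝ | H.eval v = 0}.Finite := by
  classical
  have hH : H ≠ 0 := by
    rintro rfl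
    simp at h
  refine (H.roots.toFinset.finite_toSet).subset ?_
  intro v hv
  rw [Finset.mem_coe, Multiset.mem_toFinset, mem_roots hH]
  exact hv

lemma finite_prod (S : Finset ℚ) (a b d : ℝ[X]) {u : ℝ}
    (h : ∏ s ∈ S, (a.eval u - (s : ℝ) * d.eval u) ≠ ∏ s ∈ S, (b.eval u - (s : ℝ) * d.eval u)) :
    {v : ℝ | ∏ s ∈ S, (a.eval v - (s : ℝ) * d.eval v) =
      ∏ s ∈ S, (b.eval v - (s : ℝ) * d.eval v)}.Finite := by
  have hev : ∀ v : ℝ, (∏ s ∈ S, (a - C (s : ℝ) * d) - ∏ s ∈ S, (b - C (s : ℝ) * d)).eval v =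
      ∏ s ∈ S, (a.eval v - (s : ℝ) * d.eval v) - ∏ s ∈ S, (b.eval v - (s : ℝ) * d.eval v) := by
    intro v
    rw [eval_sub, eval_prod, eval_prod]
    simp
  have h1 := finite_zero (H := ∏ s ∈ S, (a - C (s : ℝ) * d) - ∏ s ∈ S, (b - C (s : ℝ) * d))
    (u := u) (by rw [hev]; exact sub_ne_zero.2 h)
  refine h1.subset ?_
  intro v hv
  rw [Set.mem_ofPred_eq] at hv ⊢
  rw [hev, hv, sub_self]

lemma conic {x y : ℝ} (h : x ^ 2 + x * y + y ^ 2 = 7) :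
    x = 1 ∨ ∃ u : ℝ, x = (2 + 6 * u + u ^ 2) / (1 + u + u ^ 2) ∧
      y = (1 - 4 * u - 3 * u ^ 2) / (1 + u + u ^ 2) := by
  by_cases hd : x + 5 * y + 14 = 0
  · left
    have hx : x = -5 * y - 14 := by linarith
    rw [hx] at h ⊢
    have h2 : 21 * (y + 3) ^ 2 = 0 := by nlinarith
    have h3 : (y + 3) ^ 2 = 0 := by linarith
    have h4 : y + 3 = 0 := by
      exact pow_eq_zero_iff (two_ne_zero) |>.1 h3
    linarith
  · right
    have hD : ∀ u : ℝ, 1 + u + u ^ 2 ≠ 0 := fun u => by nlinarith [sq_nonneg (u + 1 / 2)]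
    set E : ℝ := x + 5 * y + 14 with hE
    set N : ℝ := 4 * x - y - 7 with hN
    have e1 : x * (E ^ 2 + E * N + N ^ 2) = 2 * E ^ 2 + 6 * E * N + N ^ 2 := by
      rw [hE, hN]
      linear_combination 21 * (x - 1) * h
    have e2 : y * (E ^ 2 + E * N + N ^ 2) = E ^ 2 - 4 * E * N - 3 * N ^ 2 := by
      rw [hE, hN]
      linear_combination 21 * (y + 3) * h
    have hE2 : E ^ 2 ≠ 0 := pow_ne_zero 2 hd
    refine ⟨N / E, ?_, ?_⟩
    · rw [eq_div_iff (hD _)]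
      have k1 : 1 + N / E + (N / E) ^ 2 = (E ^ 2 + E * N + N ^ 2) / E ^ 2 := by field_simp
      have k2 : 2 + 6 * (N / E) + (N / E) ^ 2 = (2 * E ^ 2 + 6 * E * N + N ^ 2) / E ^ 2 := by
        field_simp
      rw [k1, k2, ← e1, mul_div_assoc]
    · rw [eq_div_iff (hD _)]
      have k1 : 1 + N / E + (N / E) ^ 2 = (E ^ 2 + E * N + N ^ 2) / E ^ 2 := by field_simp
      have k2 : 1 - 4 * (N / E) - 3 * (N / E) ^ 2 = (E ^ 2 - 4 * E * N - 3 * N ^ 2) / E ^ 2 := by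
        field_simp
      rw [k1, k2, ← e2, mul_div_assoc]

lemma bad_finite {S : Finset ℚ} (h : ND S) : (BadS S).Finite := by
  obtain ⟨x0, hx0⟩ := h.h0
  obtain ⟨u1, hu1⟩ := h.h1
  obtain ⟨u2, hu2⟩ := h.h2
  have f0 := finite_prod S X (-X) 1 (u := (x0 : ℝ)) (by
    simp only [eval_X, eval_neg, eval_one, mul_one]
    intro he
    apply hx0
    have : ((∏ s ∈ S, (x0 - s) : ℚ) : ℝ) = ((∏ s ∈ S, (-x0 - s) : ℚ) : ℝ) := by
      push_cast
      exact he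
    exact_mod_cast this)
  have f1 := finite_prod S (C 2 + C 6 * X + X ^ 2) (C 1 - C 4 * X - C 3 * X ^ 2) (C 1 + X + X ^ 2)
    (u := (u1 : ℝ)) (by
    simp only [eval_X, eval_add, eval_sub, eval_mul, eval_pow, eval_C]
    intro he
    apply hu1
    have : ((∏ s ∈ S, ((2 + 6 * u1 + u1 ^ 2) - s * (1 + u1 + u1 ^ 2)) : ℚ) : ℝ) =
        ((∏ s ∈ S, ((1 - 4 * u1 - 3 * u1 ^ 2) - s * (1 + u1 + u1 ^ 2)) : ℚ) : ℝ) := by
      push_cast
      exact he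
    exact_mod_cast this)
  have f2 := finite_prod S (C 2 + C 6 * X + X ^ 2) (-(C 1 - C 4 * X - C 3 * X ^ 2))
    (C 1 + X + X ^ 2) (u := (u2 : ℝ)) (by
    simp only [eval_X, eval_add, eval_sub, eval_mul, eval_pow, eval_C, eval_neg]
    intro he
    apply hu2
    have : ((∏ s ∈ S, ((2 + 6 * u2 + u2 ^ 2) - s * (1 + u2 + u2 ^ 2)) : ℚ) : ℝ) =
        ((∏ s ∈ S, (-(1 - 4 * u2 - 3 * u2 ^ 2) - s * (1 + u2 + u2 ^ 2)) : ℚ) : ℝ) := by
      push_cast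
      exact he
    exact_mod_cast this)
  have hD : ∀ u : ℝ, 1 + u + u ^ 2 ≠ 0 := fun u => by nlinarith [sq_nonneg (u + 1 / 2)]
  refine ((f0.union ((f1.image fun u => (2 + 6 * u + u ^ 2) / (1 + u + u ^ 2)).union
    (f2.image fun u => (2 + 6 * u + u ^ 2) / (1 + u + u ^ 2)))).union
      (Set.finite_singleton (1 : ℝ))).subset ?_
  rintro x ⟨y, hyx, hW, hP⟩
  have h1 : (x - y) * (x ^ 2 + x * y + y ^ 2 - 7) * ((x + y) * (x ^ 2 + x * (-y) + (-y) ^ 2 - 7)) =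
      0 := by
    linear_combination hW
  have hxy : x - y ≠ 0 := sub_ne_zero.2 hyx.symm
  rcases mul_eq_zero.1 h1 with h2 | h2
  · rcases mul_eq_zero.1 h2 with h3 | h3
    · exact absurd h3 hxy
    · rcases conic (x := x) (y := y) (by linarith) with h4 | ⟨u, hu, hu'⟩
      · exact Or.inr h4
      · refine Or.inl (Or.inr (Or.inl ⟨u, ?_, hu.symm⟩))
        rw [Set.mem_ofPred_eq]
        simp only [eval_X, eval_add, eval_sub, eval_mul, eval_pow, eval_C]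
        rw [prod_scale _ _ _ (hD u), prod_scale _ _ _ (hD u), ← hu, ← hu', hP]
  · rcases mul_eq_zero.1 h2 with h3 | h3
    · refine Or.inl (Or.inl ?_)
      rw [Set.mem_ofPred_eq]
      simp only [eval_X, eval_neg, eval_one, mul_one]
      have : -x = y := by linarith
      rw [this]
      exact hP
    · rcases conic (x := x) (y := -y) (by linarith) with h4 | ⟨u, hu, hu'⟩
      · exact Or.inr h4
      · refine Or.inl (Or.inr (Or.inr ⟨u, ?_, hu.symm⟩))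
        rw [Set.mem_ofPred_eq]
        simp only [eval_X, eval_add, eval_sub, eval_mul, eval_pow, eval_C, eval_neg]
        rw [prod_scale _ _ _ (hD u), prod_scale _ _ _ (hD u), ← hu, hP, neg_div, ← hu', neg_neg]

end Pool.Agent.Q199.SG
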