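import Pool.Agent.Q199.SG.Sep

/-!
# Breaking ties between the depths of the gaps
-/

set_option autoImplicit false

namespace Pool.Agent.Q199.SG

open Polynomial Finset Filter Topology

lemma topk (E : Finset ℕ) (h : ℕ → ℝ) (hinj : ∀ i ∈ E, ∀ j ∈ E, i ≠ j → h i ≠ h j) :
    ∀ k, k ≤ E.card → ∃ U ⊆ E, U.card = k ∧ ∀ i ∈ U, ∀ j ∈ E, j ∉ U → h j < h i := by
  intro k
  induction k with
  | zero => exact fun _ => ⟨∅, Finset.empty_subset _, rfl, by simp⟩
  | succ k ih =>
    intro hk
    obtain ⟨U, hU, hUc, hUt⟩ := ih (by omega)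
    have hne : (E \ U).Nonempty := by
      rw [← Finset.card_pos, Finset.card_sdiff_of_subset hU]
      omega
    obtain ⟨j₀, hj₀, hmax⟩ := Finset.exists_max_image (E \ U) h hne
    rw [Finset.mem_sdiff] at hj₀
    refine ⟨insert j₀ U, ?_, ?_, ?_⟩
    · intro x hx
      rcases Finset.mem_insert.1 hx with rfl | hx
      · exact hj₀.1
      · exact hU hx
    · rw [Finset.card_insert_of_notMem hj₀.2, hUc]
    · intro i hi j hj hjn
      rw [Finset.mem_insert, not_or] at hjn
      rcases Finset.mem_insert.1 hi with rfl | hi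
      · exact lt_of_le_of_ne (hmax j (Finset.mem_sdiff.2 ⟨hj, hjn.2⟩)) (hinj j hj i hj₀.1 hjn.1)
      · exact hUt i hi j hj hjn.2

/-- the `r`-th smallest value -/
lemma nth_value (N : Finset ℕ) (D : ℕ → ℝ) (r : ℕ) (hr : 1 ≤ r) (hr2 : r ≤ N.card) :
    ∃ i₀ ∈ N, (N.filter fun j => D j < D i₀).card < r ∧
      r ≤ (N.filter fun j => D j ≤ D i₀).card := by
  classical
  set G := N.filter fun i => r ≤ (N.filter fun j => D j ≤ D i).card with hG
  have hNne : N.Nonempty := Finset.card_pos.1 (by omega)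
  obtain ⟨m, hm, hmax⟩ := Finset.exists_max_image N D hNne
  have hGne : G.Nonempty := by
    refine ⟨m, Finset.mem_filter.2 ⟨hm, ?_⟩⟩
    rw [Finset.filter_true_of_mem hmax]
    exact hr2
  obtain ⟨i₀, hi₀, hmin⟩ := Finset.exists_min_image G D hGne
  rw [hG, Finset.mem_filter] at hi₀
  refine ⟨i₀, hi₀.1, ?_, hi₀.2⟩
  by_contra hcon
  push Not at hcon
  have hLne : (N.filter fun j => D j < D i₀).Nonempty := Finset.card_pos.1 (by omega)
  obtain ⟨j₁, hj₁, hmax₁⟩ := Finset.exists_max_image _ D hLne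
  rw [Finset.mem_filter] at hj₁
  have hj₁G : j₁ ∈ G := by
    rw [hG, Finset.mem_filter]
    refine ⟨hj₁.1, hcon.trans (Finset.card_le_card ?_)⟩
    intro j hj
    have h1 := hmax₁ j hj
    rw [Finset.mem_filter] at hj ⊢
    exact ⟨hj.1, h1⟩
  have := hmin j₁ hj₁G
  linarith [hj₁.2]

theorem tie {n : ℕ} {ρ : ℕ → ℝ} (hn : 1 ≤ n) (hρ : ∀ i j, i < j → j < n → ρ i < ρ j) (r : ℕ)
    (hr : 1 ≤ r) (hr2 : r ≤ n / 2) (z : ℕ → ℝ) (hz : ∀ i < n, z i < ρ i ∧ ρ i < z (i + 1))
    (hzm : ∀ i, i + 1 < n → Odd (n - 1 - i) → (PR n ρ).eval (z (i + 1)) < 0 ∧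
        ∀ x, z i ≤ x → x ≤ z (i + 2) → x ≠ z (i + 1) →
          (PR n ρ).eval (z (i + 1)) < (PR n ρ).eval x)
    (A1 : ℝ → ℝ) (hA1 : Continuous A1)
    (hdist : ∀ i j, i + 1 < n → j + 1 < n → Odd (n - 1 - i) → Odd (n - 1 - j) → i ≠ j →
      (PR n ρ).eval (z (i + 1)) = (PR n ρ).eval (z (j + 1)) → A1 (z (i + 1)) ≠ A1 (z (j + 1)))
    {ι : Type} (l : Filter ι) (t : ι → ℝ) (ht : Tendsto t l (𝓝[>] 0)) (f : ι → ℝ → ℝ)
    (hf : ∀ K : ℝ, ∀ ε > 0, ∀ᶠ m in l, ∀ x, |x| ≤ K →
      |f m x - (PR n ρ).eval x - t m * A1 x| ≤ ε * t m) :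
    ∃ Sh : Finset ℕ, Sh.card = r ∧ (∀ i ∈ Sh, i + 1 < n ∧ Odd (n - 1 - i)) ∧
      ∃ v₁ v₂ : ι → ℝ, ∀ᶠ m in l, 0 < v₁ m ∧ v₁ m < v₂ m ∧
        (∀ j ≤ n, 0 < (-1) ^ (n - j) * f m (z j)) ∧
        (∀ i ∈ Sh, ∀ x, z i ≤ x → x ≤ z (i + 2) → -v₁ m < f m x) ∧
        ∀ i, i + 1 < n → Odd (n - 1 - i) → i ∉ Sh → f m (z (i + 1)) < -v₂ m := by
  classical
  set A : ℝ → ℝ := fun x => (PR n ρ).eval x with hA
  have hAc : Continuous A := PR_cont n ρ
  have hzlt : ∀ i < n, z i < z (i + 1) := fun i hi => (hz i hi).1.trans (hz i hi).2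
  have hzle : ∀ i j, i ≤ j → j ≤ n → z i ≤ z j := by
    intro i j hij hj
    induction j, hij using Nat.le_induction with
    | base => exact le_rfl
    | succ k _ ih => exact (ih (by omega)).trans (hzlt k (by omega)).le
  set K : ℝ := max |z 0| |z n| with hK
  have hKx : ∀ x, z 0 ≤ x → x ≤ z n → |x| ≤ K := fun x h1 h2 =>
    (abs_le_max_abs_abs h1 h2)
  have hKz : ∀ j ≤ n, |z j| ≤ K := fun j hj => hKx _ (hzle 0 j (Nat.zero_le _) hj) (hzle j n hj le_rfl)
  obtain ⟨M, hM⟩ : ∃ M : ℝ, ∀ x, |x| ≤ K → |A1 x| ≤ M := by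
    obtain ⟨C, hC⟩ := (isCompact_Icc (a := -K) (b := K)).exists_bound_of_continuousOn
      hA1.continuousOn
    exact ⟨C, fun x hx => hC x ⟨(abs_le.1 hx).1, (abs_le.1 hx).2⟩⟩
  have htpos : ∀ᶠ m in l, 0 < t m := ht.eventually self_mem_nhdsWithin
  have ht0 : Tendsto t l (𝓝 0) := ht.mono_right nhdsWithin_le_nhds
  have htlt : ∀ η : ℝ, 0 < η → ∀ᶠ m in l, t m < η := fun η hη =>
    ht0.eventually (gt_mem_nhds hη)
  -- uniform convergence
  have hunif : ∀ η : ℝ, 0 < η → ∀ᶠ m in l, ∀ x, |x| ≤ K → |f m x - A x| ≤ η := by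
    intro η hη
    have hM' : 0 < |M| + 1 := by positivity
    filter_upwards [hf K 1 one_pos, htpos, htlt (η / (|M| + 1)) (by positivity)] with m h1 h2 h3 x hx
    have h4 := h1 x hx
    rw [lt_div_iff₀ hM'] at h3
    have h5 : |t m * A1 x| ≤ t m * |M| := by
      rw [abs_mul, abs_of_pos h2]
      exact mul_le_mul_of_nonneg_left ((hM x hx).trans (le_abs_self _)) h2.le
    have h6 : f m x - A x = (f m x - (PR n ρ).eval x - t m * A1 x) + t m * A1 x := by
      rw [hA]; ring
    rw [h6]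
    refine (abs_add_le _ _).trans ?_
    nlinarith
  -- signs at the separators
  have hsgn : ∀ j ≤ n, 0 < (-1) ^ (n - j) * A (z j) := by
    intro j hj
    refine sign_at hρ hj ?_ ?_
    · rcases Nat.eq_zero_or_pos j with h | h
      · exact Or.inl h
      · right
        obtain ⟨k, rfl⟩ : ∃ k, j = k + 1 := ⟨j - 1, by omega⟩
        exact (hz k (by omega)).2
    · rcases lt_or_eq_of_le hj with h | h
      · exact Or.inr (hz j h).1
      · exact Or.inl h
  have hsign : ∀ᶠ m in l, ∀ j ≤ n, 0 < (-1) ^ (n - j) * f m (z j) := by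
    have h1 : ∀ j ∈ range (n + 1), ∀ᶠ m in l, 0 < (-1) ^ (n - j) * f m (z j) := by
      intro j hj
      rw [Finset.mem_range] at hj
      have h2 := hsgn j (by omega)
      filter_upwards [hunif ((-1) ^ (n - j) * A (z j) / 2) (by positivity)] with m hm
      have h3 := hm (z j) (hKz j (by omega))
      have h4 : |(-1) ^ (n - j) * f m (z j) - (-1) ^ (n - j) * A (z j)| ≤
          (-1) ^ (n - j) * A (z j) / 2 := by
        rw [← mul_sub, abs_mul, abs_pow, abs_neg, abs_one, one_pow, one_mul]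
        exact h3
      have h5 := (abs_le.1 h4).1
      linarith
    filter_upwards [(Finset.eventually_all (range (n + 1))).2 h1] with m hm j hj
    exact hm j (Finset.mem_range.2 (by omega))
  -- the negative gaps
  set Neg : Finset ℕ := (range (n - 1)).filter fun i => Odd (n - 1 - i) with hNeg
  have hNegc : Neg.card = n / 2 := card_odd n
  have hNegm : ∀ i, i ∈ Neg ↔ i + 1 < n ∧ Odd (n - 1 - i) := by
    intro i
    rw [hNeg, Finset.mem_filter, Finset.mem_range]
    constructor
    · rintro ⟨h1, h2⟩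
      exact ⟨by omega, h2⟩
    · rintro ⟨h1, h2⟩
      exact ⟨by omega, h2⟩
  set D : ℕ → ℝ := fun i => -A (z (i + 1)) with hD
  have hDpos : ∀ i ∈ Neg, 0 < D i := by
    intro i hi
    rw [hNegm] at hi
    have := (hzm i hi.1 hi.2).1
    show 0 < -A (z (i + 1))
    have h2 : A (z (i + 1)) < 0 := this
    linarith
  obtain ⟨i₀, hi₀, hlt, hle⟩ := nth_value Neg D r hr (by omega)
  set v₀ : ℝ := D i₀ with hv₀
  have hv₀pos : 0 < v₀ := hDpos i₀ hi₀
  set Lo := Neg.filter fun j => D j < v₀ with hLo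
  set E := Neg.filter fun j => D j = v₀ with hE
  have hLE : (Neg.filter fun j => D j ≤ v₀).card = Lo.card + E.card := by
    rw [hLo, hE, ← Finset.card_union_of_disjoint]
    · congr 1
      ext j
      rw [Finset.mem_union]
      constructor
      · intro hj
        have h1 := Finset.mem_filter.1 hj
        rcases lt_or_eq_of_le h1.2 with h | h
        · exact Or.inl (Finset.mem_filter.2 ⟨h1.1, h⟩)
        · exact Or.inr (Finset.mem_filter.2 ⟨h1.1, h⟩)
      · rintro (hj | hj)
        · have h1 := Finset.mem_filter.1 hj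
          exact Finset.mem_filter.2 ⟨h1.1, h1.2.le⟩
        · have h1 := Finset.mem_filter.1 hj
          exact Finset.mem_filter.2 ⟨h1.1, h1.2.le⟩
    · rw [Finset.disjoint_left]
      intro j h1 h2
      rw [Finset.mem_filter] at h1 h2
      linarith [h1.2, h2.2]
  obtain ⟨U, hUE, hUc, hUt⟩ := topk E (fun i => A1 (z (i + 1))) (by
    intro i hi j hj hij
    rw [hE, Finset.mem_filter, hNegm] at hi hj
    refine hdist i j hi.1.1 hj.1.1 hi.1.2 hj.1.2 hij ?_
    have h1 : -A (z (i + 1)) = -A (z (j + 1)) := hi.2.trans hj.2.symm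
    exact neg_injective h1) (r - Lo.card) (by omega)
  obtain ⟨σ₂, hσa, hσb⟩ := Order.exists_between_finsets
    ((E \ U).image fun i => A1 (z (i + 1))) (U.image fun i => A1 (z (i + 1))) (by
      intro x hx y hy
      rw [Finset.mem_image] at hx hy
      obtain ⟨j, hj, rfl⟩ := hx
      obtain ⟨i, hi, rfl⟩ := hy
      rw [Finset.mem_sdiff] at hj
      exact hUt i hi j hj.1 hj.2)
  obtain ⟨σ₁, hσc, hσd⟩ := Order.exists_between_finsets
    ({σ₂} : Finset ℝ) (U.image fun i => A1 (z (i + 1))) (by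
      intro x hx y hy
      rw [Finset.mem_singleton] at hx
      rw [hx]
      exact hσb y hy)
  have hσ : σ₂ < σ₁ := hσc σ₂ (Finset.mem_singleton_self _)
  refine ⟨Lo ∪ U, ?_, ?_, fun m => v₀ - t m * σ₁, fun m => v₀ - t m * σ₂, ?_⟩
  · rw [Finset.card_union_of_disjoint, hUc]
    · omega
    · rw [Finset.disjoint_left]
      intro j h1 h2
      have h3 := hUE h2
      rw [hLo, Finset.mem_filter] at h1
      rw [hE, Finset.mem_filter] at h3
      linarith [h1.2, h3.2]
  · intro i hi
    rcases Finset.mem_union.1 hi with h | h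
    · rw [hLo, Finset.mem_filter] at h
      exact (hNegm i).1 h.1
    · have h3 := hUE h
      rw [hE, Finset.mem_filter] at h3
      exact (hNegm i).1 h3.1
  · -- small multiples of `t`
    have hsmall : ∀ σ η : ℝ, 0 < η → ∀ᶠ m in l, |t m * σ| < η := by
      intro σ η hη
      have h1 : Tendsto (fun m => t m * σ) l (𝓝 0) := by
        have := ht0.mul_const σ
        rwa [zero_mul] at this
      have h2 := h1.abs
      rw [abs_zero] at h2
      exact h2.eventually (gt_mem_nhds hη)
    have e1 : ∀ᶠ m in l, 0 < v₀ - t m * σ₁ := by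
      filter_upwards [hsmall σ₁ v₀ hv₀pos] with m hm
      linarith [(abs_lt.1 hm).2]
    have e2 : ∀ᶠ m in l, v₀ - t m * σ₁ < v₀ - t m * σ₂ := by
      filter_upwards [htpos] with m hm
      have := mul_lt_mul_of_pos_left hσ hm
      linarith
    have e3 : ∀ i ∈ Lo ∪ U, ∀ᶠ m in l, ∀ x, z i ≤ x → x ≤ z (i + 2) →
        -(v₀ - t m * σ₁) < f m x := by
      intro i hi
      rcases Finset.mem_union.1 hi with h | h
      · rw [hLo, Finset.mem_filter, hNegm] at h
        obtain ⟨⟨h1, h2⟩, h3⟩ := h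
        have h4 := (hzm i h1 h2).2
        set η : ℝ := (v₀ - D i) / 3 with hη
        have hη0 : 0 < η := by rw [hη]; linarith
        filter_upwards [hunif η hη0, hsmall σ₁ η hη0] with m g1 g2 x hx1 hx2
        have g3 := (abs_le.1 (g1 x (hKx x ((hzle 0 i (Nat.zero_le _) (by omega)).trans hx1)
          (hx2.trans (hzle (i + 2) n (by omega) le_rfl))))).1
        have g4 : A (z (i + 1)) ≤ A x := by
          by_cases hxe : x = z (i + 1)
          · rw [hxe]
          · exact (h4 x hx1 hx2 hxe).le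
        have g5 : A (z (i + 1)) = -D i := by rw [hD]; simp
        have g6 := (abs_lt.1 g2).2
        have g7 : η * 3 = v₀ - D i := by rw [hη]; ring
        linarith
      · have hiE := hUE h
        rw [hE, Finset.mem_filter, hNegm] at hiE
        obtain ⟨⟨h1, h2⟩, h3⟩ := hiE
        have h4 := (hzm i h1 h2).2
        have h5 : σ₁ < A1 (z (i + 1)) := hσd _ (Finset.mem_image_of_mem _ h)
        have hAz : A (z (i + 1)) = -v₀ := by
          have : -A (z (i + 1)) = v₀ := h3
          linarith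
        obtain ⟨σ', hs1, hs2⟩ := exists_between h5
        -- the bad part of the interval
        set V : Set ℝ := Set.Icc (z i) (z (i + 2)) ∩ {x | A1 x ≤ σ'} with hV
        have hVc : IsCompact V := isCompact_Icc.inter_right (isClosed_le hA1 continuous_const)
        obtain ⟨η, hη0, hη⟩ : ∃ η : ℝ, 0 < η ∧ ∀ x ∈ V, -v₀ + η ≤ A x := by
          rcases V.eq_empty_or_nonempty with hVe | hVne
          · exact ⟨1, one_pos, by rw [hVe]; simp⟩
          · obtain ⟨x0, hx0, hx0m⟩ := hVc.exists_isMinOn hVne hAc.continuousOn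
            have hx0ne : x0 ≠ z (i + 1) := by
              intro he
              rw [hV] at hx0
              have := hx0.2
              rw [Set.mem_ofPred_eq, he] at this
              linarith
            have h6 : A (z (i + 1)) < A x0 := h4 x0 hx0.1.1 hx0.1.2 hx0ne
            refine ⟨A x0 + v₀, by linarith, fun x hx => ?_⟩
            have := hx0m hx
            simp only [Set.mem_ofPred_eq] at this
            linarith
        filter_upwards [hf K ((σ' - σ₁) / 2) (by linarith), hunif (η / 3) (by linarith), htpos,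
          hsmall σ₁ (η / 3) (by linarith)] with m g1 g2 g3 g4 x hx1 hx2
        have hxK := hKx x ((hzle 0 i (Nat.zero_le _) (by omega)).trans hx1)
          (hx2.trans (hzle (i + 2) n (by omega) le_rfl))
        by_cases hx : A1 x ≤ σ'
        · have k1 := hη x ⟨⟨hx1, hx2⟩, hx⟩
          have k2 := (abs_le.1 (g2 x hxK)).1
          have k3 := (abs_lt.1 g4).2
          linarith
        · push Not at hx
          have k1 := (abs_le.1 (g1 x hxK)).1
          have k2 : -v₀ ≤ (PR n ρ).eval x := by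
            by_cases hxe : x = z (i + 1)
            · rw [hxe]; exact hAz.symm.le
            · rw [← hAz]; exact (h4 x hx1 hx2 hxe).le
          have k3 : t m * σ' < t m * A1 x := mul_lt_mul_of_pos_left hx g3
          have k4 : 0 < t m * (σ' - σ₁) := mul_pos g3 (by linarith)
          nlinarith
    have e4 : ∀ i ∈ Neg \ (Lo ∪ U), ∀ᶠ m in l, f m (z (i + 1)) < -(v₀ - t m * σ₂) := by
      intro i hi
      rw [Finset.mem_sdiff, Finset.mem_union, not_or] at hi
      obtain ⟨h1, h2, h3⟩ := hi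
      have h1' := (hNegm i).1 h1
      have hzK := hKz (i + 1) (by omega)
      have hge : v₀ ≤ D i := by
        by_contra hcon
        push Not at hcon
        exact h2 (Finset.mem_filter.2 ⟨h1, hcon⟩)
      rcases lt_or_eq_of_le hge with h | h
      · set η : ℝ := (D i - v₀) / 3 with hη
        have hη0 : 0 < η := by rw [hη]; linarith
        filter_upwards [hunif η hη0, hsmall σ₂ η hη0] with m g1 g2
        have g3 := (abs_le.1 (g1 (z (i + 1)) hzK)).2
        have g5 : A (z (i + 1)) = -D i := by rw [hD]; simp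
        have g6 := (abs_lt.1 g2).1
        have g7 : η * 3 = D i - v₀ := by rw [hη]; ring
        linarith
      · have hiE : i ∈ E := Finset.mem_filter.2 ⟨h1, h.symm⟩
        have h5 : A1 (z (i + 1)) < σ₂ := hσa _ (Finset.mem_image_of_mem _
          (Finset.mem_sdiff.2 ⟨hiE, h3⟩))
        have hAz : (PR n ρ).eval (z (i + 1)) = -v₀ := by
          have : -A (z (i + 1)) = v₀ := h.symm
          have h7 : A (z (i + 1)) = (PR n ρ).eval (z (i + 1)) := rfl
          linarith
        filter_upwards [hf K ((σ₂ - A1 (z (i + 1))) / 2) (by linarith), htpos] with m g1 g3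
        have k1 := (abs_le.1 (g1 _ hzK)).2
        have k4 : 0 < t m * (σ₂ - A1 (z (i + 1))) := mul_pos g3 (by linarith)
        nlinarith
    filter_upwards [e1, e2, hsign, (Finset.eventually_all (Lo ∪ U)).2 e3,
      (Finset.eventually_all (Neg \ (Lo ∪ U))).2 e4] with m a1 a2 a3 a4 a5
    exact ⟨a1, a2, a3, a4, fun i h1 h2 h3 => a5 i (Finset.mem_sdiff.2 ⟨(hNegm i).2 ⟨h1, h2⟩, h3⟩)⟩

end Pool.Agent.Q199.SG
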