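import Pool.Agent.W460.CG.Gen
import Pool.Agent.Q199.SG.Tie

/-!
# Rational blocks with prescribed approximate parameter
-/

set_option autoImplicit false

namespace Pool.Agent.Q199.SG

open Polynomial Finset Filter Topology Pool.Agent.W460.CG

/-- rational values of the parameter in an open interval -/
lemma dens {g : ℝ → ℝ} {w₀ : ℝ} (hw : 0 < w₀) (hg : ContinuousOn g (Set.Icc 0 w₀)) (h0 : g 0 = 0)
    {x y : ℝ} (hx : 0 ≤ x) (hxy : x < y) (hy : y ≤ g w₀) :
    ∃ u : ℚ, 0 < (u : ℝ) ∧ (u : ℝ) < w₀ ∧ x < g u ∧ g u < y := by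
  obtain ⟨w, hw1, hw2⟩ := intermediate_value_Ioo hw.le hg
    (show (x + y) / 2 ∈ Set.Ioo (g 0) (g w₀) from ⟨by rw [h0]; linarith, by linarith⟩)
  have hwn : Set.Icc 0 w₀ ∈ 𝓝 w := Icc_mem_nhds hw1.1 hw1.2
  have hc : ContinuousAt g w := hg.continuousAt hwn
  have h1 : ∀ᶠ u in 𝓝 w, x < g u ∧ g u < y ∧ 0 < u ∧ u < w₀ := by
    have a1 := hc.eventually (lt_mem_nhds (show x < g w by rw [hw2]; linarith))
    have a2 := hc.eventually (gt_mem_nhds (show g w < y by rw [hw2]; linarith))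
    filter_upwards [a1, a2, lt_mem_nhds hw1.1, gt_mem_nhds hw1.2] with u b1 b2 b3 b4
    exact ⟨b1, b2, b3, b4⟩
  rw [Metric.eventually_nhds_iff] at h1
  obtain ⟨ε, hε, h2⟩ := h1
  obtain ⟨u, hu1, hu2⟩ := exists_rat_btwn (show w < w + ε by linarith)
  have h3 : dist (u : ℝ) w < ε := by
    rw [Real.dist_eq, abs_lt]
    constructor <;> linarith
  obtain ⟨c1, c2, c3, c4⟩ := h2 h3
  exact ⟨u, c3, c4, c1, c2⟩

/-- cubic blocks -/
lemma densC {x y : ℝ} (hx : 0 ≤ x) (hxy : x < y) (hy : y ≤ 120 / 343) :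
    ∃ (B : Finset ℚ) (κ : ℚ), B.card = 3 ∧ x < (κ : ℝ) ∧ (κ : ℝ) < y ∧
      PS B = X ^ 3 - X - C κ := by
  classical
  set g : ℝ → ℝ := fun u => (1 - u ^ 2) / (1 + u + u ^ 2) * ((u ^ 2 + 2 * u) / (1 + u + u ^ 2)) *
    ((1 - u ^ 2) / (1 + u + u ^ 2) + (u ^ 2 + 2 * u) / (1 + u + u ^ 2)) with hg
  have hgc : ContinuousOn g (Set.Icc 0 (1 / 4)) := by
    have h1 : ∀ u ∈ Set.Icc (0:ℝ) (1 / 4), (1 + u + u ^ 2) ≠ 0 := fun u hu => by
      have := hu.1
      positivity
    rw [hg]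
    refine ContinuousOn.mul (ContinuousOn.mul ?_ ?_) (ContinuousOn.add ?_ ?_) <;>
    exact ContinuousOn.div (by fun_prop) (by fun_prop) h1
  obtain ⟨u, hu1, hu2, hu3, hu4⟩ := dens (w₀ := 1 / 4) (by norm_num) hgc (by simp [hg]) hx hxy
    (hy.trans (by rw [hg]; norm_num))
  have hu1' : (0 : ℚ) < u := by exact_mod_cast hu1
  have hu2' : u < 1 / 4 := by
    have : (u : ℝ) < ((1 / 4 : ℚ) : ℝ) := by push_cast; exact hu2
    exact_mod_cast this
  have hD : 0 < 1 + u + u ^ 2 := by positivity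
  set p : ℚ := (1 - u ^ 2) / (1 + u + u ^ 2) with hp
  set q : ℚ := (u ^ 2 + 2 * u) / (1 + u + u ^ 2) with hq
  have hq0 : 0 < q := by positivity
  have hqp : q < p := by
    rw [hp, hq]
    apply div_lt_div_of_pos_right _ hD
    nlinarith
  have h5 : p ^ 2 + p * q + q ^ 2 = 1 := by
    rw [hp, hq]
    field_simp
    ring
  have n1 : -p ∉ ({-q, p + q} : Finset ℚ) := by
    rw [Finset.mem_insert, Finset.mem_singleton]
    rintro (h | h) <;> linarith
  have n2 : -q ∉ ({p + q} : Finset ℚ) := by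
    rw [Finset.mem_singleton]
    intro h
    linarith
  have hgκ : g u = ((p * q * (p + q) : ℚ) : ℝ) := by
    rw [hg, hp, hq]
    push_cast
    ring
  refine ⟨{-p, -q, p + q}, p * q * (p + q), ?_, ?_, ?_, ?_⟩
  · rw [Finset.card_insert_of_notMem n1, Finset.card_insert_of_notMem n2, Finset.card_singleton]
  · rw [← hgκ]; exact hu3
  · rw [← hgκ]; exact hu4
  · unfold PS
    rw [Finset.prod_insert n1, Finset.prod_insert n2, Finset.prod_singleton]
    have h9 := congrArg (C : ℚ → ℚ[X]) h5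
    simp only [map_add, map_mul, map_pow, map_one, map_neg] at h9 ⊢
    linear_combination -(X : ℚ[X]) * h9

/-- quartic blocks -/
lemma densQ {x y : ℝ} (hx : 0 ≤ x) (hxy : x < y) (hy : y ≤ 1 / 4) :
    ∃ (B : Finset ℚ) (κ : ℚ), B.card = 4 ∧ x < (κ : ℝ) ∧ (κ : ℝ) < y ∧
      PS B = X ^ 4 - X ^ 2 + C κ := by
  classical
  set g : ℝ → ℝ := fun u => ((2 * u) / (1 + u ^ 2)) ^ 2 * ((1 - u ^ 2) / (1 + u ^ 2)) ^ 2 with hg
  have hgc : Continuous g := by
    have h1 : ∀ u : ℝ, (1 + u ^ 2) ≠ 0 := fun u => by positivity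
    rw [hg]
    refine Continuous.mul (Continuous.pow ?_ _) (Continuous.pow ?_ _)
    · exact Continuous.div (by fun_prop) (by fun_prop) h1
    · exact Continuous.div (by fun_prop) (by fun_prop) h1
  have hs : Real.sqrt 2 ^ 2 = 2 := Real.sq_sqrt (by norm_num)
  have hs1 : 1 < Real.sqrt 2 := by
    rw [Real.lt_sqrt (by norm_num)]; norm_num
  have hs2 : Real.sqrt 2 < 3 / 2 := by
    rw [Real.sqrt_lt' (by norm_num)]; norm_num
  set s := Real.sqrt 2 with hsd
  have hgw : g (s - 1) = 1 / 4 := by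
    have e1 : 1 + (s - 1) ^ 2 = 2 * s * (s - 1) := by nlinarith
    have e2 : 1 - (s - 1) ^ 2 = 2 * (s - 1) := by nlinarith
    have h3 : s - 1 ≠ 0 := by linarith
    have h4 : s ≠ 0 := by linarith
    rw [hg]
    show ((2 * (s - 1)) / (1 + (s - 1) ^ 2)) ^ 2 * ((1 - (s - 1) ^ 2) / (1 + (s - 1) ^ 2)) ^ 2 =
      1 / 4
    rw [e1, e2]
    have e3 : 2 * (s - 1) / (2 * s * (s - 1)) = 1 / s := by field_simp
    rw [e3, one_div, inv_pow, hs]
    norm_num
  obtain ⟨u, hu1, hu2, hu3, hu4⟩ := dens (w₀ := s - 1) (by linarith) hgc.continuousOn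
    (by simp [hg]) hx hxy (by rw [hgw]; exact hy)
  have hu1' : (0 : ℚ) < u := by exact_mod_cast hu1
  have hu2' : u < 1 / 2 := by
    have : (u : ℝ) < ((1 / 2 : ℚ) : ℝ) := by push_cast; linarith
    exact_mod_cast this
  have hD : 0 < 1 + u ^ 2 := by positivity
  set p : ℚ := (2 * u) / (1 + u ^ 2) with hp
  set q : ℚ := (1 - u ^ 2) / (1 + u ^ 2) with hq
  have hp0 : 0 < p := by positivity
  have hq0 : 0 < q := by
    rw [hq]
    apply div_pos _ hD
    nlinarith
  have h4 : p ^ 2 + q ^ 2 = 1 := by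
    rw [hp, hq]
    field_simp
    ring
  have hgκ : g u = ((p ^ 2 * q ^ 2 : ℚ) : ℝ) := by
    rw [hg, hp, hq]
    push_cast
    ring
  have hpq : p ≠ q := by
    intro h
    rw [h] at h4 hgκ
    have h6 : q ^ 2 = 1 / 2 := by linarith
    rw [h6] at hgκ
    rw [hgκ] at hu4
    norm_num at hu4
    linarith
  have n1 : p ∉ ({-p, q, -q} : Finset ℚ) := by
    rw [Finset.mem_insert, Finset.mem_insert, Finset.mem_singleton]
    rintro (h | h | h)
    · linarith
    · exact hpq h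
    · linarith
  have n2 : -p ∉ ({q, -q} : Finset ℚ) := by
    rw [Finset.mem_insert, Finset.mem_singleton]
    rintro (h | h)
    · linarith
    · exact hpq (neg_injective h)
  have n3 : q ∉ ({-q} : Finset ℚ) := by
    rw [Finset.mem_singleton]
    intro h
    linarith
  refine ⟨{p, -p, q, -q}, p ^ 2 * q ^ 2, ?_, ?_, ?_, ?_⟩
  · rw [Finset.card_insert_of_notMem n1, Finset.card_insert_of_notMem n2,
      Finset.card_insert_of_notMem n3, Finset.card_singleton]
  · rw [← hgκ]; exact hu3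
  · rw [← hgκ]; exact hu4
  · unfold PS
    rw [Finset.prod_insert n1, Finset.prod_insert n2, Finset.prod_insert n3,
      Finset.prod_singleton]
    have h9 := congrArg (C : ℚ → ℚ[X]) h4
    simp only [map_add, map_mul, map_pow, map_one, map_neg] at h9 ⊢
    linear_combination -(X : ℚ[X]) ^ 2 * h9

/-- a quartic block avoiding a finite set, with parameter smaller than `1 / 4` -/
lemma block4' (F : Finset ℚ) : ∃ (B : Finset ℚ) (κ : ℚ), B.card = 4 ∧ Disjoint F B ∧ 0 < κ ∧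
    κ < 1 / 4 ∧ PS B = X ^ 4 - X ^ 2 + C κ := by
  classical
  obtain ⟨p, q, h1, h2, h3, h4, ⟨h5, h6⟩, ⟨h7, h8⟩⟩ := par4 F
  have n1 : p ∉ ({-p, q, -q} : Finset ℚ) := by
    rw [Finset.mem_insert, Finset.mem_insert, Finset.mem_singleton]
    rintro (h | h | h) <;> linarith
  have n2 : -p ∉ ({q, -q} : Finset ℚ) := by
    rw [Finset.mem_insert, Finset.mem_singleton]
    rintro (h | h) <;> linarith
  have n3 : q ∉ ({-q} : Finset ℚ) := by
    rw [Finset.mem_singleton]
    intro h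
    linarith
  refine ⟨{p, -p, q, -q}, p ^ 2 * q ^ 2, ?_, ?_, ?_, ?_, ?_⟩
  · rw [Finset.card_insert_of_notMem n1, Finset.card_insert_of_notMem n2,
      Finset.card_insert_of_notMem n3, Finset.card_singleton]
  · rw [Finset.disjoint_right]
    intro x hx
    rw [Finset.mem_insert, Finset.mem_insert, Finset.mem_insert, Finset.mem_singleton] at hx
    rcases hx with rfl | rfl | rfl | rfl
    · exact h5
    · exact h7
    · exact h6
    · exact h8
  · have : 0 < q := h1.trans h2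
    positivity
  · have h9 : p ^ 2 < q ^ 2 := by nlinarith
    have h10 : p ^ 2 * q ^ 2 = 1 / 4 - (q ^ 2 - p ^ 2) ^ 2 / 4 := by
      have : q ^ 2 = 1 - p ^ 2 := by linarith
      rw [this]; ring
    have h11 : 0 < (q ^ 2 - p ^ 2) ^ 2 := by
      have : 0 < q ^ 2 - p ^ 2 := by linarith
      positivity
    linarith
  · unfold PS
    rw [Finset.prod_insert n1, Finset.prod_insert n2, Finset.prod_insert n3,
      Finset.prod_singleton]
    have h9 := congrArg (C : ℚ → ℚ[X]) h4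
    simp only [map_add, map_mul, map_pow, map_one, map_neg] at h9 ⊢
    linear_combination -(X : ℚ[X]) ^ 2 * h9

end Pool.Agent.Q199.SG
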