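import Pool.Agent.Q199.SG.Count
import Pool.Agent.W21.CG.Small

/-!
# Certificates for explicit integer data
-/

set_option autoImplicit false

namespace Pool.Agent.Q199.SG

open Polynomial Finset Pool.Agent.W289.CG

/-- `∏ (k - N a)` -/
def FF (l : List ℤ) (N k : ℤ) : ℤ := (l.map fun a => k - N * a).prod

/-- a bound for `∏ |x - N a|`, `k ≤ x ≤ k + 1` -/
def GG (l : List ℤ) (N k : ℤ) : ℤ := (l.map fun a => max |k - N * a| |k + 1 - N * a|).prod

/-- the certificate: increasing roots, shallow gaps, deep gaps with a deep point -/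
def Cert (l : List ℤ) (N : ℕ) (Sh : List ℕ) (V1 V2 : ℤ) (dp : List ℤ) : Prop :=
  0 < N ∧ 0 < V1 ∧ V1 < V2 ∧ Sh.Nodup ∧ (∀ i < l.length - 1, l.getD i 0 < l.getD (i + 1) 0) ∧
  (∀ i ∈ Sh, i + 1 < l.length ∧ (l.length - 1 - i) % 2 = 1 ∧
    ∀ j < (N * (l.getD (i + 1) 0 - l.getD i 0)).toNat,
      GG l N (N * l.getD i 0 + j) < V1 * N ^ l.length) ∧
  ∀ i < l.length - 1, (l.length - 1 - i) % 2 = 1 → i ∉ Sh →
    N * l.getD i 0 < dp.getD i 0 ∧ dp.getD i 0 < N * l.getD (i + 1) 0 ∧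
      FF l N (dp.getD i 0) < -V2 * N ^ l.length

instance (l : List ℤ) (N : ℕ) (Sh : List ℕ) (V1 V2 : ℤ) (dp : List ℤ) :
    Decidable (Cert l N Sh V1 V2 dp) := by
  unfold Cert
  infer_instance

lemma list_prod (l : List ℤ) (g : ℤ → ℝ) :
    (l.map g).prod = ∏ i ∈ range l.length, g (l.getD i 0) := by
  induction l with
  | nil => simp
  | cons a l ih =>
    rw [List.map_cons, List.prod_cons, ih, List.length_cons, Finset.prod_range_succ']
    simp only [List.getD_cons_succ, List.getD_cons_zero]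
    rw [mul_comm]

lemma cert_count {l : List ℤ} {N : ℕ} {Sh : List ℕ} {V1 V2 : ℤ} {dp : List ℤ}
    (h : Cert l N Sh V1 V2 dp) (w : ℝ) (hw1 : (V1 : ℝ) ≤ w) (hw2 : w ≤ V2) :
    {x : ℝ | ∏ i : Fin l.length, (x - ((l.getD i 0 : ℤ) : ℝ)) = -w}.ncard =
      l.length - 2 * Sh.length := by
  classical
  obtain ⟨hN, hV1, hV12, hnd, hinc, hsh, hde⟩ := h
  set n := l.length with hn
  set ρ : ℕ → ℝ := fun i => ((l.getD i 0 : ℤ) : ℝ) with hρd
  have hNR : (0 : ℝ) < N := by exact_mod_cast hN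
  have hNn : (0 : ℝ) < (N : ℝ) ^ n := by positivity
  have hV1R : (0 : ℝ) < V1 := by exact_mod_cast hV1
  have hw0 : 0 < w := by linarith
  have hρ : ∀ i j, i < j → j < n → ρ i < ρ j := by
    intro i j hij hj
    induction j, hij using Nat.le_induction with
    | base =>
      have := hinc i (by omega)
      show ((l.getD i 0 : ℤ) : ℝ) < ((l.getD (i + 1) 0 : ℤ) : ℝ)
      exact_mod_cast this
    | succ k _ ih =>
      have h1 := hinc k (by omega)
      have h2 := ih (by omega)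
      have h3 : ρ k < ρ (k + 1) := by
        show ((l.getD k 0 : ℤ) : ℝ) < ((l.getD (k + 1) 0 : ℤ) : ℝ)
        exact_mod_cast h1
      linarith
  have hPR : ∀ x, (PR n ρ).eval x = (l.map fun a => x - ((a : ℤ) : ℝ)).prod := by
    intro x
    rw [PR_eval, list_prod]
  have hFF : ∀ k : ℤ, ((FF l N k : ℤ) : ℝ) = (N : ℝ) ^ n * (PR n ρ).eval ((k : ℝ) / N) := by
    intro k
    rw [PR_eval]
    have h1 : ((FF l N k : ℤ) : ℝ) = (l.map fun a => ((k : ℝ) - N * (a : ℤ))).prod := by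
      unfold FF
      rw [Int.cast_list_prod, List.map_map]
      congr 1
      apply List.map_congr_left
      intro a _
      simp
    rw [h1, list_prod l (fun a => ((k : ℝ) - N * (a : ℤ))), ← hn]
    have h2 : (N : ℝ) ^ n = ∏ i ∈ range n, (N : ℝ) := by simp
    rw [h2, ← Finset.prod_mul_distrib]
    refine Finset.prod_congr rfl fun i _ => ?_
    show (k : ℝ) - N * ((l.getD i 0 : ℤ) : ℝ) = N * ((k : ℝ) / N - ((l.getD i 0 : ℤ) : ℝ))
    field_simp
  have hset : {x : ℝ | ∏ i : Fin l.length, (x - ((l.getD i 0 : ℤ) : ℝ)) = -w} =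
      {x : ℝ | (PR n ρ).eval x = -w} := by
    ext x
    rw [Set.mem_ofPred_eq, Set.mem_ofPred_eq, PR_eval, Finset.prod_range]
  rw [hset, ← List.toFinset_card_of_nodup hnd]
  refine count n ρ hρ w hw0 Sh.toFinset (fun i hi => ?_) (fun i hi hodd hiS => ?_)
  · rw [List.mem_toFinset] at hi
    obtain ⟨h1, h2, h3⟩ := hsh i hi
    refine ⟨h1, Nat.odd_iff.2 h2, fun x hx1 hx2 => ?_⟩
    set k : ℤ := ⌊(N : ℝ) * x⌋ with hk
    have k1 : (k : ℝ) ≤ N * x := Int.floor_le _
    have k2 : (N : ℝ) * x < k + 1 := Int.lt_floor_add_one _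
    have k3 : (N : ℤ) * l.getD i 0 ≤ k := by
      rw [hk, Int.le_floor]
      push_cast
      exact mul_le_mul_of_nonneg_left hx1.le hNR.le
    have k4 : k < (N : ℤ) * l.getD (i + 1) 0 := by
      rw [hk, Int.floor_lt]
      push_cast
      exact mul_lt_mul_of_pos_left hx2 hNR
    have k5 := h3 (k - N * l.getD i 0).toNat (by
      have : (N : ℤ) * (l.getD (i + 1) 0 - l.getD i 0) = N * l.getD (i + 1) 0 - N * l.getD i 0 := by
        ring
      rw [this]
      omega)
    have k6 : (N : ℤ) * l.getD i 0 + ((k - N * l.getD i 0).toNat : ℤ) = k := by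
      have : 0 ≤ k - N * l.getD i 0 := by linarith
      rw [Int.toNat_of_nonneg this]
      ring
    rw [k6] at k5
    have k7 : ((GG l N k : ℤ) : ℝ) =
        (l.map fun a => max |(k : ℝ) - N * (a : ℤ)| |(k : ℝ) + 1 - N * (a : ℤ)|).prod := by
      unfold GG
      rw [Int.cast_list_prod, List.map_map]
      congr 1
      apply List.map_congr_left
      intro a _
      simp
    have k8 : (N : ℝ) ^ n * |(PR n ρ).eval x| ≤ ((GG l N k : ℤ) : ℝ) := by
      rw [k7, list_prod l (fun a => max |(k : ℝ) - N * (a : ℤ)| |(k : ℝ) + 1 - N * (a : ℤ)|),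
        PR_eval, Finset.abs_prod, ← hn]
      have h2 : (N : ℝ) ^ n = ∏ i ∈ range n, (N : ℝ) := by simp
      rw [h2, ← Finset.prod_mul_distrib]
      refine Finset.prod_le_prod (fun i _ => by positivity) fun i _ => ?_
      have e : (N : ℝ) * |x - ρ i| = |N * x - N * ((l.getD i 0 : ℤ) : ℝ)| := by
        rw [← abs_of_pos hNR, ← abs_mul, abs_of_pos hNR, mul_sub]
      rw [e]
      exact abs_le_max_abs_abs (by linarith) (by linarith)
    have k9 : ((GG l N k : ℤ) : ℝ) < V1 * (N : ℝ) ^ n := by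
      have : ((GG l N k : ℤ) : ℝ) < ((V1 * N ^ n : ℤ) : ℝ) := by exact_mod_cast k5
      push_cast at this
      exact this
    have k10 : |(PR n ρ).eval x| < V1 := by
      have : (N : ℝ) ^ n * |(PR n ρ).eval x| < (N : ℝ) ^ n * V1 := by linarith
      exact lt_of_mul_lt_mul_left this hNn.le
    have := (abs_lt.1 k10).1
    linarith
  · rw [List.mem_toFinset] at hiS
    obtain ⟨h1, h2, h3⟩ := hde i (by omega) (Nat.odd_iff.1 hodd) hiS
    refine ⟨(dp.getD i 0 : ℤ) / N, ?_, ?_, ?_⟩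
    · rw [lt_div_iff₀ hNR]
      have : ((N * l.getD i 0 : ℤ) : ℝ) < ((dp.getD i 0 : ℤ) : ℝ) := by exact_mod_cast h1
      push_cast at this
      show ((l.getD i 0 : ℤ) : ℝ) * N < _
      linarith
    · rw [div_lt_iff₀ hNR]
      have : ((dp.getD i 0 : ℤ) : ℝ) < ((N * l.getD (i + 1) 0 : ℤ) : ℝ) := by exact_mod_cast h2
      push_cast at this
      show _ < ((l.getD (i + 1) 0 : ℤ) : ℝ) * N
      linarith
    · have h4 : ((FF l N (dp.getD i 0) : ℤ) : ℝ) < ((-V2 * N ^ n : ℤ) : ℝ) := by exact_mod_cast h3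
      rw [hFF] at h4
      push_cast at h4
      have h5 : (N : ℝ) ^ n * (PR n ρ).eval (((dp.getD i 0 : ℤ) : ℝ) / N) < (N : ℝ) ^ n * (-V2) := by
        linarith
      have := lt_of_mul_lt_mul_left h5 hNn.le
      linarith

/-- data from a list -/
def Dt (l : List ℤ) {k : ℕ} (b : Fin k → ℤ) (c : ℤ) : Prop :=
  Pool.Agent.W21.CG.Chk (fun i : Fin l.length => l.getD i 0) b c

theorem gap_of {l : List ℤ} {k : ℕ} {b : Fin k → ℤ} {c : ℤ} (hD : Dt l b c) {N : ℕ} {Sh : List ℕ}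
    {V1 V2 : ℤ} {dp : List ℤ} (h : Cert l N Sh V1 V2 dp) :
    ∃ (D : Dat l.length k) (v₁ v₂ : ℝ), 0 < v₁ ∧ v₁ < v₂ ∧ ∀ w, v₁ ≤ w → w ≤ v₂ →
      {x : ℝ | ∏ i, (x - (D.a i : ℝ)) = -w}.ncard = l.length - 2 * Sh.length := by
  refine ⟨{ a := fun i => l.getD i 0
            b := b
            c := c
            ha := hD.1
            hb := hD.2.1
            hc := hD.2.2.1
            hab := fun j => by rw [Pool.Agent.W21.CG.eval_pA]; exact hD.2.2.2.1 j
            hder := fun j => by rw [Pool.Agent.W21.CG.eval_der]; exact hD.2.2.2.2.1 j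
            hlt := hD.2.2.2.2.2 }, V1, V2, by exact_mod_cast h.2.1, by exact_mod_cast h.2.2.1,
    fun w hw1 hw2 => cert_count h w hw1 hw2⟩

end Pool.Agent.Q199.SG
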