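import Pool.Agent.Q199.SG.Blocks

/-!
# Preparations for the configurations
-/

set_option autoImplicit false

namespace Pool.Agent.Q199.SG

open Polynomial Finset Filter Topology Pool.Agent.W460.CG

/-- real values of the polynomial with roots `S` -/
lemma PSr (S : Finset ℚ) (x : ℝ) : aeval x (PS S) = ∏ s ∈ S, (x - (s : ℝ)) := by
  unfold PS
  rw [map_prod]
  refine Finset.prod_congr rfl fun s _ => ?_
  rw [map_sub, aeval_X, aeval_C]
  rfl

lemma PSr3 {B : Finset ℚ} {κ : ℚ} (h : PS B = X ^ 3 - X - C κ) (x : ℝ) :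
    ∏ s ∈ B, (x - (s : ℝ)) = x ^ 3 - x - κ := by
  rw [← PSr, h]
  simp

lemma PSr4 {B : Finset ℚ} {κ : ℚ} (h : PS B = X ^ 4 - X ^ 2 + C κ) (x : ℝ) :
    ∏ s ∈ B, (x - (s : ℝ)) = x ^ 4 - x ^ 2 + κ := by
  rw [← PSr, h]
  simp

/-- `n` sign changes give `n` roots -/
lemma signs_card (n : ℕ) (F : Finset ℝ) (f : ℝ → ℝ) (hfc : Continuous f) (z : ℕ → ℝ)
    (hz : ∀ i < n, z i < z (i + 1)) (hs : ∀ j ≤ n, 0 < (-1) ^ (n - j) * f (z j))
    (hF : ∀ x, f x = 0 → x ∈ F) : n ≤ F.card := by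
  classical
  have hroot : ∀ i, ∃ r, i < n → z i < r ∧ r < z (i + 1) ∧ f r = 0 := by
    intro i
    by_cases hi : i < n
    · have h1 := hs i hi.le
      have h2 := hs (i + 1) hi
      have e : n - i = n - (i + 1) + 1 := by omega
      rw [e, pow_succ] at h1
      rcases Nat.even_or_odd (n - (i + 1)) with he | ho
      · rw [he.neg_one_pow] at h1 h2
        obtain ⟨r, hr, hr'⟩ := intermediate_value_Ioo (hz i hi).le hfc.continuousOn
          (show (0:ℝ) ∈ Set.Ioo (f (z i)) (f (z (i + 1))) from ⟨by linarith, by linarith⟩)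
        exact ⟨r, fun _ => ⟨hr.1, hr.2, hr'⟩⟩
      · rw [ho.neg_one_pow] at h1 h2
        obtain ⟨r, hr, hr'⟩ := intermediate_value_Ioo' (hz i hi).le hfc.continuousOn
          (show (0:ℝ) ∈ Set.Ioo (f (z (i + 1))) (f (z i)) from ⟨by linarith, by linarith⟩)
        exact ⟨r, fun _ => ⟨hr.1, hr.2, hr'⟩⟩
    · exact ⟨0, fun h => absurd h hi⟩
  choose ρ hρ using hroot
  have hzm : ∀ i j, i ≤ j → j ≤ n → z i ≤ z j := by
    intro i j hij hj
    induction j, hij using Nat.le_induction with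
    | base => exact le_rfl
    | succ k _ ih => exact (ih (by omega)).trans (hz k (by omega)).le
  have hmono : ∀ i j, i < j → j < n → ρ i < ρ j := by
    intro i j hij hj
    have h1 := (hρ i (by omega)).2.1
    have h2 := (hρ j hj).1
    have h3 := hzm (i + 1) j hij hj.le
    linarith
  have himg : (range n).image ρ ⊆ F := by
    intro x hx
    rw [Finset.mem_image] at hx
    obtain ⟨i, hi, rfl⟩ := hx
    rw [Finset.mem_range] at hi
    exact hF _ (hρ i hi).2.2
  have hinj : Set.InjOn ρ (range n : Set ℕ) := by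
    intro i hi j hj hij
    rw [Finset.coe_range, Set.mem_Iio] at hi hj
    rcases lt_trichotomy i j with h | h | h
    · have := hmono i j h hj
      linarith
    · exact h
    · have := hmono j i h hi
      linarith
  have hic : ((range n).image ρ).card = n := by
    rw [Finset.card_image_of_injOn hinj, Finset.card_range]
  rw [← hic]
  exact Finset.card_le_card himg

/-- the third block -/
lemma step3 (S : Finset ℚ) (v ε : ℚ) (h2 : 0 < v) (h3 : Eq3 S (-v)) (hε : 0 < ε) :
    ∃ (B : Finset ℚ) (κ : ℚ), B.card = 3 ∧ Disjoint S B ∧ 0 < κ ∧ κ < ε ∧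
      PS B = X ^ 3 - X - C κ ∧ (derivative (PS (S ∪ B))).eval 0 ≠ 0 ∧
      (derivative (PS (S ∪ B))).eval 1 ≠ 0 ∧ (derivative (PS (S ∪ B))).eval (-1) ≠ 0 := by
  classical
  set d : ℚ → ℚ := fun x => (derivative (PS S)).eval x with hd
  set M : ℚ := 1 + |d 0| + |d 1| + |d (-1)| with hM
  have hM0 : 0 < M := by positivity
  obtain ⟨B, κ, k1, k2, k3, k5', k4, -⟩ := blockNeg S (min ε (v / M)) (by positivity)
  have k5 : κ < v / M := k5'.trans_le (min_le_right _ _)
  have h4 : Eq3 B (-κ) := by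
    unfold Eq3
    rw [k4]
    simp
    norm_num
  have hMκ : M * κ < v := by
    rw [lt_div_iff₀ hM0] at k5
    linarith
  have key : ∀ x e : ℚ, |d x| ≤ M → (PS S).eval x = -v → (PS B).eval x = -κ →
      (derivative (PS B)).eval x = e → 1 ≤ |e| → (derivative (PS (S ∪ B))).eval x ≠ 0 := by
    intro x e g1 g2 g3 g4 g5 g6
    rw [PS_union k2, derivative_mul, eval_add, eval_mul, eval_mul, g2, g3, g4] at g6
    have g7 : d x * κ = -(v * e) := by
      change d x * -κ + -v * e = 0 at g6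
      linarith
    have g8 : |d x| * κ = v * |e| := by
      calc |d x| * κ = |d x * κ| := by rw [abs_mul, abs_of_pos k3]
        _ = |-(v * e)| := by rw [g7]
        _ = v * |e| := by rw [abs_neg, abs_mul, abs_of_pos h2]
    have g9 : |d x| * κ ≤ M * κ := by gcongr
    have g10 : v * 1 ≤ v * |e| := by gcongr
    linarith
  have hBd : derivative (PS B) = C 3 * X ^ 2 - 1 := by
    rw [k4, derivative_sub, derivative_sub, derivative_X_pow, derivative_X, derivative_C, sub_zero]
    norm_num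
  refine ⟨B, κ, k1, k2, k3, k5'.trans_le (min_le_left _ _), k4, ?_, ?_, ?_⟩
  · refine key 0 (-1) ?_ h3.1 h4.1 ?_ (by norm_num)
    · rw [hM]
      have := abs_nonneg (d 1)
      have := abs_nonneg (d (-1))
      linarith
    · rw [hBd]
      simp
  · refine key 1 2 ?_ h3.2.1 h4.2.1 ?_ (by norm_num)
    · rw [hM]
      have := abs_nonneg (d 0)
      have := abs_nonneg (d (-1))
      linarith
    · rw [hBd]
      simp
      norm_num
  · refine key (-1) 2 ?_ h3.2.2 h4.2.2 ?_ (by norm_num)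
    · rw [hM]
      have := abs_nonneg (d 1)
      have := abs_nonneg (d 0)
      linarith
    · rw [hBd]
      simp
      norm_num

/-- the direction of the deformation -/
lemma alpha (T : Finset ℝ) (p b c : ℝ → ℝ) (h0 : ∀ x ∈ T, p x * b x * c x < 0)
    (hinj : ∀ x ∈ T, ∀ y ∈ T, b x = b y → c x = c y → x = y) :
    ∃ α : ℝ, ∀ x ∈ T, ∀ y ∈ T, x ≠ y → p x * b x * c x = p y * b y * c y →
      p x * (α * b x - c x) ≠ p y * (α * b y - c y) := by
  classical
  obtain ⟨α, hα⟩ := Infinite.exists_notMem_finset ((T ×ˢ T).image fun q : ℝ × ℝ =>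
    (p q.1 * c q.1 - p q.2 * c q.2) / (p q.1 * b q.1 - p q.2 * b q.2))
  refine ⟨α, fun x hx y hy hxy he h => ?_⟩
  have hx0 := h0 x hx
  have hy0 := h0 y hy
  by_cases h1 : p x * b x = p y * b y
  · have hne : p y * b y ≠ 0 := fun h2 => by
      rw [h2, zero_mul] at hy0
      exact lt_irrefl _ hy0
    have h2 : c x = c y := by
      rw [h1] at he
      exact mul_left_cancel₀ hne he
    have h3 : p x * c x = p y * c y := by linear_combination α * h1 - h
    rw [h2] at h3
    have hc : c y ≠ 0 := fun h4 => by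
      rw [h4, mul_zero] at hy0
      exact lt_irrefl _ hy0
    have h5 : p x = p y := mul_right_cancel₀ hc h3
    rw [h5] at h1
    have hp : p y ≠ 0 := fun h4 => hne (by rw [h4, zero_mul])
    exact hxy (hinj x hx y hy (mul_left_cancel₀ hp h1) h2)
  · apply hα
    rw [Finset.mem_image]
    refine ⟨(x, y), Finset.mk_mem_product hx hy, ?_⟩
    have h2 : p x * b x - p y * b y ≠ 0 := sub_ne_zero.2 h1
    show (p x * c x - p y * c y) / (p x * b x - p y * b y) = α
    rw [div_eq_iff h2]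
    linear_combination -h

/-- the deformation is of first order -/
lemma defo (p b c : ℝ → ℝ) (hp : Continuous p) (hb : Continuous b) (hc : Continuous c) (α : ℝ)
    (t δ₁ δ₂ : ℕ → ℝ) (ht : Tendsto t atTop (𝓝[>] 0))
    (h1 : ∀ᶠ m in atTop, |δ₁ m - t m| ≤ t m ^ 2)
    (h2 : ∀ᶠ m in atTop, |δ₂ m - α * t m| ≤ t m ^ 2) :
    ∀ K : ℝ, ∀ ε > 0, ∀ᶠ m in atTop, ∀ x, |x| ≤ K →
      |p x * (b x - δ₁ m) * (c x + δ₂ m) - p x * b x * c x - t m * (p x * (α * b x - c x))| ≤
        ε * t m := by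
  intro K ε hε
  have htpos : ∀ᶠ m in atTop, 0 < t m := ht.eventually self_mem_nhdsWithin
  have ht0 : Tendsto t atTop (𝓝 0) := ht.mono_right nhdsWithin_le_nhds
  have htlt : ∀ η : ℝ, 0 < η → ∀ᶠ m in atTop, t m < η := fun η hη =>
    ht0.eventually (gt_mem_nhds hη)
  obtain ⟨M, hM⟩ : ∃ M : ℝ, ∀ x, |x| ≤ K →
      |p x| * (|b x| + |c x| + 2 * (|α| + 1)) ≤ M := by
    have hcont : Continuous fun x => |p x| * (|b x| + |c x| + 2 * (|α| + 1)) := by fun_prop
    obtain ⟨C, hC⟩ := (isCompact_Icc (a := -K) (b := K)).exists_bound_of_continuousOn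
      hcont.continuousOn
    exact ⟨C, fun x hx => (le_abs_self _).trans (hC x ⟨(abs_le.1 hx).1, (abs_le.1 hx).2⟩)⟩
  have hM' : 0 < |M| + 1 := by positivity
  filter_upwards [h1, h2, htpos, htlt 1 one_pos, htlt (ε / (|M| + 1)) (by positivity)]
    with m g1 g2 g3 g4 g5 x hx
  have hMx := hM x hx
  rw [lt_div_iff₀ hM'] at g5
  have e1 : |δ₁ m| ≤ 2 * t m := by
    have : |δ₁ m| ≤ |δ₁ m - t m| + |t m| := by
      have := abs_add_le (δ₁ m - t m) (t m)
      rwa [sub_add_cancel] at this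
    rw [abs_of_pos g3] at this
    nlinarith
  have e2 : |δ₂ m| ≤ (|α| + 1) * t m := by
    have : |δ₂ m| ≤ |δ₂ m - α * t m| + |α * t m| := by
      have := abs_add_le (δ₂ m - α * t m) (α * t m)
      rwa [sub_add_cancel] at this
    rw [abs_mul, abs_of_pos g3] at this
    nlinarith
  have e3 : p x * (b x - δ₁ m) * (c x + δ₂ m) - p x * b x * c x - t m * (p x * (α * b x - c x)) =
      p x * (b x * (δ₂ m - α * t m) + (-(c x * (δ₁ m - t m))) + (-(δ₁ m * δ₂ m))) := by ring
  rw [e3, abs_mul]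
  have e4 : |b x * (δ₂ m - α * t m) + (-(c x * (δ₁ m - t m))) + (-(δ₁ m * δ₂ m))| ≤
      (|b x| + |c x| + 2 * (|α| + 1)) * t m ^ 2 := by
    have k1 : |b x * (δ₂ m - α * t m)| ≤ |b x| * t m ^ 2 := by
      rw [abs_mul]; gcongr
    have k2 : |-(c x * (δ₁ m - t m))| ≤ |c x| * t m ^ 2 := by
      rw [abs_neg, abs_mul]; gcongr
    have k3 : |-(δ₁ m * δ₂ m)| ≤ 2 * (|α| + 1) * t m ^ 2 := by
      rw [abs_neg, abs_mul]
      calc |δ₁ m| * |δ₂ m| ≤ (2 * t m) * ((|α| + 1) * t m) := by gcongr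
        _ = _ := by ring
    calc _ ≤ |b x * (δ₂ m - α * t m) + (-(c x * (δ₁ m - t m)))| + |-(δ₁ m * δ₂ m)| :=
          abs_add_le _ _
      _ ≤ |b x * (δ₂ m - α * t m)| + |-(c x * (δ₁ m - t m))| + |-(δ₁ m * δ₂ m)| := by
          gcongr
          exact abs_add_le _ _
      _ ≤ _ := by linarith
  calc |p x| * _ ≤ |p x| * ((|b x| + |c x| + 2 * (|α| + 1)) * t m ^ 2) := by gcongr
    _ = (|p x| * (|b x| + |c x| + 2 * (|α| + 1))) * t m * t m := by ring
    _ ≤ M * t m * t m := by gcongr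
    _ ≤ |M| * t m * t m := by
        gcongr
        exact le_abs_self M
    _ ≤ ε * t m := by
        gcongr
        nlinarith

end Pool.Agent.Q199.SG
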