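import Pool.Agent.Q199.SG.Cfg1

/-!
# Configurations with a prescribed number of shallow gaps
-/

set_option autoImplicit false

namespace Pool.Agent.Q199.SG

open Polynomial Finset Filter Topology Pool.Agent.W460.CG

/-- the sorted list of the roots -/
lemma sorted (S : Finset ℚ) : ∃ ρ : ℕ → ℝ, (∀ i j, i < j → j < S.card → ρ i < ρ j) ∧
    ∀ x, (PR S.card ρ).eval x = ∏ s ∈ S, (x - (s : ℝ)) := by
  classical
  set T : Finset ℝ := S.map ⟨fun q : ℚ => (q : ℝ), Rat.cast_injective⟩ with hT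
  have hc : T.card = S.card := by rw [hT, Finset.card_map]
  set e := T.orderEmbOfFin hc with he
  refine ⟨fun i => if h : i < S.card then e ⟨i, h⟩ else 0, ?_, ?_⟩
  · intro i j hij hj
    have hi : i < S.card := hij.trans hj
    simp only [dif_pos hi, dif_pos hj]
    exact e.strictMono (by exact hij)
  · intro x
    rw [PR_eval, Finset.prod_range]
    have h1 : ∀ i : Fin S.card,
        (x - (if h : (i : ℕ) < S.card then e ⟨i, h⟩ else 0)) = x - e i := by
      intro i
      rw [dif_pos i.2]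
    rw [Finset.prod_congr rfl fun i _ => h1 i]
    have h2 : ∏ i, (x - e i) = ∏ s ∈ T, (x - s) := by
      have h3 : Finset.univ.image e = T := by
        ext y
        rw [Finset.mem_image]
        have h4 := Finset.range_orderEmbOfFin T hc
        constructor
        · rintro ⟨i, -, rfl⟩
          exact Finset.orderEmbOfFin_mem T hc i
        · intro hy
          have : y ∈ Set.range e := by rw [he, h4]; exact hy
          obtain ⟨i, rfl⟩ := this
          exact ⟨i, Finset.mem_univ _, rfl⟩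
      rw [← h3, Finset.prod_image (fun i _ j _ h => e.injective h)]
    rw [h2, hT, Finset.prod_map]
    rfl

/-- nearby blocks -/
lemma nearby (κ l : ℚ) (hκ : 0 < κ) (hκ2 : κ < 120 / 343) (hl : 0 < l) (hl2 : l < 1 / 4) (α : ℝ)
    (t : ℕ → ℝ) (ht : Tendsto t atTop (𝓝[>] 0)) :
    ∀ᶠ m in atTop, ∃ q : (Finset ℚ × ℚ) × (Finset ℚ × ℚ),
      q.1.1.card = 3 ∧ PS q.1.1 = X ^ 3 - X - C q.1.2 ∧
      q.2.1.card = 4 ∧ PS q.2.1 = X ^ 4 - X ^ 2 + C q.2.2 ∧
      |((q.1.2 : ℝ) - κ) - t m| ≤ t m ^ 2 ∧ |((q.2.2 : ℝ) - l) - α * t m| ≤ t m ^ 2 ∧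
      (0 : ℝ) < q.1.2 ∧ (0 : ℝ) < q.2.2 := by
  have htpos : ∀ᶠ m in atTop, 0 < t m := ht.eventually self_mem_nhdsWithin
  have ht0 : Tendsto t atTop (𝓝 0) := ht.mono_right nhdsWithin_le_nhds
  have hκ' : (0 : ℝ) < κ := by exact_mod_cast hκ
  have hκ2' : (κ : ℝ) < 120 / 343 := by
    have : (κ : ℝ) < ((120 / 343 : ℚ) : ℝ) := by exact_mod_cast hκ2
    rwa [show ((120 / 343 : ℚ) : ℝ) = 120 / 343 by push_cast; rfl] at this
  have hl' : (0 : ℝ) < l := by exact_mod_cast hl
  have hl2' : (l : ℝ) < 1 / 4 := by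
    have : (l : ℝ) < ((1 / 4 : ℚ) : ℝ) := by exact_mod_cast hl2
    rwa [show ((1 / 4 : ℚ) : ℝ) = 1 / 4 by push_cast; rfl] at this
  have lim : ∀ c d e : ℝ, Tendsto (fun m => c + d * t m + e * t m ^ 2) atTop (𝓝 c) := by
    intro c d e
    have := (tendsto_const_nhds (x := c) (f := (atTop : Filter ℕ))).add
      ((ht0.const_mul d).add ((ht0.pow 2).const_mul e))
    rw [mul_zero, zero_pow (by norm_num : (2 : ℕ) ≠ 0), mul_zero, add_zero, add_zero] at this
    refine this.congr fun m => ?_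
    ring
  have a1 := (lim κ 1 (-1)).eventually (lt_mem_nhds hκ')
  have a2 := (lim κ 1 1).eventually (gt_mem_nhds hκ2')
  have a3 := (lim l α (-1)).eventually (lt_mem_nhds hl')
  have a4 := (lim l α 1).eventually (gt_mem_nhds hl2')
  filter_upwards [htpos, a1, a2, a3, a4] with m g0 g1 g2 g3 g4
  have g5 : 0 < t m ^ 2 := by positivity
  obtain ⟨B, κ', b1, b2, b3, b4⟩ := densC (x := κ + 1 * t m + -1 * t m ^ 2)
    (y := κ + 1 * t m + 1 * t m ^ 2) g1.le (by linarith) g2.le
  obtain ⟨B', l', c1, c2, c3, c4⟩ := densQ (x := l + α * t m + -1 * t m ^ 2)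
    (y := l + α * t m + 1 * t m ^ 2) g3.le (by linarith) g4.le
  refine ⟨((B, κ'), (B', l')), b1, b4, c1, c4, ?_, ?_, g1.trans b2, g3.trans c2⟩
  · rw [abs_le]
    constructor <;> dsimp only <;> linarith
  · rw [abs_le]
    constructor <;> dsimp only <;> linarith

lemma tseq : Tendsto (fun m : ℕ => 1 / ((m : ℝ) + 1)) atTop (𝓝[>] 0) := by
  rw [tendsto_nhdsWithin_iff]
  refine ⟨tendsto_one_div_add_atTop_nhds_zero_nat, Eventually.of_forall fun m => ?_⟩
  show (0 : ℝ) < 1 / ((m : ℝ) + 1)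
  positivity

theorem config (a b r : ℕ) (hr : 1 ≤ r) (hr2 : r ≤ (3 * a + 4 * b + 10) / 2) :
    ∃ (S : Finset ℚ) (v : ℚ), S.card = 3 * a + 4 * b + 10 ∧ 0 < v ∧ Eq3 S v ∧
      ((derivative (PS S)).eval 0 ≠ 0 ∧ (derivative (PS S)).eval 1 ≠ 0 ∧
        (derivative (PS S)).eval (-1) ≠ 0) ∧ (∃ s ∈ S, 1 < s) ∧
      ∃ v₁ v₂ : ℝ, 0 < v₁ ∧ v₁ < v₂ ∧ ∀ w, v₁ ≤ w → w ≤ v₂ →
        {x : ℝ | ∏ s ∈ S, (x - (s : ℝ)) = -w}.ncard = 3 * a + 4 * b + 10 - 2 * r := by
  classical
  set n := 3 * a + 4 * b + 10 with hn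
  obtain ⟨S2, u, s1, s2, s3⟩ := stage2 a b
  obtain ⟨B2, l, p1, p2, p3, p4, p5⟩ := block4' S2
  have p6 : Eq3 B2 l := by
    unfold Eq3
    rw [p5]
    simp
    norm_num
  have p7 : Eq3 (S2 ∪ B2) (-(u * l)) := by
    have := s3.union p2 p6
    rwa [neg_mul] at this
  obtain ⟨B1, κ, q1, q2, q3, q4, q5, q6, q7, q8⟩ := step3 (S2 ∪ B2) (u * l) (120 / 343)
    (by positivity) p7 (by norm_num)
  have q9 : Eq3 B1 (-κ) := by
    unfold Eq3
    rw [q5]
    simp
    norm_num
  set R0 := (S2 ∪ B2) ∪ B1 with hR0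
  have hR0c : R0.card = n := by
    rw [hR0, Finset.card_union_of_disjoint q2, Finset.card_union_of_disjoint p2, s1, p1, q1, hn]
  have hR0e : Eq3 R0 (u * l * κ) := by
    have := p7.union q2 q9
    rwa [neg_mul_neg] at this
  -- the real functions
  set P : ℝ → ℝ := fun x => ∏ s ∈ S2, (x - (s : ℝ)) with hP
  set b1 : ℝ → ℝ := fun x => x ^ 3 - x - κ with hb1
  set b2 : ℝ → ℝ := fun x => x ^ 4 - x ^ 2 + l with hb2
  have hPc : Continuous P := by rw [hP]; fun_prop
  have hb1c : Continuous b1 := by rw [hb1]; fun_prop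
  have hb2c : Continuous b2 := by rw [hb2]; fun_prop
  have hA : ∀ x : ℝ, ∏ s ∈ R0, (x - (s : ℝ)) = P x * b1 x * b2 x := by
    intro x
    rw [hR0, Finset.prod_union q2, Finset.prod_union p2, PSr3 q5, PSr4 p5]
    ring
  obtain ⟨ρ, hρ, hρe⟩ := sorted R0
  rw [hR0c] at hρ hρe
  have hPR : ∀ x, (PR n ρ).eval x = P x * b1 x * b2 x := fun x => by rw [hρe, hA]
  have hn1 : 1 ≤ n := by omega
  obtain ⟨z, hz, hzm⟩ := seps hn1 hρ
  -- the values at the three points are positive
  have hpos3 : ∀ y : ℚ, (PS R0).eval y = u * l * κ → 0 < P y * b1 y * b2 y := by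
    intro y hy
    rw [← hA, ← PSr]
    have : aeval (y : ℝ) (PS R0) = (((PS R0).eval y : ℚ) : ℝ) := by
      have := Polynomial.aeval_algebraMap_apply ℝ y (PS R0)
      rw [coe_aeval_eq_eval] at this
      exact this
    rw [this, hy]
    have h1 : (0 : ℚ) < u * l * κ := by positivity
    exact_mod_cast h1
  have hneg : ∀ x : ℝ, P x * b1 x * b2 x < 0 → x ^ 3 - x ≠ 0 := by
    intro x hx h0
    have h1 : x * ((x - 1) * (x + 1)) = 0 := by linear_combination h0
    rcases mul_eq_zero.1 h1 with h | h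
    · have := hpos3 0 hR0e.1
      rw [h] at hx
      push_cast at this
      linarith
    · rcases mul_eq_zero.1 h with h | h
      · have h2 : x = 1 := by linarith
        have := hpos3 1 hR0e.2.1
        rw [h2] at hx
        push_cast at this
        linarith
      · have h2 : x = -1 := by linarith
        have := hpos3 (-1) hR0e.2.2
        rw [h2] at hx
        push_cast at this
        linarith
  -- the direction
  set T : Finset ℝ := ((range n).filter fun i => i + 1 < n ∧ Odd (n - 1 - i)).image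
    fun i => z (i + 1) with hT
  have hTneg : ∀ x ∈ T, P x * b1 x * b2 x < 0 := by
    intro x hx
    rw [hT, Finset.mem_image] at hx
    obtain ⟨i, hi, rfl⟩ := hx
    rw [Finset.mem_filter] at hi
    rw [← hPR]
    exact (hzm i hi.2.1 hi.2.2).1
  obtain ⟨α, hα⟩ := alpha T P b1 b2 hTneg (by
    intro x hx y hy h1 h2
    have g1 := hneg x (hTneg x hx)
    have g2 : x ^ 3 - x = y ^ 3 - y := by
      have h1' : x ^ 3 - x - (κ : ℝ) = y ^ 3 - y - κ := h1
      linarith
    have g3 : x ^ 4 - x ^ 2 = y ^ 4 - y ^ 2 := by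
      have h2' : x ^ 4 - x ^ 2 + (l : ℝ) = y ^ 4 - y ^ 2 + l := h2
      linarith
    have g4 : (x - y) * (x ^ 3 - x) = 0 := by linear_combination g3 - y * g2
    rcases mul_eq_zero.1 g4 with h | h
    · linarith
    · exact absurd h g1)
  set A1 : ℝ → ℝ := fun x => P x * (α * b1 x - b2 x) with hA1
  have hA1c : Continuous A1 := by rw [hA1]; fun_prop
  have hzlt : ∀ i < n, z i < z (i + 1) := fun i hi => (hz i hi).1.trans (hz i hi).2
  have hzle : ∀ i j, i < j → j ≤ n → z i < z j := by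
    intro i j hij hj
    induction j, hij using Nat.le_induction with
    | base => exact hzlt i (by omega)
    | succ k _ ih => exact (ih (by omega)).trans (hzlt k (by omega))
  have hzne : ∀ i j, i ≤ n → j ≤ n → i ≠ j → z i ≠ z j := by
    intro i j hi hj hij
    rcases lt_or_gt_of_ne hij with h | h
    · exact (hzle i j h hj).ne
    · exact (hzle j i h hi).ne'
  -- the sequences
  set t : ℕ → ℝ := fun m => 1 / ((m : ℝ) + 1) with ht
  obtain ⟨q, hq⟩ := (nearby κ l q3 q4 p3 p4 α t tseq).choice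
  set k' : ℕ → ℝ := fun m => ((q m).1.2 : ℝ) with hk'
  set l' : ℕ → ℝ := fun m => ((q m).2.2 : ℝ) with hl'
  set f : ℕ → ℝ → ℝ := fun m x => P x * (b1 x - (k' m - κ)) * (b2 x + (l' m - l)) with hf
  have hdefo := defo P b1 b2 hPc hb1c hb2c α t (fun m => k' m - κ) (fun m => l' m - l) tseq
    (by filter_upwards [hq] with m hm using hm.2.2.2.2.1)
    (by filter_upwards [hq] with m hm using hm.2.2.2.2.2.1)
  obtain ⟨Sh, hShc, hShm, v₁, v₂, hev⟩ := tie hn1 hρ r hr hr2 z hz hzm A1 hA1c (by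
    intro i j hi hj hio hjo hij he
    rw [hPR, hPR] at he
    refine hα _ ?_ _ ?_ ?_ he
    · exact Finset.mem_image_of_mem _ (Finset.mem_filter.2 ⟨Finset.mem_range.2 (by omega), hi, hio⟩)
    · exact Finset.mem_image_of_mem _ (Finset.mem_filter.2 ⟨Finset.mem_range.2 (by omega), hj, hjo⟩)
    · exact hzne _ _ (by omega) (by omega) (by omega)) atTop t tseq f (by
    intro K ε hε
    filter_upwards [hdefo K ε hε] with m hm x hx
    rw [hPR]
    exact hm x hx)
  -- limits of the parameters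
  have ht0 : Tendsto t atTop (𝓝 0) := tseq.mono_right nhdsWithin_le_nhds
  have limk : Tendsto k' atTop (𝓝 κ) := by
    have h1 : Tendsto (fun m => t m + t m ^ 2) atTop (𝓝 0) := by
      have := ht0.add (ht0.pow 2)
      rwa [zero_pow (by norm_num : (2 : ℕ) ≠ 0), add_zero] at this
    rw [tendsto_iff_norm_sub_tendsto_zero]
    refine squeeze_zero' (Eventually.of_forall fun m => norm_nonneg _) ?_ h1
    filter_upwards [hq] with m hm
    have h2 := hm.2.2.2.2.1
    rw [Real.norm_eq_abs]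
    have h3 := abs_add_le ((k' m - κ) - t m) (t m)
    rw [sub_add_cancel, abs_of_pos (show 0 < t m by rw [ht]; positivity)] at h3
    have h4 : |(k' m - κ) - t m| ≤ t m ^ 2 := h2
    linarith
  have liml : Tendsto l' atTop (𝓝 l) := by
    have h1 : Tendsto (fun m => |α| * t m + t m ^ 2) atTop (𝓝 0) := by
      have := (ht0.const_mul |α|).add (ht0.pow 2)
      rwa [zero_pow (by norm_num : (2 : ℕ) ≠ 0), mul_zero, add_zero] at this
    rw [tendsto_iff_norm_sub_tendsto_zero]
    refine squeeze_zero' (Eventually.of_forall fun m => norm_nonneg _) ?_ h1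
    filter_upwards [hq] with m hm
    have h2 := hm.2.2.2.2.2.1
    rw [Real.norm_eq_abs]
    have h3 := abs_add_le ((l' m - l) - α * t m) (α * t m)
    rw [sub_add_cancel, abs_mul α, abs_of_pos (show 0 < t m by rw [ht]; positivity)] at h3
    have h4 : |(l' m - l) - α * t m| ≤ t m ^ 2 := h2
    linarith
  -- the derivatives
  set d : ℚ → ℚ := fun x => (derivative (PS S2)).eval x with hd
  have hder : ∀ y : ℚ, (PS S2).eval y = -u → y ^ 3 - y = 0 →
      (derivative (PS R0)).eval y ≠ 0 →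
      ∀ᶠ m in atTop, (d y : ℝ) * (-k' m) * l' m + -u * (3 * y ^ 2 - 1) * l' m +
        -u * (-k' m) * (4 * y ^ 3 - 2 * y) ≠ 0 := by
    intro y h1 h2 h3
    have h4 : Tendsto (fun m => (d y : ℝ) * (-k' m) * l' m + -u * (3 * y ^ 2 - 1) * l' m +
        -u * (-k' m) * (4 * y ^ 3 - 2 * y)) atTop (𝓝 ((d y : ℝ) * (-κ) * l +
        -u * (3 * y ^ 2 - 1) * l + -u * (-κ) * (4 * y ^ 3 - 2 * y))) :=
      (((limk.neg.const_mul _).mul liml).add (liml.const_mul _)).add
        ((limk.neg.const_mul _).mul_const _)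
    refine h4.eventually_ne ?_
    have h5 : (derivative (PS R0)).eval y = d y * (-κ) * l + -u * (3 * y ^ 2 - 1) * l +
        -u * (-κ) * (4 * y ^ 3 - 2 * y) := by
      rw [hR0, PS_union q2, PS_union p2, q5, p5]
      simp only [derivative_mul, derivative_add, derivative_sub, derivative_X_pow, derivative_X,
        derivative_C, eval_add, eval_mul, eval_sub, eval_X, eval_pow, eval_C, eval_one, eval_zero,
        h1]
      have h6 : (derivative (PS S2)).eval y = d y := rfl
      rw [h6]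
      have h7 : y ^ 4 - y ^ 2 = 0 := by linear_combination y * h2
      push_cast
      have e1 : y ^ 3 - y - κ = -κ := by rw [h2]; ring
      have e2 : y ^ 4 - y ^ 2 + l = l := by rw [h7]; ring
      rw [e1, e2]
      norm_num
      ring
    rw [h5] at h3
    intro h6
    apply h3
    exact_mod_cast h6
  have hd0 := hder 0 s3.1 (by norm_num) q6
  have hd1 := hder 1 s3.2.1 (by norm_num) q7
  have hd2 := hder (-1) s3.2.2 (by norm_num) q8
  obtain ⟨m, hm1, hm2, hm3, hm4, hm5⟩ := (hq.and (hev.and (hd0.and (hd1.and hd2)))).exists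
  obtain ⟨c1, c2, c3, c4, -, -, c5, c6⟩ := hm1
  obtain ⟨e1, e2, e3, e4, e5⟩ := hm2
  set C1 := (q m).1.1 with hC1
  set C2 := (q m).2.1 with hC2
  set k := (q m).1.2 with hk
  set w := (q m).2.2 with hw
  have hfm : ∀ x, f m x = P x * (∏ s ∈ C1, (x - (s : ℝ))) * ∏ s ∈ C2, (x - (s : ℝ)) := by
    intro x
    rw [PSr3 c2, PSr4 c4]
    show P x * (x ^ 3 - x - κ - ((k : ℝ) - κ)) * (x ^ 4 - x ^ 2 + l + ((w : ℝ) - l)) = _
    ring
  -- disjointness
  have hcard : n ≤ ((S2 ∪ C1) ∪ C2).card := by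
    have h1 := signs_card n (((S2 ∪ C1) ∪ C2).image fun q : ℚ => (q : ℝ)) (f m) (by
      rw [hf]; fun_prop) z hzlt e3 (by
      intro x hx
      rw [hfm] at hx
      rw [Finset.mem_image]
      have key : ∀ F : Finset ℚ, ∏ s ∈ F, (x - (s : ℝ)) = 0 → ∃ s ∈ F, (s : ℝ) = x := by
        intro F hF
        rw [Finset.prod_eq_zero_iff] at hF
        obtain ⟨s, hs1, hs2⟩ := hF
        exact ⟨s, hs1, by linarith⟩
      rcases mul_eq_zero.1 hx with h | h
      · rcases mul_eq_zero.1 h with h | h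
        · obtain ⟨s, hs1, hs2⟩ := key _ h
          exact ⟨s, Finset.mem_union_left _ (Finset.mem_union_left _ hs1), hs2⟩
        · obtain ⟨s, hs1, hs2⟩ := key _ h
          exact ⟨s, Finset.mem_union_left _ (Finset.mem_union_right _ hs1), hs2⟩
      · obtain ⟨s, hs1, hs2⟩ := key _ h
        exact ⟨s, Finset.mem_union_right _ hs1, hs2⟩)
    exact h1.trans Finset.card_image_le
  have hle1 := Finset.card_union_le (S2 ∪ C1) C2
  have hle2 := Finset.card_union_le S2 C1
  have hdis1 : Disjoint S2 C1 := by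
    rw [← Finset.card_union_eq_card_add_card]
    omega
  have hdis2 : Disjoint (S2 ∪ C1) C2 := by
    rw [← Finset.card_union_eq_card_add_card]
    omega
  have f1 : Eq3 C1 (-k) := by
    unfold Eq3
    rw [c2]
    simp
    norm_num
  have f2 : Eq3 C2 w := by
    unfold Eq3
    rw [c4]
    simp
    norm_num
  have f3 : Eq3 ((S2 ∪ C1) ∪ C2) (u * k * w) := by
    have := (s3.union hdis1 f1).union hdis2 f2
    rwa [neg_mul_neg] at this
  have hk0 : 0 < k := by exact_mod_cast c5
  have hw0 : 0 < w := by exact_mod_cast c6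
  have hRc : ((S2 ∪ C1) ∪ C2).card = n := by
    rw [Finset.card_union_of_disjoint hdis2, Finset.card_union_of_disjoint hdis1, s1, c1, c3, hn]
  have hprod : ∀ x : ℝ, ∏ s ∈ (S2 ∪ C1) ∪ C2, (x - (s : ℝ)) = f m x := by
    intro x
    rw [Finset.prod_union hdis2, Finset.prod_union hdis1, hfm]
  have hderm : ∀ y : ℚ, (PS S2).eval y = -u → y ^ 3 - y = 0 →
      (d y : ℝ) * (-k' m) * l' m + -u * (3 * y ^ 2 - 1) * l' m +
        -u * (-k' m) * (4 * y ^ 3 - 2 * y) ≠ 0 →
      (derivative (PS ((S2 ∪ C1) ∪ C2))).eval y ≠ 0 := by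
    intro y h1 h2 h3
    have h5 : (derivative (PS ((S2 ∪ C1) ∪ C2))).eval y = d y * (-k) * w +
        -u * (3 * y ^ 2 - 1) * w + -u * (-k) * (4 * y ^ 3 - 2 * y) := by
      rw [PS_union hdis2, PS_union hdis1, c2, c4]
      simp only [derivative_mul, derivative_add, derivative_sub, derivative_X_pow, derivative_X,
        derivative_C, eval_add, eval_mul, eval_sub, eval_X, eval_pow, eval_C, eval_one, eval_zero,
        h1]
      have h6 : (derivative (PS S2)).eval y = d y := rfl
      rw [h6]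
      have h7 : y ^ 4 - y ^ 2 = 0 := by linear_combination y * h2
      push_cast
      have e1 : y ^ 3 - y - k = -k := by rw [h2]; ring
      have e2 : y ^ 4 - y ^ 2 + w = w := by rw [h7]; ring
      rw [e1, e2]
      norm_num
      ring
    rw [h5]
    intro h6
    apply h3
    have h7 : ((d y * (-k) * w + -u * (3 * y ^ 2 - 1) * w + -u * (-k) * (4 * y ^ 3 - 2 * y) : ℚ)
      : ℝ) = 0 := by rw [h6]; norm_num
    push_cast at h7
    exact h7
  refine ⟨(S2 ∪ C1) ∪ C2, u * k * w, hRc, by positivity, f3,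
    ⟨hderm 0 s3.1 (by norm_num) hm3, hderm 1 s3.2.1 (by norm_num) hm4,
      hderm (-1) s3.2.2 (by norm_num) hm5⟩, ?_, v₁ m, v₂ m, e1, e2, ?_⟩
  · -- a root greater than one
    by_contra hcon
    push Not at hcon
    have h1 : (0 : ℚ) ≤ (PS C1).eval 1 := by
      unfold PS
      rw [eval_prod]
      refine Finset.prod_nonneg fun s hs => ?_
      rw [eval_sub, eval_X, eval_C]
      have := hcon s (Finset.mem_union_left _ (Finset.mem_union_right _ hs))
      linarith
    rw [f1.2.1] at h1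
    linarith
  · intro w' hw1 hw2
    set RR : Finset ℝ := ((S2 ∪ C1) ∪ C2).image fun q : ℚ => (q : ℝ) with hRR
    have hRRc : RR.card ≤ n := by
      rw [← hRc]
      exact Finset.card_image_le
    have hRRp : ∀ x : ℝ, ∏ s ∈ RR, (x - s) = f m x := by
      intro x
      rw [hRR, Finset.prod_image (fun a _ b _ h => Rat.cast_injective h), hprod]
    have h1 := count_sep n RR hRRc z hzlt (by
      intro j hj
      rw [hRRp]
      exact e3 j hj) Sh w' (e1.trans_le hw1) (by
      intro i hi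
      refine ⟨(hShm i hi).1, (hShm i hi).2, fun x hx1 hx2 => ?_⟩
      rw [hRRp]
      have := e4 i hi x hx1 hx2
      linarith) (by
      intro i hi hio hiS
      rw [hRRp]
      have := e5 i hi hio hiS
      linarith)
    rw [hShc] at h1
    rw [← h1.2]
    congr 1
    ext x
    rw [Set.mem_ofPred_eq, Set.mem_ofPred_eq, hprod, hRRp]

end Pool.Agent.Q199.SG
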