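import Mathlib

/-!
# Number of real solutions of `A = -v` for a polynomial `A` with real roots
-/

set_option autoImplicit false

namespace Pool.Agent.Q199.SG

open Polynomial Finset

/-- the polynomial with the roots `ρ 0, …, ρ (n - 1)` -/
noncomputable def PR (n : ℕ) (ρ : ℕ → ℝ) : ℝ[X] := ∏ i ∈ range n, (X - C (ρ i))

lemma PR_eval (n : ℕ) (ρ : ℕ → ℝ) (x : ℝ) : (PR n ρ).eval x = ∏ i ∈ range n, (x - ρ i) := by
  unfold PR
  rw [eval_prod]
  simp

lemma PR_monic (n : ℕ) (ρ : ℕ → ℝ) : (PR n ρ).Monic :=
  monic_prod_of_monic _ _ fun _ _ => monic_X_sub_C _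

lemma PR_natDegree (n : ℕ) (ρ : ℕ → ℝ) : (PR n ρ).natDegree = n := by
  unfold PR
  rw [natDegree_prod_of_monic _ _ fun _ _ => monic_X_sub_C _]
  simp

lemma PR_cont (n : ℕ) (ρ : ℕ → ℝ) : Continuous fun x => (PR n ρ).eval x := (PR n ρ).continuous

/-- the sign of the polynomial at a point with exactly `n - j` roots to the right -/
lemma PR_sign (n : ℕ) (ρ : ℕ → ℝ) (x : ℝ) (j : ℕ) (hj : j ≤ n) (h1 : ∀ i < j, ρ i < x)
    (h2 : ∀ i < n, j ≤ i → x < ρ i) : 0 < (-1) ^ (n - j) * (PR n ρ).eval x := by
  rw [PR_eval, ← Finset.prod_range_mul_prod_Ico _ hj]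
  have e1 : 0 < ∏ k ∈ range j, (x - ρ k) := Finset.prod_pos fun i hi => by
    have := h1 i (Finset.mem_range.1 hi)
    linarith
  have e2 : ∏ k ∈ Finset.Ico j n, (x - ρ k) = (-1) ^ (n - j) * ∏ k ∈ Finset.Ico j n, (ρ k - x) := by
    have : ∏ k ∈ Finset.Ico j n, (x - ρ k) = ∏ k ∈ Finset.Ico j n, ((-1) * (ρ k - x)) :=
      Finset.prod_congr rfl fun i _ => by ring
    rw [this, Finset.prod_mul_distrib, Finset.prod_const, Nat.card_Ico]
  have e3 : 0 < ∏ k ∈ Finset.Ico j n, (ρ k - x) := Finset.prod_pos fun i hi => by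
    have := h2 i (Finset.mem_Ico.1 hi).2 (Finset.mem_Ico.1 hi).1
    linarith
  rw [e2]
  have e4 : ((-1 : ℝ) ^ (n - j)) * ((-1) ^ (n - j)) = 1 := by
    rw [← mul_pow]; norm_num
  calc (0:ℝ) < (∏ k ∈ range j, (x - ρ k)) * ∏ k ∈ Finset.Ico j n, (ρ k - x) := mul_pos e1 e3
    _ = (((-1 : ℝ) ^ (n - j)) * ((-1) ^ (n - j))) * ((∏ k ∈ range j, (x - ρ k)) *
        ∏ k ∈ Finset.Ico j n, (ρ k - x)) := by rw [e4, one_mul]
    _ = _ := by ring


lemma root_zero {n : ℕ} {ρ : ℕ → ℝ} {i : ℕ} (hi : i < n) : (PR n ρ).eval (ρ i) = 0 := by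
  rw [PR_eval]
  exact Finset.prod_eq_zero (Finset.mem_range.2 hi) (sub_self _)

/-- between two points with equal values there is a zero of the derivative -/
lemma rolle (P : ℝ[X]) {x y : ℝ} (hxy : x < y) (h : P.eval x = P.eval y) :
    ∃ c, x < c ∧ c < y ∧ (derivative P).eval c = 0 := by
  obtain ⟨c, hc, hc'⟩ := exists_hasDerivAt_eq_zero (f := fun x => P.eval x)
    (f' := fun x => (derivative P).eval x) hxy P.continuous.continuousOn h
    (fun x _ => P.hasDerivAt x)
  exact ⟨c, hc.1, hc.2, hc'⟩

section

variable {n : ℕ} {ρ : ℕ → ℝ} (hρ : ∀ i j, i < j → j < n → ρ i < ρ j)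

include hρ

/-- all the zeros of the derivative -/
lemma crit : ∃ c : ℕ → ℝ, (∀ i, i + 1 < n → ρ i < c i ∧ c i < ρ (i + 1)) ∧
    ∀ y, 1 ≤ n → (derivative (PR n ρ)).eval y = 0 → ∃ i, i + 1 < n ∧ y = c i := by
  classical
  have h1 : ∀ i, ∃ c, i + 1 < n → ρ i < c ∧ c < ρ (i + 1) ∧
      (derivative (PR n ρ)).eval c = 0 := by
    intro i
    by_cases hi : i + 1 < n
    · obtain ⟨c, a1, a2, a3⟩ := rolle (PR n ρ) (hρ i (i + 1) (by omega) hi)
        (by rw [root_zero (by omega), root_zero hi])
      exact ⟨c, fun _ => ⟨a1, a2, a3⟩⟩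
    · exact ⟨0, fun h => absurd h hi⟩
  choose c hc using h1
  refine ⟨c, fun i hi => ⟨(hc i hi).1, (hc i hi).2.1⟩, fun y hn hy => ?_⟩
  by_contra hcon
  push Not at hcon
  have hmono : ∀ i j, i < j → j + 1 < n → c i < c j := by
    intro i j hij hj
    have a1 := (hc i (by omega)).2.1
    have a2 := (hc j hj).1
    rcases Nat.lt_or_ge (i + 1) j with h | h
    · have := hρ (i + 1) j h (by omega)
      linarith
    · have : i + 1 = j := by omega
      rw [this] at a1
      linarith
  have hP0 : derivative (PR n ρ) ≠ 0 := by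
    intro h
    have := derivative_eq_zero.1 h
    rw [PR_natDegree] at this
    omega
  set S : Finset ℝ := insert y ((range (n - 1)).image c) with hS
  have hcard : S.card = n := by
    rw [hS, Finset.card_insert_of_notMem, Finset.card_image_of_injOn, Finset.card_range]
    · omega
    · intro i hi j hj hij
      rw [Finset.coe_range, Set.mem_Iio] at hi hj
      rcases lt_trichotomy i j with h | h | h
      · have := hmono i j h (by omega)
        linarith
      · exact h
      · have := hmono j i h (by omega)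
        linarith
    · rw [Finset.mem_image]
      rintro ⟨i, hi, h⟩
      rw [Finset.mem_range] at hi
      exact hcon i (by omega) h.symm
  have hsub : S ⊆ (derivative (PR n ρ)).roots.toFinset := by
    intro w hw
    rw [Multiset.mem_toFinset, mem_roots hP0, IsRoot.def]
    rw [hS, Finset.mem_insert, Finset.mem_image] at hw
    rcases hw with rfl | ⟨i, hi, rfl⟩
    · exact hy
    · rw [Finset.mem_range] at hi
      exact (hc i (by omega)).2.2
  have h2 : S.card ≤ n - 1 := by
    calc S.card ≤ (derivative (PR n ρ)).roots.toFinset.card := Finset.card_le_card hsub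
      _ ≤ Multiset.card (derivative (PR n ρ)).roots := Multiset.toFinset_card_le _
      _ ≤ (derivative (PR n ρ)).natDegree := card_roots' _
      _ ≤ (PR n ρ).natDegree - 1 := natDegree_derivative_le _
      _ = n - 1 := by rw [PR_natDegree]
  omega

/-- at most two solutions in a gap -/
lemma le_two {i : ℕ} (hi : i + 1 < n) {v y₁ y₂ y₃ : ℝ} (h0 : ρ i < y₁) (h12 : y₁ < y₂)
    (h23 : y₂ < y₃) (h3 : y₃ < ρ (i + 1)) (e1 : (PR n ρ).eval y₁ = v) (e2 : (PR n ρ).eval y₂ = v)
    (e3 : (PR n ρ).eval y₃ = v) : False := by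
  obtain ⟨c, hc, hz⟩ := crit hρ
  obtain ⟨a, a1, a2, a3⟩ := rolle (PR n ρ) h12 (e1.trans e2.symm)
  obtain ⟨b, b1, b2, b3⟩ := rolle (PR n ρ) h23 (e2.trans e3.symm)
  obtain ⟨j, hj, hj'⟩ := hz a (by omega) a3
  obtain ⟨k, hk, hk'⟩ := hz b (by omega) b3
  have key : ∀ l, l + 1 < n → ρ i < c l → c l < ρ (i + 1) → l = i := by
    intro l hl g1 g2
    have g3 := hc l hl
    rcases lt_trichotomy l i with h | h | h
    · exfalso
      rcases Nat.lt_or_ge (l + 1) i with h' | h'
      · have := hρ (l + 1) i h' (by omega)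
        linarith
      · have : l + 1 = i := by omega
        rw [this] at g3
        linarith
    · exact h
    · exfalso
      rcases Nat.lt_or_ge (i + 1) l with h' | h'
      · have := hρ (i + 1) l h' (by omega)
        linarith
      · have : i + 1 = l := by omega
        rw [this] at g2
        linarith
  have e4 := key j hj (by rw [← hj']; linarith) (by rw [← hj']; linarith)
  have e5 := key k hk (by rw [← hk']; linarith) (by rw [← hk']; linarith)
  rw [e4] at hj'
  rw [e5] at hk'
  linarith

/-- at most one solution to the left -/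
lemma le_one (hn : 1 ≤ n) {v y₁ y₂ : ℝ} (h12 : y₁ < y₂) (h2 : y₂ < ρ 0)
    (e1 : (PR n ρ).eval y₁ = v) (e2 : (PR n ρ).eval y₂ = v) : False := by
  obtain ⟨c, hc, hz⟩ := crit hρ
  obtain ⟨a, a1, a2, a3⟩ := rolle (PR n ρ) h12 (e1.trans e2.symm)
  obtain ⟨j, hj, hj'⟩ := hz a hn a3
  have g := hc j hj
  rcases Nat.eq_zero_or_pos j with h | h
  · rw [h] at g hj'
    linarith
  · have := hρ 0 j h (by omega)
    linarith

/-- position of a point -/
lemma position (y : ℝ) (hy : ∀ i < n, y ≠ ρ i) :
    ∃ j ≤ n, (∀ i < j, ρ i < y) ∧ (∀ i < n, j ≤ i → y < ρ i) := by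
  classical
  by_cases h : ∃ i < n, y < ρ i
  · obtain ⟨h1, h2⟩ := Nat.find_spec h
    refine ⟨Nat.find h, h1.le, fun i hi => ?_, fun i hi hij => ?_⟩
    · have := Nat.find_min h hi
      push Not at this
      exact lt_of_le_of_ne (this (hi.trans h1)) (hy i (hi.trans h1)).symm
    · rcases lt_or_eq_of_le hij with h' | h'
      · exact h2.trans (hρ _ _ h' hi)
      · rw [← h']; exact h2
  · push Not at h
    exact ⟨n, le_rfl, fun i hi => lt_of_le_of_ne (h i hi) (hy i hi).symm, fun i hi hi' => by omega⟩

end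

lemma card_odd (n : ℕ) : ((range (n - 1)).filter fun i => Odd (n - 1 - i)).card = n / 2 := by
  have h : ∀ m : ℕ, ((range m).filter fun i => Odd (m - i)).card = (m + 1) / 2 := by
    intro m
    have h1 : ((range m).filter fun i => Odd (m - i)).card =
        ((range m).filter fun i => Odd (i + 1)).card := by
      refine Finset.card_bij' (fun i _ => m - 1 - i) (fun i _ => m - 1 - i) ?_ ?_ ?_ ?_
      · intro i hi
        rw [Finset.mem_filter, Finset.mem_range] at hi ⊢
        refine ⟨by omega, ?_⟩
        have : m - 1 - i + 1 = m - i := by omega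
        rw [this]; exact hi.2
      · intro i hi
        rw [Finset.mem_filter, Finset.mem_range] at hi ⊢
        refine ⟨by omega, ?_⟩
        have : m - (m - 1 - i) = i + 1 := by omega
        rw [this]; exact hi.2
      · intro i hi
        rw [Finset.mem_filter, Finset.mem_range] at hi
        omega
      · intro i hi
        rw [Finset.mem_filter, Finset.mem_range] at hi
        omega
    rw [h1]
    clear h1
    induction m with
    | zero => rfl
    | succ m ih =>
      rw [Finset.range_add_one, Finset.filter_insert]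
      rcases Nat.even_or_odd (m + 1) with h2 | h2
      · rw [if_neg (Nat.not_odd_iff_even.2 h2), ih]
        obtain ⟨k, hk⟩ := h2
        omega
      · rw [if_pos h2, Finset.card_insert_of_notMem (by simp), ih]
        obtain ⟨k, hk⟩ := h2
        omega
  rw [h]
  rcases Nat.eq_zero_or_pos n with h2 | h2
  · subst h2; rfl
  · congr 1
    omega

/-- The count: every gap in which the polynomial is negative is either deep or shallow. -/
theorem count (n : ℕ) (ρ : ℕ → ℝ) (hρ : ∀ i j, i < j → j < n → ρ i < ρ j) (v : ℝ) (hv : 0 < v)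
    (Sh : Finset ℕ) (hSh : ∀ i ∈ Sh, i + 1 < n ∧ Odd (n - 1 - i) ∧
      ∀ x, ρ i < x → x < ρ (i + 1) → -v < (PR n ρ).eval x)
    (hDe : ∀ i, i + 1 < n → Odd (n - 1 - i) → i ∉ Sh →
      ∃ x, ρ i < x ∧ x < ρ (i + 1) ∧ (PR n ρ).eval x < -v) :
    {x : ℝ | (PR n ρ).eval x = -v}.ncard = n - 2 * Sh.card := by
  classical
  set A : ℝ → ℝ := fun x => (PR n ρ).eval x with hA
  have hAc : Continuous A := PR_cont n ρ
  set Neg : Finset ℕ := (range (n - 1)).filter fun i => Odd (n - 1 - i) with hNeg
  have hNegc : Neg.card = n / 2 := card_odd n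
  have hShN : Sh ⊆ Neg := by
    intro i hi
    have := hSh i hi
    rw [hNeg, Finset.mem_filter, Finset.mem_range]
    exact ⟨by omega, this.2.1⟩
  set De : Finset ℕ := Neg \ Sh with hDeD
  have hDec : De.card = n / 2 - Sh.card := by
    rw [hDeD, Finset.card_sdiff_of_subset hShN, hNegc]
  have hroot : ∀ i, i < n → A (ρ i) = 0 := fun i hi => root_zero hi
  -- two solutions in a deep gap
  have hpair : ∀ i, ∃ y : ℝ × ℝ, i ∈ De → ρ i < y.1 ∧ y.1 < y.2 ∧ y.2 < ρ (i + 1) ∧ A y.1 = -v ∧
      A y.2 = -v ∧ ∀ w, ρ i < w → w < ρ (i + 1) → A w = -v → w = y.1 ∨ w = y.2 := by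
    intro i
    by_cases hi : i ∈ De
    · rw [hDeD, Finset.mem_sdiff, hNeg, Finset.mem_filter, Finset.mem_range] at hi
      obtain ⟨⟨h1, h2⟩, h3⟩ := hi
      have h4 : i + 1 < n := by omega
      obtain ⟨x, h5, h6, h7⟩ := hDe i h4 h2 h3
      obtain ⟨y₁, g1, g2⟩ := intermediate_value_Ioo' h5.le hAc.continuousOn
        (show -v ∈ Set.Ioo (A x) (A (ρ i)) from ⟨h7, by rw [hroot i (by omega)]; linarith⟩)
      obtain ⟨y₂, g3, g4⟩ := intermediate_value_Ioo h6.le hAc.continuousOn
        (show -v ∈ Set.Ioo (A x) (A (ρ (i + 1))) from ⟨h7, by rw [hroot (i + 1) h4]; linarith⟩)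
      have g5 : y₁ < y₂ := g1.2.trans g3.1
      refine ⟨(y₁, y₂), fun _ => ⟨g1.1, g5, g3.2, g2, g4, fun w w1 w2 w3 => ?_⟩⟩
      by_contra hcon
      push Not at hcon
      have g1l := g1.1
      have g3r := g3.2
      rcases lt_or_gt_of_ne hcon.1 with c1 | c1
      · exact le_two hρ h4 w1 c1 g5 g3r w3 g2 g4
      · rcases lt_or_gt_of_ne hcon.2 with c2 | c2
        · exact le_two hρ h4 g1l c1 c2 g3r g2 w3 g4
        · exact le_two hρ h4 g1l g5 c2 w2 g2 g4 w3
    · exact ⟨(0, 0), fun h => absurd h hi⟩
  choose y hy using hpair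
  -- the solution on the left
  have hleft : ∃ E : Finset ℝ, E.card = n % 2 ∧ (∀ w ∈ E, (1 ≤ n → w < ρ 0) ∧ A w = -v) ∧
      ∀ w, 1 ≤ n → w < ρ 0 → A w = -v → w ∈ E := by
    rcases Nat.even_or_odd n with he | ho
    · refine ⟨∅, by rw [Finset.card_empty, Nat.even_iff.1 he], by simp, fun w hn hw hw' => ?_⟩
      exfalso
      have h1 := PR_sign n ρ w 0 (Nat.zero_le _) (by simp) (fun i hi _ => by
        rcases Nat.eq_zero_or_pos i with h | h
        · rw [h]; exact hw
        · exact hw.trans (hρ 0 i h hi))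
      rw [Nat.sub_zero, he.neg_one_pow, one_mul] at h1
      have : A w = (PR n ρ).eval w := rfl
      rw [← this] at h1
      linarith
    · have hn : 1 ≤ n := ho.pos
      -- a point far to the left
      obtain ⟨x, hx1, hx2⟩ : ∃ x, x < ρ 0 ∧ A x < -v := by
        refine ⟨ρ 0 - (1 + v), by linarith, ?_⟩
        show (PR n ρ).eval _ < -v
        rw [PR_eval]
        have e2 : ∏ k ∈ range n, (ρ 0 - (1 + v) - ρ k) =
            (-1) ^ n * ∏ k ∈ range n, (ρ k - ρ 0 + (1 + v)) := by
          have : ∏ k ∈ range n, (ρ 0 - (1 + v) - ρ k) =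
              ∏ k ∈ range n, ((-1) * (ρ k - ρ 0 + (1 + v))) :=
            Finset.prod_congr rfl fun i _ => by ring
          rw [this, Finset.prod_mul_distrib, Finset.prod_const, Finset.card_range]
        rw [e2, ho.neg_one_pow]
        have e3 : (1 + v) ^ n ≤ ∏ k ∈ range n, (ρ k - ρ 0 + (1 + v)) := by
          calc (1 + v) ^ n = ∏ _k ∈ range n, (1 + v) := by
                rw [Finset.prod_const, Finset.card_range]
            _ ≤ _ := Finset.prod_le_prod (fun i _ => by linarith) fun i hi => by
                rw [Finset.mem_range] at hi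
                rcases Nat.eq_zero_or_pos i with h | h
                · rw [h]; linarith
                · have := hρ 0 i h hi
                  linarith
        have e4 : 1 + v ≤ (1 + v) ^ n := le_self_pow₀ (by linarith) (by omega)
        linarith
      obtain ⟨w, g1, g2⟩ := intermediate_value_Ioo hx1.le hAc.continuousOn
        (show -v ∈ Set.Ioo (A x) (A (ρ 0)) from ⟨hx2, by rw [hroot 0 (by omega)]; linarith⟩)
      refine ⟨{w}, by rw [Finset.card_singleton, Nat.odd_iff.1 ho], ?_, fun u _ hu hu' => ?_⟩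
      · intro u hu
        rw [Finset.mem_singleton] at hu
        rw [hu]
        exact ⟨fun _ => g1.2, g2⟩
      · rw [Finset.mem_singleton]
        rcases lt_trichotomy u w with h | h | h
        · exact (le_one hρ hn h g1.2 hu' g2).elim
        · exact h
        · exact (le_one hρ hn h hu g2 hu').elim
  obtain ⟨E, hE1, hE2, hE3⟩ := hleft
  set T : Finset ℝ := E ∪ De.biUnion (fun i => {(y i).1, (y i).2}) with hT
  have hDen : ∀ i ∈ De, i + 1 < n := by
    intro i hi
    rw [hDeD, Finset.mem_sdiff, hNeg, Finset.mem_filter, Finset.mem_range] at hi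
    omega
  have hset : {x : ℝ | A x = -v} = (T : Set ℝ) := by
    ext w
    rw [Finset.mem_coe, hT, Finset.mem_union, Finset.mem_biUnion]
    simp only [Set.mem_ofPred_eq, Finset.mem_insert, Finset.mem_singleton]
    constructor
    · intro hw
      have hne : ∀ i < n, w ≠ ρ i := by
        intro i hi h
        rw [h, hroot i hi] at hw
        linarith
      obtain ⟨j, hj, j1, j2⟩ := position hρ w hne
      have hs := PR_sign n ρ w j hj j1 j2
      have hAw : (PR n ρ).eval w = -v := hw
      rw [hAw] at hs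
      have hodd : Odd (n - j) := by
        by_contra hcon
        rw [Nat.not_odd_iff_even] at hcon
        rw [hcon.neg_one_pow] at hs
        linarith
      rcases Nat.eq_zero_or_pos j with h0 | h0
      · left
        have hn : 1 ≤ n := by
          rw [h0] at hodd
          exact hodd.pos
        exact hE3 w hn (j2 0 (by omega) (by omega)) hw
      · right
        have hjn : j < n := by
          by_contra hcon
          have : n - j = 0 := by omega
          rw [this] at hodd
          exact absurd hodd (by decide)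
        obtain ⟨i, hi⟩ : ∃ i, j = i + 1 := ⟨j - 1, by omega⟩
        subst hi
        have w1 := j1 i (by omega)
        have w2 := j2 (i + 1) hjn le_rfl
        have hodd' : Odd (n - 1 - i) := by
          have : n - 1 - i = n - (i + 1) := by omega
          rw [this]; exact hodd
        have hns : i ∉ Sh := by
          intro hiS
          have := (hSh i hiS).2.2 w w1 w2
          rw [hAw] at this
          exact lt_irrefl _ this
        have hiD : i ∈ De := by
          rw [hDeD, Finset.mem_sdiff, hNeg, Finset.mem_filter, Finset.mem_range]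
          exact ⟨⟨by omega, hodd'⟩, hns⟩
        exact ⟨i, hiD, (hy i hiD).2.2.2.2.2 w w1 w2 hw⟩
    · rintro (h | ⟨i, hi, h | h⟩)
      · exact (hE2 w h).2
      · rw [h]; exact (hy i hi).2.2.2.1
      · rw [h]; exact (hy i hi).2.2.2.2.1
  have hTc : T.card = n % 2 + 2 * De.card := by
    rw [hT, Finset.card_union_of_disjoint, hE1, Finset.card_biUnion]
    · congr 1
      rw [Finset.sum_congr rfl (g := fun _ => 2)]
      · rw [Finset.sum_const, smul_eq_mul, mul_comm]
      · intro i hi
        rw [Finset.card_pair]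
        exact (hy i hi).2.1.ne
    · intro i hi j hj hij
      show Disjoint _ _
      rw [Finset.disjoint_left]
      intro w hwi hwj
      have a1 : ρ i < w ∧ w < ρ (i + 1) := by
        rw [Finset.mem_insert, Finset.mem_singleton] at hwi
        have := hy i hi
        rcases hwi with rfl | rfl
        · exact ⟨this.1, this.2.1.trans this.2.2.1⟩
        · exact ⟨this.1.trans this.2.1, this.2.2.1⟩
      have a2 : ρ j < w ∧ w < ρ (j + 1) := by
        rw [Finset.mem_insert, Finset.mem_singleton] at hwj
        have := hy j hj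
        rcases hwj with rfl | rfl
        · exact ⟨this.1, this.2.1.trans this.2.2.1⟩
        · exact ⟨this.1.trans this.2.1, this.2.2.1⟩
      have b1 := hDen i hi
      have b2 := hDen j hj
      rcases lt_or_gt_of_ne hij with h | h
      · rcases Nat.lt_or_ge (i + 1) j with h' | h'
        · have := hρ (i + 1) j h' (by omega)
          linarith
        · have : i + 1 = j := by omega
          rw [this] at a1
          linarith
      · rcases Nat.lt_or_ge (j + 1) i with h' | h'
        · have := hρ (j + 1) i h' (by omega)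
          linarith
        · have : j + 1 = i := by omega
          rw [this] at a2
          linarith
    · rw [Finset.disjoint_left]
      intro w hwE hwU
      rw [Finset.mem_biUnion] at hwU
      obtain ⟨i, hi, hw⟩ := hwU
      have hin := hDen i hi
      have a1 : ρ i < w := by
        rw [Finset.mem_insert, Finset.mem_singleton] at hw
        have := hy i hi
        rcases hw with rfl | rfl
        · exact this.1
        · exact this.1.trans this.2.1
      have a2 := (hE2 w hwE).1 (by omega)
      rcases Nat.eq_zero_or_pos i with h | h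
      · rw [h] at a1
        linarith
      · have := hρ 0 i h (by omega)
        linarith
  rw [hset, Set.ncard_coe_finset, hTc, hDec]
  have h1 : Sh.card ≤ n / 2 := by
    rw [← hNegc]; exact Finset.card_le_card hShN
  omega

end Pool.Agent.Q199.SG
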