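import Pool.Agent.W289.CG.Fin

/-!
# Fields with a prescribed signature
-/

set_option autoImplicit false

namespace Pool.Agent.Q199.SG

open Polynomial NumberField Pool.Agent.W289.CG Pool.Agent

theorem field_of {n k : ℕ} (hn : 2 ≤ n) (hk : 1 ≤ k) (D : Dat n k) (r : ℕ) (hr : 2 * r ≤ n)
    (v₁ v₂ : ℝ) (h1 : 0 < v₁) (h2 : v₁ < v₂)
    (hv : ∀ w, v₁ ≤ w → w ≤ v₂ → {x : ℝ | ∏ i, (x - (D.a i : ℝ)) = -w}.ncard = n - 2 * r)
    (m N : ℕ) (hm : 2 ≤ m) :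
    ∃ (K : Type) (_ : Field K) (_ : NumberField K), Module.finrank ℚ K = n ∧
      InfinitePlace.nrComplexPlaces K = r ∧ (N : ℤ) < |discr K| ∧
      ∃ f : Multiplicative (Fin (r + k) → ZMod m) →* ClassGroup (𝓞 K),
        Function.Injective f := by
  have hm0 : m ≠ 0 := by omega
  have hc : (0 : ℝ) < D.c := by exact_mod_cast D.hc
  have hv2 : 0 < v₂ := h1.trans h2
  have hroot : ∀ q : ℝ, 1 < q → ∃ x : ℝ, 1 ≤ x ∧ x ^ m = q := by
    intro q hq
    refine ⟨q ^ ((m : ℝ)⁻¹), Real.one_le_rpow hq.le (by positivity), ?_⟩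
    exact Real.rpow_inv_natCast_pow (by linarith) hm0
  obtain ⟨x, hx1, hx⟩ := hroot (1 + D.c / v₂) (by
    have : 0 < (D.c : ℝ) / v₂ := by positivity
    linarith)
  obtain ⟨y, hy1, hy⟩ := hroot (1 + D.c / v₁) (by
    have : 0 < (D.c : ℝ) / v₁ := by positivity
    linarith)
  have hxy : x < y := by
    refine lt_of_pow_lt_pow_left₀ m (by linarith) ?_
    rw [hx, hy]
    have : (D.c : ℝ) / v₂ < D.c / v₁ := div_lt_div_of_pos_left hc h1 h2
    linarith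
  obtain ⟨s, t, K, hK1, hK2, hs, hxs, hys, hfr, hdisc, hreal, hcl⟩ :=
    core (W930.CG.cls W240.CG.grp W125.CG.uni) W64.CG.val W405.CG.loc W290.CG.emb W349.CG.mu
      W349.CG.red W349.CG.WeilT.main W505.CG.root W505.CG.st W505.CG.irr W505.CG.disc W240.CG.pl
      hn hk D m N hm x y hx1 hxy
  have hsR : (0 : ℝ) < s := by exact_mod_cast hs
  have hsm : 0 < (s : ℝ) ^ m := by positivity
  have htR : 0 < (t : ℝ) := by nlinarith
  have g1 : (1 + D.c / v₂) * (s : ℝ) ^ m < (t : ℝ) ^ m := by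
    rw [← hx, ← mul_pow]
    exact pow_lt_pow_left₀ hxs (by positivity) hm0
  have g2 : (t : ℝ) ^ m < (1 + D.c / v₁) * (s : ℝ) ^ m := by
    rw [← hy, ← mul_pow]
    exact pow_lt_pow_left₀ hys htR.le hm0
  have g3 : D.c / v₂ * (s : ℝ) ^ m < (t : ℝ) ^ m - (s : ℝ) ^ m := by linarith
  have g4 : (t : ℝ) ^ m - (s : ℝ) ^ m < D.c / v₁ * (s : ℝ) ^ m := by linarith
  have g5 : 0 < (t : ℝ) ^ m - (s : ℝ) ^ m := lt_trans (by positivity) g3
  have g6 : v₁ ≤ (s : ℝ) ^ m * D.c / ((t : ℝ) ^ m - (s : ℝ) ^ m) := by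
    rw [le_div_iff₀ g5]
    have := mul_lt_mul_of_pos_left g4 h1
    have e : v₁ * (D.c / v₁ * (s : ℝ) ^ m) = (s : ℝ) ^ m * D.c := by field_simp
    linarith
  have g7 : (s : ℝ) ^ m * D.c / ((t : ℝ) ^ m - (s : ℝ) ^ m) ≤ v₂ := by
    rw [div_le_iff₀ g5]
    have := mul_lt_mul_of_pos_left g3 hv2
    have e : v₂ * (D.c / v₂ * (s : ℝ) ^ m) = (s : ℝ) ^ m * D.c := by field_simp
    linarith
  have hreal' : InfinitePlace.nrRealPlaces K = n - 2 * r := by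
    rw [hreal]
    exact hv _ g6 g7
  have h8 := InfinitePlace.card_add_two_mul_card_eq_rank K
  have h7 := rank_eq K
  refine ⟨K, hK1, hK2, hfr, by omega, hdisc, ?_⟩
  apply hcl
  omega

end Pool.Agent.Q199.SG
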