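import Pool.Agent.Q199.SG.Count

/-!
# Separators
-/

set_option autoImplicit false

namespace Pool.Agent.Q199.SG

open Polynomial Finset

/-- sign of `A` for a point between `ρ (j - 1)` and `ρ j` -/
lemma sign_at {n : ℕ} {ρ : ℕ → ℝ} (hρ : ∀ i j, i < j → j < n → ρ i < ρ j) {x : ℝ} {j : ℕ}
    (hj : j ≤ n) (h1 : j = 0 ∨ ρ (j - 1) < x) (h2 : j = n ∨ x < ρ j) :
    0 < (-1) ^ (n - j) * (PR n ρ).eval x := by
  refine PR_sign n ρ x j hj (fun i hi => ?_) (fun i hi hij => ?_)
  · rcases h1 with h1 | h1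
    · omega
    · rcases Nat.lt_or_ge i (j - 1) with h | h
      · exact (hρ i (j - 1) h (by omega)).trans h1
      · have : i = j - 1 := by omega
        rw [this]; exact h1
  · rcases h2 with h2 | h2
    · omega
    · rcases lt_or_eq_of_le hij with h | h
      · exact h2.trans (hρ j i h hi)
      · rw [← h]; exact h2

/-- the separators: the critical points and two outer points -/
lemma seps {n : ℕ} {ρ : ℕ → ℝ} (hn : 1 ≤ n) (hρ : ∀ i j, i < j → j < n → ρ i < ρ j) :
    ∃ z : ℕ → ℝ, (∀ i < n, z i < ρ i ∧ ρ i < z (i + 1)) ∧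
      ∀ i, i + 1 < n → Odd (n - 1 - i) → (PR n ρ).eval (z (i + 1)) < 0 ∧
        ∀ x, z i ≤ x → x ≤ z (i + 2) → x ≠ z (i + 1) →
          (PR n ρ).eval (z (i + 1)) < (PR n ρ).eval x := by
  obtain ⟨c, hc, hz⟩ := crit hρ
  set z : ℕ → ℝ := fun j => if j = 0 then ρ 0 - 1 else if j = n then ρ (n - 1) + 1 else c (j - 1)
    with hzd
  have z0 : z 0 = ρ 0 - 1 := by simp [hzd]
  have zn : z n = ρ (n - 1) + 1 := by
    rw [hzd]
    simp only [if_pos]
    rw [if_neg (by omega)]
  have zi : ∀ i, i + 1 < n → z (i + 1) = c i := by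
    intro i hi
    rw [hzd]
    simp only [Nat.add_sub_cancel]
    rw [if_neg (by omega), if_neg (by omega)]
  have hzr : ∀ i < n, z i < ρ i ∧ ρ i < z (i + 1) := by
    intro i hi
    refine ⟨?_, ?_⟩
    · rcases Nat.eq_zero_or_pos i with h | h
      · rw [h, z0]; linarith
      · obtain ⟨k, rfl⟩ : ∃ k, i = k + 1 := ⟨i - 1, by omega⟩
        rw [zi k hi]
        exact (hc k hi).2
    · rcases Nat.lt_or_ge (i + 1) n with h | h
      · rw [zi i h]
        exact (hc i h).1
      · have e : i + 1 = n := by omega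
        rw [e, zn]
        have : i = n - 1 := by omega
        rw [this]; linarith
  refine ⟨z, hzr, fun i hi hodd => ?_⟩
  have hci := hc i hi
  have hzc : z (i + 1) = c i := zi i hi
  have hodd' : Odd (n - (i + 1)) := by
    have : n - (i + 1) = n - 1 - i := by omega
    rw [this]; exact hodd
  have hneg : ∀ x, ρ i < x → x < ρ (i + 1) → (PR n ρ).eval x < 0 := by
    intro x h1 h2
    have := sign_at hρ (x := x) (j := i + 1) (by omega) (Or.inr h1) (Or.inr h2)
    rw [hodd'.neg_one_pow] at this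
    linarith
  have hcneg := hneg (c i) hci.1 hci.2
  -- the minimum over the gap
  obtain ⟨x0, hx0, hmin⟩ := isCompact_Icc.exists_isMinOn
    (Set.nonempty_Icc.2 (hρ i (i + 1) (by omega) hi).le)
    (PR_cont n ρ).continuousOn (s := Set.Icc (ρ i) (ρ (i + 1)))
  have hmin' : ∀ x ∈ Set.Icc (ρ i) (ρ (i + 1)), (PR n ρ).eval x0 ≤ (PR n ρ).eval x :=
    fun x hx => hmin hx
  have hany : ∀ x ∈ Set.Icc (ρ i) (ρ (i + 1)), (PR n ρ).eval x = (PR n ρ).eval x0 → x = c i := by
    intro x hx hxe
    have hx0neg : (PR n ρ).eval x < 0 := by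
      rw [hxe]
      exact (hmin' (c i) ⟨hci.1.le, hci.2.le⟩).trans_lt hcneg
    have a1 : ρ i < x := by
      rcases lt_or_eq_of_le hx.1 with h | h
      · exact h
      · rw [← h, root_zero (by omega)] at hx0neg
        exact absurd hx0neg (lt_irrefl _)
    have a2 : x < ρ (i + 1) := by
      rcases lt_or_eq_of_le hx.2 with h | h
      · exact h
      · rw [h, root_zero hi] at hx0neg
        exact absurd hx0neg (lt_irrefl _)
    have hloc : IsLocalMin (fun x => (PR n ρ).eval x) x := by
      filter_upwards [Icc_mem_nhds a1 a2] with w hw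
      show (PR n ρ).eval x ≤ (PR n ρ).eval w
      rw [hxe]
      exact hmin' w hw
    have hd := hloc.hasDerivAt_eq_zero ((PR n ρ).hasDerivAt x)
    obtain ⟨j, hj, hj'⟩ := hz x hn hd
    have hcj := hc j hj
    rw [← hj'] at hcj
    rcases lt_trichotomy j i with h | h | h
    · exfalso
      rcases Nat.lt_or_ge (j + 1) i with h' | h'
      · have := hρ (j + 1) i h' (by omega)
        linarith [hcj.2]
      · have : j + 1 = i := by omega
        rw [this] at hcj
        linarith [hcj.2]
    · rw [hj', h]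
    · exfalso
      rcases Nat.lt_or_ge (i + 1) j with h' | h'
      · have := hρ (i + 1) j h' (by omega)
        linarith [hcj.1]
      · have : i + 1 = j := by omega
        rw [this] at a2
        linarith [hcj.1]
  have hx0c : x0 = c i := hany x0 hx0 rfl
  rw [hx0c] at hmin' hany
  rw [hzc]
  refine ⟨hcneg, fun x hx1 hx2 hxne => ?_⟩
  by_cases hin : ρ i < x ∧ x < ρ (i + 1)
  · have hxI : x ∈ Set.Icc (ρ i) (ρ (i + 1)) := ⟨hin.1.le, hin.2.le⟩
    exact lt_of_le_of_ne (hmin' x hxI) fun h => hxne (hany x hxI h.symm)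
  · refine hcneg.trans_le ?_
    rcases lt_trichotomy x (ρ i) with h | h | h
    · -- left of the gap
      have hprev : i = 0 ∨ ρ (i - 1) < x := by
        rcases Nat.eq_zero_or_pos i with h0 | h0
        · exact Or.inl h0
        · right
          obtain ⟨k, rfl⟩ : ∃ k, i = k + 1 := ⟨i - 1, by omega⟩
          rw [Nat.add_sub_cancel]
          rw [zi k (by omega)] at hx1
          exact (hc k (by omega)).1.trans_le hx1
      have h3 := sign_at hρ (x := x) (j := i) (by omega) hprev (Or.inr h)
      have he : Even (n - i) := by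
        obtain ⟨k, hk⟩ := hodd'
        exact ⟨k + 1, by omega⟩
      rw [he.neg_one_pow, one_mul] at h3
      exact h3.le
    · rw [h, root_zero (by omega)]
    · rcases lt_trichotomy x (ρ (i + 1)) with h' | h' | h'
      · exact absurd ⟨h, h'⟩ hin
      · rw [h', root_zero hi]
      · have hnext : i + 2 = n ∨ x < ρ (i + 2) := by
          rcases Nat.lt_or_ge (i + 2) n with h0 | h0
          · right
            exact hx2.trans_lt (hzr (i + 2) h0).1
          · left; omega
        have h3 := sign_at hρ (x := x) (j := i + 2) (by omega)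
          (Or.inr (by simpa using h')) hnext
        have he : Even (n - (i + 2)) := by
          obtain ⟨k, hk⟩ := hodd'
          exact ⟨k, by omega⟩
        rw [he.neg_one_pow, one_mul] at h3
        exact h3.le

/-- The count in terms of separators, for a product over a finite set of at most `n` numbers. -/
theorem count_sep (n : ℕ) (R : Finset ℝ) (hR : R.card ≤ n) (z : ℕ → ℝ)
    (hz : ∀ i < n, z i < z (i + 1))
    (hs : ∀ j ≤ n, 0 < (-1) ^ (n - j) * ∏ s ∈ R, (z j - s)) (Sh : Finset ℕ)
    (v : ℝ) (hv : 0 < v)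
    (hSh : ∀ i ∈ Sh, i + 1 < n ∧ Odd (n - 1 - i) ∧
      ∀ x, z i ≤ x → x ≤ z (i + 2) → -v < ∏ s ∈ R, (x - s))
    (hDe : ∀ i, i + 1 < n → Odd (n - 1 - i) → i ∉ Sh → ∏ s ∈ R, (z (i + 1) - s) < -v) :
    R.card = n ∧ {x : ℝ | ∏ s ∈ R, (x - s) = -v}.ncard = n - 2 * Sh.card := by
  classical
  set f : ℝ → ℝ := fun x => ∏ s ∈ R, (x - s) with hf
  have hfc : Continuous f := by
    rw [hf]; fun_prop
  -- the roots
  have hroot : ∀ i, ∃ r, i < n → z i < r ∧ r < z (i + 1) ∧ f r = 0 := by
    intro i
    by_cases hi : i < n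
    · have h1 := hs i hi.le
      have h2 := hs (i + 1) hi
      have e : n - i = n - (i + 1) + 1 := by omega
      rw [e, pow_succ] at h1
      rcases Nat.even_or_odd (n - (i + 1)) with he | ho
      · rw [he.neg_one_pow] at h1 h2
        obtain ⟨r, hr, hr'⟩ := intermediate_value_Ioo (hz i hi).le hfc.continuousOn
          (show (0:ℝ) ∈ Set.Ioo (f (z i)) (f (z (i + 1))) from
            ⟨by show ∏ s ∈ R, (z i - s) < 0; linarith,
             by show 0 < ∏ s ∈ R, (z (i + 1) - s); linarith⟩)
        exact ⟨r, fun _ => ⟨hr.1, hr.2, hr'⟩⟩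
      · rw [ho.neg_one_pow] at h1 h2
        obtain ⟨r, hr, hr'⟩ := intermediate_value_Ioo' (hz i hi).le hfc.continuousOn
          (show (0:ℝ) ∈ Set.Ioo (f (z (i + 1))) (f (z i)) from
            ⟨by show ∏ s ∈ R, (z (i + 1) - s) < 0; linarith,
             by show 0 < ∏ s ∈ R, (z i - s); linarith⟩)
        exact ⟨r, fun _ => ⟨hr.1, hr.2, hr'⟩⟩
    · exact ⟨0, fun h => absurd h hi⟩
  choose ρ hρ using hroot
  have hzm : ∀ i j, i ≤ j → j ≤ n → z i ≤ z j := by
    intro i j hij hj
    induction j, hij using Nat.le_induction with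
    | base => exact le_rfl
    | succ k _ ih => exact (ih (by omega)).trans (hz k (by omega)).le
  have hmono : ∀ i j, i < j → j < n → ρ i < ρ j := by
    intro i j hij hj
    have h1 := (hρ i (by omega)).2.1
    have h2 := (hρ j hj).1
    have h3 := hzm (i + 1) j hij hj.le
    linarith
  have himg : (range n).image ρ ⊆ R := by
    intro x hx
    rw [Finset.mem_image] at hx
    obtain ⟨i, hi, rfl⟩ := hx
    rw [Finset.mem_range] at hi
    have h1 := (hρ i hi).2.2
    have h2 : ∏ s ∈ R, (ρ i - s) = 0 := h1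
    rw [Finset.prod_eq_zero_iff] at h2
    obtain ⟨s, hs1, hs2⟩ := h2
    have : ρ i = s := by linarith
    rw [this]; exact hs1
  have hinj : Set.InjOn ρ (range n : Set ℕ) := by
    intro i hi j hj hij
    rw [Finset.coe_range, Set.mem_Iio] at hi hj
    rcases lt_trichotomy i j with h | h | h
    · have := hmono i j h hj
      linarith
    · exact h
    · have := hmono j i h hi
      linarith
  have hic : ((range n).image ρ).card = n := by
    rw [Finset.card_image_of_injOn hinj, Finset.card_range]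
  have hReq : (range n).image ρ = R := Finset.eq_of_subset_of_card_le himg (by rw [hic]; exact hR)
  have hfe : ∀ x, f x = (PR n ρ).eval x := by
    intro x
    rw [PR_eval, hf, ← hReq]
    show ∏ s ∈ (range n).image ρ, (x - s) = _
    rw [Finset.prod_image hinj]
  refine ⟨by rw [← hReq, hic], ?_⟩
  have hset : {x : ℝ | ∏ s ∈ R, (x - s) = -v} = {x : ℝ | (PR n ρ).eval x = -v} := by
    ext x
    rw [Set.mem_ofPred_eq, Set.mem_ofPred_eq, ← hfe x]
  rw [hset]
  refine count n ρ hmono v hv Sh (fun i hi => ?_) (fun i hi hodd hiS => ?_)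
  · obtain ⟨h1, h2, h3⟩ := hSh i hi
    refine ⟨h1, h2, fun x hx1 hx2 => ?_⟩
    rw [← hfe]
    have g1 := (hρ i (by omega)).1
    have g2 := (hρ (i + 1) h1).2.1
    exact h3 x (by linarith) (by linarith)
  · refine ⟨z (i + 1), (hρ i (by omega)).2.1, (hρ (i + 1) hi).1, ?_⟩
    rw [← hfe]
    exact hDe i hi hodd hiS

end Pool.Agent.Q199.SG
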