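import Pool.Agent.Q199.SG.Bad

/-!
# Six points: the choice of the blocks
-/

set_option autoImplicit false

namespace Pool.Agent.Q199.SG

open Polynomial Finset Filter Topology Pool.Agent.W460.CG Pool.Agent.TH665.CG6

lemma not_sq7 (q : ℚ) : q ^ 2 ≠ 7 := by
  intro h
  have h1 : IsSquare (7 : ℚ) := ⟨q, by rw [← h]; ring⟩
  rw [Rat.isSquare_iff] at h1
  have h2 : IsSquare (7 : ℤ) := by simpa using h1.1
  obtain ⟨r, hr⟩ := h2
  have h3 : r < 3 := by nlinarith
  have h4 : -3 < r := by nlinarith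
  interval_cases r <;> omega

lemma not_sq73 (q : ℚ) : q ^ 2 ≠ 7 / 3 := by
  intro h
  have h1 : IsSquare (21 : ℚ) := ⟨3 * q, by linear_combination -9 * h⟩
  rw [Rat.isSquare_iff] at h1
  have h2 : IsSquare (21 : ℤ) := by simpa using h1.1
  obtain ⟨r, hr⟩ := h2
  have h3 : r < 5 := by nlinarith
  have h4 : -5 < r := by nlinarith
  interval_cases r <;> omega

lemma sum_inv_ne {S : Finset ℚ} {t : ℚ} (ht : ∀ q : ℚ, q ^ 2 ≠ t)
    (h : ∑ s ∈ S, (t - s ^ 2)⁻¹ ≠ 0) {x : ℝ} (hx : x ^ 2 = t) :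
    ∑ s ∈ S, (x - (s : ℝ))⁻¹ ≠ 0 := by
  intro h0
  have h1 : ∀ s ∈ S, (x - (s : ℝ))⁻¹ = x * (((t - s ^ 2)⁻¹ : ℚ) : ℝ) +
      ((s * (t - s ^ 2)⁻¹ : ℚ) : ℝ) := by
    intro s _
    have h2 : t - s ^ 2 ≠ 0 := fun h3 => ht s (by linarith)
    have h3 : ((t - s ^ 2 : ℚ) : ℝ) ≠ 0 := by exact_mod_cast h2
    push_cast at h3 ⊢
    have h4 : x - (s : ℝ) ≠ 0 := by
      intro h5
      apply h3
      rw [← hx]
      have : x = s := by linarith
      rw [this]; ring
    have h6 : (t : ℝ) - (s : ℝ) ^ 2 = (x - s) * (x + s) := by rw [← hx]; ring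
    have h7 : x + (s : ℝ) ≠ 0 := by
      intro h8
      apply h3
      rw [h6, h8, mul_zero]
    rw [h6]
    field_simp
  rw [Finset.sum_congr rfl h1, Finset.sum_add_distrib, ← Finset.mul_sum, ← Rat.cast_sum,
    ← Rat.cast_sum] at h0
  set α := ∑ s ∈ S, (t - s ^ 2)⁻¹ with hα
  set β := ∑ s ∈ S, s * (t - s ^ 2)⁻¹ with hβ
  have hαR : (α : ℝ) ≠ 0 := by exact_mod_cast h
  apply ht (-β / α)
  have h2 : x = ((-β / α : ℚ) : ℝ) := by
    push_cast
    rw [eq_div_iff hαR]
    linarith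
  have h3 : (((-β / α) ^ 2 : ℚ) : ℝ) = t := by
    rw [← hx, h2]
    push_cast
    ring
  exact_mod_cast h3

/-- the real polynomial with roots `S` -/
noncomputable def PSR (S : Finset ℚ) : ℝ[X] := ∏ s ∈ S, (X - C (s : ℝ))

lemma PSR_eval (S : Finset ℚ) (x : ℝ) : (PSR S).eval x = ∏ s ∈ S, (x - (s : ℝ)) := by
  unfold PSR
  rw [eval_prod]
  simp

lemma PSR_map (S : Finset ℚ) : (PS S).map (algebraMap ℚ ℝ) = PSR S := by
  unfold PS PSR
  rw [Polynomial.map_prod]
  refine Finset.prod_congr rfl fun s _ => ?_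
  simp

lemma PSR_der {S : Finset ℚ} {x : ℝ} (h : (PSR S).eval x ≠ 0) :
    (derivative (PSR S)).eval x = (PSR S).eval x * ∑ s ∈ S, (x - (s : ℝ))⁻¹ := by
  classical
  have h1 : ∀ s ∈ S, x - (s : ℝ) ≠ 0 := by
    intro s hs h2
    apply h
    rw [PSR_eval]
    exact Finset.prod_eq_zero hs h2
  unfold PSR
  rw [derivative_prod_finset, eval_finsetSum, Finset.mul_sum, eval_prod]
  refine Finset.sum_congr rfl fun s hs => ?_
  rw [derivative_X_sub_C, mul_one, eval_prod, ← Finset.mul_prod_erase S _ hs]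
  simp only [eval_sub, eval_X, eval_C]
  have := h1 s hs
  field_simp

/-- at the special points the base has a nonzero derivative -/
lemma special {S : Finset ℚ} (h : ND S) {x : ℝ} (hP : (PSR S).eval x ≠ 0)
    (hx : (x ^ 3 - 7 * x) * (3 * x ^ 2 - 7) = 0) : (derivative (PSR S)).eval x ≠ 0 := by
  rw [PSR_der hP]
  refine mul_ne_zero hP ?_
  have h1 : x * ((x ^ 2 - 7) * (3 * x ^ 2 - 7)) = 0 := by linear_combination hx
  rcases mul_eq_zero.1 h1 with h2 | h2
  · rw [h2]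
    have h3 := h.z0
    intro h4
    apply h3
    have : ((∑ s ∈ S, (0 - s)⁻¹ : ℚ) : ℝ) = 0 := by
      push_cast
      exact h4
    exact_mod_cast this
  · rcases mul_eq_zero.1 h2 with h3 | h3
    · exact sum_inv_ne not_sq7 h.z1 (by push_cast; linarith)
    · exact sum_inv_ne not_sq73 h.z2 (by push_cast; linarith)

/-- adding blocks -/
lemma grow2 (S : Finset ℚ) (v : ℚ) (hv : 0 < v) (h : Eq6 S v) (hs : ∃ s ∈ S, 3 < s) (m : ℕ) :
    ∃ (T : Finset ℚ) (w : ℚ) (G : ℚ[X]), T.card = S.card + 6 * m ∧ 0 < w ∧ Eq6 T w ∧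
      (∃ s ∈ T, 3 < s) ∧ PS T = PS S * G.comp ((X ^ 3 - C 7 * X) ^ 2) := by
  classical
  induction m with
  | zero => exact ⟨S, v, 1, by simp, hv, h, hs, by simp⟩
  | succ m ih =>
    obtain ⟨T, w, G, h1, h2, h3, ⟨s, hs1, hs2⟩, h4⟩ := ih
    obtain ⟨B, k, k1, k2, k3, k4, -, k6⟩ := block6 T ∅
    refine ⟨T ∪ B, w * (36 - k ^ 2), G * (X - C (k ^ 2)), ?_, ?_, h3.union k2 (eq6_block k6),
      ⟨s, Finset.mem_union_left _ hs1, hs2⟩, ?_⟩
    · rw [Finset.card_union_of_disjoint k2, h1, k1]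
      ring
    · have : 0 < 36 - k ^ 2 := by nlinarith
      positivity
    · rw [PS_union k2, h4, k6, mul_comp, sub_comp, X_comp, C_comp, mul_assoc]

/-- blocks with prescribed approximate parameter -/
lemma dens6 {x y : ℝ} (hx : 0 ≤ x) (hxy : x < y) (hy : y ≤ 36) :
    ∃ (B : Finset ℚ) (k : ℚ), B.card = 6 ∧ x < (k : ℝ) ^ 2 ∧ (k : ℝ) ^ 2 < y ∧
      PS B = (X ^ 3 - C 7 * X) ^ 2 - C (k ^ 2) := by
  classical
  set D : ℝ → ℝ := fun u => 1 + u + u ^ 2 with hD
  set kk : ℝ → ℝ := fun u => (2 + 6 * u + u ^ 2) / D u * ((1 - 4 * u - 3 * u ^ 2) / D u) *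
    ((3 + 2 * u - 2 * u ^ 2) / D u) with hkk
  set g : ℝ → ℝ := fun u => 36 - kk u ^ 2 with hg
  have hDne : ∀ u : ℝ, D u ≠ 0 := fun u => by
    rw [hD]
    show 1 + u + u ^ 2 ≠ 0
    nlinarith [sq_nonneg (u + 1 / 2)]
  have hkc : Continuous kk := by
    rw [hkk]
    refine Continuous.mul (Continuous.mul ?_ ?_) ?_ <;>
    exact Continuous.div (by fun_prop) (by fun_prop) hDne
  have hgc : Continuous g := by rw [hg]; fun_prop
  have hs7 : Real.sqrt 7 ^ 2 = 7 := Real.sq_sqrt (by norm_num)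
  have hs1 : 2 < Real.sqrt 7 := by
    rw [Real.lt_sqrt (by norm_num)]; norm_num
  have hs2 : Real.sqrt 7 < 27 / 10 := by
    rw [Real.sqrt_lt' (by norm_num)]; norm_num
  set w₀ : ℝ := (Real.sqrt 7 - 2) / 3 with hw₀
  have hw0 : 0 < w₀ := by rw [hw₀]; linarith
  have hgw : g w₀ = 36 := by
    have e : 1 - 4 * w₀ - 3 * w₀ ^ 2 = 0 := by rw [hw₀]; nlinarith
    show 36 - ((2 + 6 * w₀ + w₀ ^ 2) / D w₀ * ((1 - 4 * w₀ - 3 * w₀ ^ 2) / D w₀) *
      ((3 + 2 * w₀ - 2 * w₀ ^ 2) / D w₀)) ^ 2 = 36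
    rw [e]
    simp
  have hg0 : g 0 = 0 := by
    show 36 - ((2 + 6 * 0 + 0 ^ 2) / (1 + 0 + 0 ^ 2) * ((1 - 4 * 0 - 3 * 0 ^ 2) / (1 + 0 + 0 ^ 2)) *
      ((3 + 2 * 0 - 2 * 0 ^ 2) / (1 + 0 + 0 ^ 2))) ^ 2 = (0 : ℝ)
    norm_num
  obtain ⟨u, hu1, hu2, hu3, hu4⟩ := dens (w₀ := w₀) hw0 hgc.continuousOn hg0
    (x := 36 - y) (y := 36 - x) (by linarith) (by linarith) (by rw [hgw]; linarith)
  have hu5 : (u : ℝ) < 7 / 30 := by rw [hw₀] at hu2; linarith
  have hu6 : 0 < 1 - 4 * (u : ℝ) - 3 * (u : ℝ) ^ 2 := by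
    have : 3 * (u : ℝ) + 2 < Real.sqrt 7 := by rw [hw₀] at hu2; linarith
    nlinarith
  have hq1 : (0 : ℚ) < u := by exact_mod_cast hu1
  have hq2 : u < 7 / 30 := by
    have : (u : ℝ) < ((7 / 30 : ℚ) : ℝ) := by push_cast; exact hu5
    exact_mod_cast this
  have hq3 : 0 < 1 - 4 * u - 3 * u ^ 2 := by
    have : (0 : ℝ) < ((1 - 4 * u - 3 * u ^ 2 : ℚ) : ℝ) := by push_cast; exact hu6
    exact_mod_cast this
  have hDq : 0 < 1 + u + u ^ 2 := by positivity
  set p : ℚ := (2 + 6 * u + u ^ 2) / (1 + u + u ^ 2) with hp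
  set q : ℚ := (1 - 4 * u - 3 * u ^ 2) / (1 + u + u ^ 2) with hq
  have hq0 : 0 < q := by positivity
  have hqp : q < p := by
    rw [hp, hq]
    apply div_lt_div_of_pos_right _ hDq
    nlinarith
  have hpq : p + q = (3 + 2 * u - 2 * u ^ 2) / (1 + u + u ^ 2) := by
    rw [hp, hq, ← add_div]
    congr 1
    ring
  have h5 : p ^ 2 + p * q + q ^ 2 = 7 := by
    rw [hp, hq]
    field_simp
    ring
  have hgk : kk u = ((p * q * (p + q) : ℚ) : ℝ) := by
    rw [hpq, hp, hq]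
    push_cast
    rfl
  have hgu : g u = 36 - ((p * q * (p + q) : ℚ) : ℝ) ^ 2 := by
    rw [← hgk]
  rw [hgu] at hu3 hu4
  have n1 : p ∉ ({-p, q, -q, p + q, -(p + q)} : Finset ℚ) := by
    simp only [Finset.mem_insert, Finset.mem_singleton, not_or]
    refine ⟨?_, ?_, ?_, ?_, ?_⟩ <;> intro h <;> linarith
  have n2 : -p ∉ ({q, -q, p + q, -(p + q)} : Finset ℚ) := by
    simp only [Finset.mem_insert, Finset.mem_singleton, not_or]
    refine ⟨?_, ?_, ?_, ?_⟩ <;> intro h <;> linarith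
  have n3 : q ∉ ({-q, p + q, -(p + q)} : Finset ℚ) := by
    simp only [Finset.mem_insert, Finset.mem_singleton, not_or]
    refine ⟨?_, ?_, ?_⟩ <;> intro h <;> linarith
  have n4 : -q ∉ ({p + q, -(p + q)} : Finset ℚ) := by
    simp only [Finset.mem_insert, Finset.mem_singleton, not_or]
    refine ⟨?_, ?_⟩ <;> intro h <;> linarith
  have n5 : p + q ∉ ({-(p + q)} : Finset ℚ) := by
    simp only [Finset.mem_singleton]
    intro h
    linarith
  refine ⟨{p, -p, q, -q, p + q, -(p + q)}, p * q * (p + q), ?_, by linarith, by linarith, ?_⟩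
  · rw [Finset.card_insert_of_notMem n1, Finset.card_insert_of_notMem n2,
      Finset.card_insert_of_notMem n3, Finset.card_insert_of_notMem n4,
      Finset.card_insert_of_notMem n5, Finset.card_singleton]
  · unfold PS
    rw [Finset.prod_insert n1, Finset.prod_insert n2, Finset.prod_insert n3,
      Finset.prod_insert n4, Finset.prod_insert n5, Finset.prod_singleton]
    have h9 := congrArg (C : ℚ → ℚ[X]) h5
    simp only [map_add, map_mul, map_pow, map_neg] at h9 ⊢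
    have e1 : (X - C p) * (X - C q) * (X - -(C p + C q)) =
        (X ^ 3 - C 7 * X) + C p * C q * (C p + C q) := by
      linear_combination -(X : ℚ[X]) * h9
    have e2 : (X - -C p) * (X - -C q) * (X - (C p + C q)) =
        (X ^ 3 - C 7 * X) - C p * C q * (C p + C q) := by
      linear_combination -(X : ℚ[X]) * h9
    calc _ = ((X - C p) * (X - C q) * (X - -(C p + C q))) *
        ((X - -C p) * (X - -C q) * (X - (C p + C q))) := by ring
      _ = _ := by rw [e1, e2]; ring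

/-- the choice of the last block -/
lemma last_block {S T : Finset ℚ} {w : ℚ} {G : ℚ[X]} (hw : 0 < w) (hT : Eq6 T w) (h : ND S)
    (hG : PS T = PS S * G.comp ((X ^ 3 - C 7 * X) ^ 2)) :
    ∃ (B : Finset ℚ) (k : ℚ), B.card = 6 ∧ Disjoint T B ∧ 0 < k ∧ k < 6 ∧
      PS B = (X ^ 3 - C 7 * X) ^ 2 - C (k ^ 2) ∧
      (∀ j, (derivative (PS (T ∪ B))).eval (x6 j) ≠ 0) ∧
      ∀ x ∈ BadS S, (PSR (T ∪ B)).eval x ≠ 0 → (derivative (PSR (T ∪ B))).eval x ≠ 0 := by
  classical
  have hfin := bad_finite h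
  let G1 : Finset ℚ := Finset.univ.image fun j : Fin 6 =>
    36 + 2 * w * ((x6 j ^ 3 - 7 * x6 j) * (3 * x6 j ^ 2 - 7)) / (derivative (PS T)).eval (x6 j)
  let G2R : Finset ℝ := hfin.toFinset.image fun x : ℝ =>
    (x ^ 3 - 7 * x) ^ 2 + 2 * (PSR T).eval x * ((x ^ 3 - 7 * x) * (3 * x ^ 2 - 7)) /
      (derivative (PSR T)).eval x
  have hfin2 : {q : ℚ | (q : ℝ) ∈ G2R}.Finite :=
    G2R.finite_toSet.preimage (Rat.cast_injective (α := ℝ)).injOn
  let G2 : Finset ℚ := hfin2.toFinset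
  obtain ⟨B, k, k1, k2, k3, k4, k5, k6⟩ := block6 T (G1 ∪ G2)
  rw [Finset.mem_union, not_or] at k5
  have hB : ∀ y : ℚ, (derivative (PS B)).eval y = 2 * ((y ^ 3 - 7 * y) * (3 * y ^ 2 - 7)) := by
    intro y
    have hder : derivative ((X ^ 3 - C 7 * X : ℚ[X]) ^ 2 - C (k ^ 2)) =
        C 2 * (X ^ 3 - C 7 * X) * (C 3 * X ^ 2 - C 7) := by
      rw [derivative_sub, derivative_C, sub_zero, derivative_sq, derivative_sub,
        derivative_X_pow, derivative_C_mul, derivative_X]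
      norm_num
    rw [k6, hder]
    simp only [eval_mul, eval_sub, eval_pow, eval_X, eval_C]
    ring
  have hPB : PSR B = (X ^ 3 - C 7 * X) ^ 2 - C ((k : ℝ) ^ 2) := by
    rw [← PSR_map, k6]
    simp
  refine ⟨B, k, k1, k2, k3, k4, k6, ?_, ?_⟩
  · intro j h0
    rw [PS_union k2, derivative_mul, eval_add, eval_mul, eval_mul, eq6_block k6 j, hB, hT j] at h0
    by_cases hd : (derivative (PS T)).eval (x6 j) = 0
    · rw [hd, zero_mul, zero_add] at h0
      have := dx6 j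
      rcases mul_eq_zero.1 h0 with h4 | h4
      · exact hw.ne' h4
      · rcases mul_eq_zero.1 h4 with h5 | h5
        · norm_num at h5
        · exact this h5
    · apply k5.1
      rw [Finset.mem_image]
      refine ⟨j, Finset.mem_univ _, ?_⟩
      field_simp
      linear_combination h0
  · intro x hx hne h0
    have hun : PSR (T ∪ B) = PSR T * PSR B := by
      unfold PSR
      exact Finset.prod_union k2
    have hTR : PSR T = PSR S * (G.map (algebraMap ℚ ℝ)).comp ((X ^ 3 - C 7 * X) ^ 2) := by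
      rw [← PSR_map, ← PSR_map, hG, Polynomial.map_mul, Polynomial.map_comp]
      simp
    rw [hun, eval_mul] at hne
    have hT0 : (PSR T).eval x ≠ 0 := left_ne_zero_of_mul hne
    have hderB : (derivative (PSR B)).eval x = 2 * ((x ^ 3 - 7 * x) * (3 * x ^ 2 - 7)) := by
      have hder : derivative ((X ^ 3 - C 7 * X : ℝ[X]) ^ 2 - C ((k : ℝ) ^ 2)) =
          C 2 * (X ^ 3 - C 7 * X) * (C 3 * X ^ 2 - C 7) := by
        rw [derivative_sub, derivative_C, sub_zero, derivative_sq, derivative_sub,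
          derivative_X_pow, derivative_C_mul, derivative_X]
        norm_num
      rw [hPB, hder]
      simp only [eval_mul, eval_sub, eval_pow, eval_X, eval_C]
      ring
    have hBx : (PSR B).eval x = (x ^ 3 - 7 * x) ^ 2 - (k : ℝ) ^ 2 := by
      rw [hPB]
      simp
    rw [hun, derivative_mul, eval_add, eval_mul, eval_mul, hderB, hBx] at h0
    by_cases hd : (derivative (PSR T)).eval x = 0
    · rw [hd, zero_mul, zero_add] at h0
      rcases mul_eq_zero.1 h0 with h4 | h4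
      · exact hT0 h4
      · have h5 : (x ^ 3 - 7 * x) * (3 * x ^ 2 - 7) = 0 := by linarith
        have hS0 : (PSR S).eval x ≠ 0 := by
          intro h6
          apply hT0
          rw [hTR, eval_mul, h6, zero_mul]
        have h6 := special h hS0 h5
        rw [hTR, derivative_mul, eval_add, eval_mul, eval_mul, derivative_comp, eval_mul] at hd
        have h7 : (derivative ((X ^ 3 - C 7 * X : ℝ[X]) ^ 2)).eval x = 0 := by
          have hder : derivative ((X ^ 3 - C 7 * X : ℝ[X]) ^ 2) =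
              C 2 * (X ^ 3 - C 7 * X) * (C 3 * X ^ 2 - C 7) := by
            rw [derivative_sq, derivative_sub,
              derivative_X_pow, derivative_C_mul, derivative_X]
            norm_num
          rw [hder]
          simp only [eval_mul, eval_sub, eval_pow, eval_X, eval_C]
          linear_combination 2 * h5
        rw [h7, zero_mul, mul_zero, add_zero] at hd
        rcases mul_eq_zero.1 hd with h8 | h8
        · exact h6 h8
        · apply hT0
          rw [hTR, eval_mul, h8, mul_zero]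
    · apply k5.2
      show k ^ 2 ∈ hfin2.toFinset
      rw [Set.Finite.mem_toFinset, Set.mem_ofPred_eq, Finset.mem_image]
      refine ⟨x, by rw [Set.Finite.mem_toFinset]; exact hx, ?_⟩
      push_cast
      field_simp
      linear_combination h0

end Pool.Agent.Q199.SG
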