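import Pool.Agent.Q199.SG.Six1
import Pool.Agent.Q199.SG.Cfg2

/-!
# Six points: configurations with a prescribed number of shallow gaps
-/

set_option autoImplicit false

namespace Pool.Agent.Q199.SG

open Polynomial Finset Filter Topology Pool.Agent.W460.CG Pool.Agent.TH665.CG6

/-- the deformation is of first order -/
lemma defo1 (F W : ℝ → ℝ) (hF : Continuous F) (t δ : ℕ → ℝ) (ht : Tendsto t atTop (𝓝[>] 0))
    (h1 : ∀ᶠ m in atTop, |δ m - t m| ≤ t m ^ 2) :
    ∀ K : ℝ, ∀ ε > 0, ∀ᶠ m in atTop, ∀ x, |x| ≤ K →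
      |F x * (W x - δ m) - F x * W x - t m * (-F x)| ≤ ε * t m := by
  intro K ε hε
  have htpos : ∀ᶠ m in atTop, 0 < t m := ht.eventually self_mem_nhdsWithin
  have ht0 : Tendsto t atTop (𝓝 0) := ht.mono_right nhdsWithin_le_nhds
  obtain ⟨M, hM⟩ : ∃ M : ℝ, ∀ x, |x| ≤ K → |F x| ≤ M := by
    obtain ⟨C, hC⟩ := (isCompact_Icc (a := -K) (b := K)).exists_bound_of_continuousOn
      hF.continuousOn
    exact ⟨C, fun x hx => hC x ⟨(abs_le.1 hx).1, (abs_le.1 hx).2⟩⟩
  have hM' : 0 < |M| + 1 := by positivity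
  filter_upwards [h1, htpos, ht0.eventually (gt_mem_nhds (show 0 < ε / (|M| + 1) by positivity))]
    with m g1 g3 g5 x hx
  have hMx := hM x hx
  rw [lt_div_iff₀ hM'] at g5
  have e3 : F x * (W x - δ m) - F x * W x - t m * (-F x) = -(F x * (δ m - t m)) := by ring
  rw [e3, abs_neg, abs_mul]
  calc |F x| * |δ m - t m| ≤ M * t m ^ 2 := by
        have : 0 ≤ M := (abs_nonneg _).trans hMx
        gcongr
    _ = M * t m * t m := by ring
    _ ≤ |M| * t m * t m := by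
        gcongr
        exact le_abs_self M
    _ ≤ ε * t m := by
        gcongr
        nlinarith

/-- nearby blocks -/
lemma nearby6 (k : ℚ) (hk : 0 < k) (hk2 : k < 6) (t : ℕ → ℝ) (ht : Tendsto t atTop (𝓝[>] 0)) :
    ∀ᶠ m in atTop, ∃ q : Finset ℚ × ℚ, q.1.card = 6 ∧
      PS q.1 = (X ^ 3 - C 7 * X) ^ 2 - C (q.2 ^ 2) ∧
      |((q.2 : ℝ) ^ 2 - (k : ℝ) ^ 2) - t m| ≤ t m ^ 2 ∧ (q.2 : ℝ) ^ 2 < 36 := by
  have htpos : ∀ᶠ m in atTop, 0 < t m := ht.eventually self_mem_nhdsWithin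
  have ht0 : Tendsto t atTop (𝓝 0) := ht.mono_right nhdsWithin_le_nhds
  have hk' : (0 : ℝ) < (k : ℝ) ^ 2 := by
    have : (0 : ℝ) < k := by exact_mod_cast hk
    positivity
  have hk2' : (k : ℝ) ^ 2 < 36 := by
    have h1 : (0 : ℝ) < k := by exact_mod_cast hk
    have h2 : (k : ℝ) < 6 := by exact_mod_cast hk2
    nlinarith
  have lim : ∀ c d e : ℝ, Tendsto (fun m => c + d * t m + e * t m ^ 2) atTop (𝓝 c) := by
    intro c d e
    have := (tendsto_const_nhds (x := c) (f := (atTop : Filter ℕ))).add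
      ((ht0.const_mul d).add ((ht0.pow 2).const_mul e))
    rw [mul_zero, zero_pow (by norm_num : (2 : ℕ) ≠ 0), mul_zero, add_zero, add_zero] at this
    refine this.congr fun m => ?_
    ring
  have a1 := (lim ((k : ℝ) ^ 2) 1 (-1)).eventually (lt_mem_nhds hk')
  have a2 := (lim ((k : ℝ) ^ 2) 1 1).eventually (gt_mem_nhds hk2')
  filter_upwards [htpos, a1, a2] with m g0 g1 g2
  have g5 : 0 < t m ^ 2 := by positivity
  obtain ⟨B, k', b1, b2, b3, b4⟩ := dens6 (x := (k : ℝ) ^ 2 + 1 * t m + -1 * t m ^ 2)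
    (y := (k : ℝ) ^ 2 + 1 * t m + 1 * t m ^ 2) g1.le (by linarith) g2.le
  refine ⟨(B, k'), b1, b4, ?_, b3.trans g2⟩
  rw [abs_le]
  constructor <;> dsimp only <;> linarith

theorem config6 (S : Finset ℚ) (v : ℚ) (hv : 0 < v) (hS : Eq6 S v) (hs3 : ∃ s ∈ S, 3 < s)
    (hND : ND S) (a n r : ℕ) (hn : n = S.card + 6 * (a + 1)) (hr : 1 ≤ r) (hr2 : r ≤ n / 2) :
    ∃ (R : Finset ℚ) (v' : ℚ), R.card = n ∧ 0 < v' ∧ Eq6 R v' ∧
      (∀ j, (derivative (PS R)).eval (x6 j) ≠ 0) ∧ (∃ s ∈ R, 3 < s) ∧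
      ∃ v₁ v₂ : ℝ, 0 < v₁ ∧ v₁ < v₂ ∧ ∀ w, v₁ ≤ w → w ≤ v₂ →
        {x : ℝ | ∏ s ∈ R, (x - (s : ℝ)) = -w}.ncard = n - 2 * r := by
  classical
  obtain ⟨T, u, G, s1, s2, s3, s4, s5⟩ := grow2 S v hv hS hs3 a
  obtain ⟨B1, k, q1, q2, q3, q4, q5, q6, q7⟩ := last_block s2 s3 hND s5
  set R0 := T ∪ B1 with hR0
  have hR0c : R0.card = n := by
    rw [hR0, Finset.card_union_of_disjoint q2, q1, s1, hn]
    ring
  -- the real functions
  set F : ℝ → ℝ := fun x => ∏ s ∈ T, (x - (s : ℝ)) with hF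
  set W : ℝ → ℝ := fun x => (x ^ 3 - 7 * x) ^ 2 with hW
  set P : ℝ → ℝ := fun x => ∏ s ∈ S, (x - (s : ℝ)) with hP
  have hFc : Continuous F := by rw [hF]; fun_prop
  have hWc : Continuous W := by rw [hW]; fun_prop
  have PSr6 : ∀ {B : Finset ℚ} {k : ℚ}, PS B = (X ^ 3 - C 7 * X) ^ 2 - C (k ^ 2) → ∀ x : ℝ,
      ∏ s ∈ B, (x - (s : ℝ)) = W x - (k : ℝ) ^ 2 := by
    intro B k h x
    rw [← PSr, h]
    simp [hW]
  have hFG : ∀ x, F x = P x * (G.map (algebraMap ℚ ℝ)).eval (W x) := by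
    intro x
    have h1 : F x = aeval x (PS T) := (PSr T x).symm
    rw [h1, s5, map_mul, PSr, aeval_comp]
    congr 1
    rw [← eval_map_algebraMap]
    congr 1
    simp [hW]
  have hA : ∀ x : ℝ, ∏ s ∈ R0, (x - (s : ℝ)) = F x * (W x - (k : ℝ) ^ 2) := by
    intro x
    rw [hR0, Finset.prod_union q2, PSr6 q5]
  obtain ⟨ρ, hρ, hρe⟩ := sorted R0
  rw [hR0c] at hρ hρe
  have hPR : ∀ x, (PR n ρ).eval x = F x * (W x - (k : ℝ) ^ 2) := fun x => by rw [hρe, hA]
  have hPRP : PR n ρ = PSR R0 := by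
    apply Polynomial.funext
    intro x
    rw [hρe, PSR_eval]
  have hn1 : 1 ≤ n := by omega
  obtain ⟨z, hz, hzm⟩ := seps hn1 hρ
  have hzlt : ∀ i < n, z i < z (i + 1) := fun i hi => (hz i hi).1.trans (hz i hi).2
  have hzle : ∀ i j, i < j → j ≤ n → z i < z j := by
    intro i j hij hj
    induction j, hij using Nat.le_induction with
    | base => exact hzlt i (by omega)
    | succ k _ ih => exact (ih (by omega)).trans (hzlt k (by omega))
  have hzne : ∀ i j, i ≤ n → j ≤ n → i ≠ j → z i ≠ z j := by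
    intro i j hi hj hij
    rcases lt_or_gt_of_ne hij with h | h
    · exact (hzle i j h hj).ne
    · exact (hzle j i h hi).ne'
  -- the minimisers are critical points
  have hcrit : ∀ i, i + 1 < n → Odd (n - 1 - i) → (derivative (PR n ρ)).eval (z (i + 1)) = 0 := by
    intro i hi hio
    have h1 := hzm i hi hio
    have h2 : IsLocalMin (fun x => (PR n ρ).eval x) (z (i + 1)) := by
      filter_upwards [Icc_mem_nhds (hzlt i (by omega)) (hzlt (i + 1) hi)] with x hx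
      by_cases hxe : x = z (i + 1)
      · rw [hxe]
      · exact (h1.2 x hx.1 hx.2 hxe).le
    exact h2.hasDerivAt_eq_zero ((PR n ρ).hasDerivAt _)
  set A1 : ℝ → ℝ := fun x => -F x with hA1
  have hA1c : Continuous A1 := by rw [hA1]; fun_prop
  -- the sequences
  set t : ℕ → ℝ := fun m => 1 / ((m : ℝ) + 1) with ht
  obtain ⟨q, hq⟩ := (nearby6 k q3 q4 t tseq).choice
  set κ' : ℕ → ℝ := fun m => ((q m).2 : ℝ) ^ 2 with hκ'
  set f : ℕ → ℝ → ℝ := fun m x => F x * (W x - κ' m) with hf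
  have hdefo := defo1 F (fun x => W x - (k : ℝ) ^ 2) hFc t (fun m => κ' m - (k : ℝ) ^ 2) tseq
    (by filter_upwards [hq] with m hm using hm.2.2.1)
  obtain ⟨Sh, hShc, hShm, v₁, v₂, hev⟩ := tie hn1 hρ r hr hr2 z hz hzm A1 hA1c (by
    intro i j hi hj hio hjo hij he he1
    have hx0 := (hzm i hi hio).1
    have hy0 := (hzm j hj hjo).1
    have hne := hzne (i + 1) (j + 1) (by omega) (by omega) (by omega)
    set x := z (i + 1) with hx
    set y := z (j + 1) with hy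
    have hFxy : F x = F y := neg_injective he1
    rw [hPR] at hx0 hy0
    have hFy : F y ≠ 0 := fun h => by
      rw [h, zero_mul] at hy0
      exact lt_irrefl _ hy0
    rw [hPR, hPR, hFxy] at he
    have hWxy : W x = W y := by
      have := mul_left_cancel₀ hFy he
      linarith
    have hPxy : P x = P y := by
      rw [hFG, hFG, hWxy] at hFxy
      rw [hFG] at hFy
      exact mul_right_cancel₀ (right_ne_zero_of_mul hFy) hFxy
    have hbad : x ∈ BadS S := ⟨y, hne.symm, hWxy, hPxy⟩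
    have h1 := hcrit i hi hio
    rw [← hx, hPRP] at h1
    refine q7 x hbad ?_ h1
    rw [PSR_eval, hA]
    exact hx0.ne) atTop t tseq f (by
    intro K ε hε
    filter_upwards [hdefo K ε hε] with m hm x hx
    rw [hPR]
    have := hm x hx
    have e : f m x = F x * (W x - (k : ℝ) ^ 2 - (κ' m - (k : ℝ) ^ 2)) := by
      rw [hf]
      ring
    rw [e]
    exact this)
  -- limits of the parameters
  have ht0 : Tendsto t atTop (𝓝 0) := tseq.mono_right nhdsWithin_le_nhds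
  have limk : Tendsto κ' atTop (𝓝 ((k : ℝ) ^ 2)) := by
    have h1 : Tendsto (fun m => t m + t m ^ 2) atTop (𝓝 0) := by
      have := ht0.add (ht0.pow 2)
      rwa [zero_pow (by norm_num : (2 : ℕ) ≠ 0), add_zero] at this
    rw [tendsto_iff_norm_sub_tendsto_zero]
    refine squeeze_zero' (Eventually.of_forall fun m => norm_nonneg _) ?_ h1
    filter_upwards [hq] with m hm
    have h2 := hm.2.2.1
    rw [Real.norm_eq_abs]
    have h3 := abs_add_le ((κ' m - (k : ℝ) ^ 2) - t m) (t m)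
    rw [sub_add_cancel, abs_of_pos (show 0 < t m by rw [ht]; positivity)] at h3
    have h4 : |(κ' m - (k : ℝ) ^ 2) - t m| ≤ t m ^ 2 := h2
    linarith
  -- the derivatives
  have hdB : ∀ (B : Finset ℚ) (k y : ℚ), PS B = (X ^ 3 - C 7 * X) ^ 2 - C (k ^ 2) →
      (derivative (PS B)).eval y = 2 * ((y ^ 3 - 7 * y) * (3 * y ^ 2 - 7)) := by
    intro B k y h
    have hder : derivative ((X ^ 3 - C 7 * X : ℚ[X]) ^ 2 - C (k ^ 2)) =
        C 2 * (X ^ 3 - C 7 * X) * (C 3 * X ^ 2 - C 7) := by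
      rw [derivative_sub, derivative_C, sub_zero, derivative_sq, derivative_sub,
        derivative_X_pow, derivative_C_mul, derivative_X]
      norm_num
    rw [h, hder]
    simp only [eval_mul, eval_sub, eval_pow, eval_X, eval_C]
    ring
  set d : ℚ → ℚ := fun x => (derivative (PS T)).eval x with hd
  have hdR : ∀ (B : Finset ℚ) (k : ℚ) (j : Fin 6), Disjoint T B →
      PS B = (X ^ 3 - C 7 * X) ^ 2 - C (k ^ 2) →
      (derivative (PS (T ∪ B))).eval (x6 j) = d (x6 j) * (36 - k ^ 2) +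
        u * (2 * ((x6 j ^ 3 - 7 * x6 j) * (3 * x6 j ^ 2 - 7))) := by
    intro B k j hdis h
    rw [PS_union hdis, derivative_mul, eval_add, eval_mul, eval_mul, eq6_block h j, hdB B k _ h,
      s3 j]
  have hder : ∀ j : Fin 6, ∀ᶠ m in atTop, (d (x6 j) : ℝ) * (36 - κ' m) +
      u * (2 * (((x6 j : ℚ) : ℝ) ^ 3 - 7 * x6 j) * (3 * ((x6 j : ℚ) : ℝ) ^ 2 - 7)) ≠ 0 := by
    intro j
    have h4 : Tendsto (fun m => (d (x6 j) : ℝ) * (36 - κ' m) +
        u * (2 * (((x6 j : ℚ) : ℝ) ^ 3 - 7 * x6 j) * (3 * ((x6 j : ℚ) : ℝ) ^ 2 - 7))) atTop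
        (𝓝 ((d (x6 j) : ℝ) * (36 - (k : ℝ) ^ 2) +
        u * (2 * (((x6 j : ℚ) : ℝ) ^ 3 - 7 * x6 j) * (3 * ((x6 j : ℚ) : ℝ) ^ 2 - 7)))) :=
      ((limk.const_sub _).const_mul _).add_const _
    refine h4.eventually_ne ?_
    have h5 := q6 j
    rw [hdR B1 k j q2 q5] at h5
    intro h6
    apply h5
    have h7 : ((d (x6 j) * (36 - k ^ 2) +
        u * (2 * ((x6 j ^ 3 - 7 * x6 j) * (3 * x6 j ^ 2 - 7))) : ℚ) : ℝ) = 0 := by
      push_cast
      linear_combination h6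
    exact_mod_cast h7
  obtain ⟨m, hm1, hm2, hm3⟩ := (hq.and (hev.and (eventually_all.2 hder))).exists
  obtain ⟨c1, c2, -, c4⟩ := hm1
  obtain ⟨e1, e2, e3, e4, e5⟩ := hm2
  set C1 := (q m).1 with hC1
  set k1 := (q m).2 with hk1
  have hfm : ∀ x, f m x = F x * ∏ s ∈ C1, (x - (s : ℝ)) := by
    intro x
    rw [PSr6 c2]
  -- disjointness
  have hcard : n ≤ (T ∪ C1).card := by
    have h1 := signs_card n ((T ∪ C1).image fun q : ℚ => (q : ℝ)) (f m) (by
      rw [hf]; fun_prop) z hzlt e3 (by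
      intro x hx
      rw [hfm] at hx
      rw [Finset.mem_image]
      have key : ∀ F : Finset ℚ, ∏ s ∈ F, (x - (s : ℝ)) = 0 → ∃ s ∈ F, (s : ℝ) = x := by
        intro F hF
        rw [Finset.prod_eq_zero_iff] at hF
        obtain ⟨s, hs1, hs2⟩ := hF
        exact ⟨s, hs1, by linarith⟩
      rcases mul_eq_zero.1 hx with h | h
      · obtain ⟨s, hs1, hs2⟩ := key _ h
        exact ⟨s, Finset.mem_union_left _ hs1, hs2⟩
      · obtain ⟨s, hs1, hs2⟩ := key _ h
        exact ⟨s, Finset.mem_union_right _ hs1, hs2⟩)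
    exact h1.trans Finset.card_image_le
  have hle1 := Finset.card_union_le T C1
  have hdis : Disjoint T C1 := by
    rw [← Finset.card_union_eq_card_add_card]
    omega
  have hRc : (T ∪ C1).card = n := by
    rw [Finset.card_union_of_disjoint hdis, s1, c1, hn]
    ring
  have hprod : ∀ x : ℝ, ∏ s ∈ T ∪ C1, (x - (s : ℝ)) = f m x := by
    intro x
    rw [Finset.prod_union hdis, hfm]
  have hk36 : 0 < 36 - k1 ^ 2 := by
    have : ((k1 ^ 2 : ℚ) : ℝ) < ((36 : ℚ) : ℝ) := by push_cast; exact c4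
    have h2 : k1 ^ 2 < 36 := by exact_mod_cast this
    linarith
  obtain ⟨s0, hs0, hs0'⟩ := s4
  refine ⟨T ∪ C1, u * (36 - k1 ^ 2), hRc, by positivity, s3.union hdis (eq6_block c2), ?_,
    ⟨s0, Finset.mem_union_left _ hs0, hs0'⟩, v₁ m, v₂ m, e1, e2, ?_⟩
  · intro j
    rw [hdR C1 k1 j hdis c2]
    intro h6
    apply hm3 j
    have h7 : ((d (x6 j) * (36 - k1 ^ 2) +
        u * (2 * ((x6 j ^ 3 - 7 * x6 j) * (3 * x6 j ^ 2 - 7))) : ℚ) : ℝ) = 0 := by
      rw [h6]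
      norm_num
    push_cast at h7
    show (d (x6 j) : ℝ) * (36 - (k1 : ℝ) ^ 2) + _ = 0
    linear_combination h7
  · intro w' hw1 hw2
    set RR : Finset ℝ := (T ∪ C1).image fun q : ℚ => (q : ℝ) with hRR
    have hRRc : RR.card ≤ n := by
      rw [← hRc]
      exact Finset.card_image_le
    have hRRp : ∀ x : ℝ, ∏ s ∈ RR, (x - s) = f m x := by
      intro x
      rw [hRR, Finset.prod_image (fun a _ b _ h => Rat.cast_injective h), hprod]
    have h1 := count_sep n RR hRRc z hzlt (by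
      intro j hj
      rw [hRRp]
      exact e3 j hj) Sh w' (e1.trans_le hw1) (by
      intro i hi
      refine ⟨(hShm i hi).1, (hShm i hi).2, fun x hx1 hx2 => ?_⟩
      rw [hRRp]
      have := e4 i hi x hx1 hx2
      linarith) (by
      intro i hi hio hiS
      rw [hRRp]
      have := e5 i hi hio hiS
      linarith)
    rw [hShc] at h1
    rw [← h1.2]
    congr 1
    ext x
    rw [Set.mem_ofPred_eq, Set.mem_ofPred_eq, hprod, hRRp]

end Pool.Agent.Q199.SG
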