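import Pool.Agent.Q199.SG.Cert

/-!
# Explicit data in small degrees
-/

set_option autoImplicit false

namespace Pool.Agent.Q199.SG

open Pool.Agent.W289.CG

/-- data of degree `n` with `k` points and an interval of values with `n - 2 r` real roots -/
def Gap (n k r : ℕ) : Prop :=
  ∃ (D : Dat n k) (v₁ v₂ : ℝ), 0 < v₁ ∧ v₁ < v₂ ∧ ∀ w, v₁ ≤ w → w ≤ v₂ →
    {x : ℝ | ∏ i, (x - (D.a i : ℝ)) = -w}.ncard = n - 2 * r

/-- the roots in degree `4` -/
def l4 : List ℤ := [0, 1, 27, 54]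

theorem d4 : Dt l4 (![12, 21, -6] : Fin 3 → ℤ) 83160 := by
  unfold Dt Pool.Agent.W21.CG.Chk
  decide +kernel

theorem c4_1 : Cert l4 2 [0] 730 321818
    [0, 0, 89] := by
  decide +kernel

theorem g4 (r : ℕ) (h1 : 1 ≤ r) (h2 : r < 4 / 2) : Gap 4 3 r := by
  have h : r = 1 := by omega
  subst h
  exact gap_of d4 c4_1

/-- the roots in degree `5` -/
def l5 : List ℤ := [0, 4, 8, 16, 17]

theorem d5 : Dt l5 (![1, 2, 10, 14] : Fin 4 → ℤ) 5040 := by
  unfold Dt Pool.Agent.W21.CG.Chk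
  decide +kernel

theorem c5_1 : Cert l5 2 [3] 995 2639
    [0, 12, 0, 0] := by
  decide +kernel

theorem g5 (r : ℕ) (h1 : 1 ≤ r) (h2 : r < 5 / 2) : Gap 5 4 r := by
  have h : r = 1 := by omega
  subst h
  exact gap_of d5 c5_1

/-- the roots in degree `6` -/
def l6 : List ℤ := [2, 11, 40, 42, 69, 85]

theorem d6 : Dt l6 (![0, 19, 25, 57, 62] : Fin 5 → ℤ) 216770400 := by
  unfold Dt Pool.Agent.W21.CG.Chk
  decide +kernel

theorem c6_1 : Cert l6 1 [2] 3055361 121836959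
    [6, 0, 0, 0, 79] := by
  decide +kernel

theorem c6_2 : Cert l6 1 [0, 2] 159129601 453332879
    [0, 0, 0, 0, 79] := by
  decide +kernel

theorem g6 (r : ℕ) (h1 : 1 ≤ r) (h2 : r < 6 / 2) : Gap 6 5 r := by
  have h : r = 1 ∨ r = 2 := by omega
  rcases h with rfl | rfl
  · exact gap_of d6 c6_1
  · exact gap_of d6 c6_2

/-- the roots in degree `7` -/
def l7 : List ℤ := [0, 18, 27, 58, 64, 89, 101]

theorem d7 : Dt l7 (![1, 13, 38, 44, 75, 84] : Fin 6 → ℤ) 13967553600 := by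
  unfold Dt Pool.Agent.W21.CG.Chk
  decide +kernel

theorem c7_1 : Cert l7 1 [3] 1283251201 3521327039
    [0, 22, 0, 0, 0, 97] := by
  decide +kernel

theorem c7_2 : Cert l7 1 [1, 3] 4601734201 22091509439
    [0, 0, 0, 0, 0, 97] := by
  decide +kernel

theorem g7 (r : ℕ) (h1 : 1 ≤ r) (h2 : r < 7 / 2) : Gap 7 6 r := by
  have h : r = 1 ∨ r = 2 := by omega
  rcases h with rfl | rfl
  · exact gap_of d7 c7_1
  · exact gap_of d7 c7_2

/-- the roots in degree `8` -/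
def l8 : List ℤ := [0, 1, 7, 9, 11, 12, 17, 20]

theorem d8 : Dt l8 (![16, 15, 5] : Fin 3 → ℤ) 1209600 := by
  unfold Dt Pool.Agent.W21.CG.Chk
  decide +kernel

theorem c8_1 : Cert l8 2 [4] 46283 72575
    [1, 0, 16, 0, 0, 0, 38] := by
  decide +kernel

theorem c8_2 : Cert l8 2 [2, 4] 157107 536633
    [1, 0, 0, 0, 0, 0, 38] := by
  decide +kernel

theorem c8_3 : Cert l8 2 [0, 2, 4] 1413721 4596479
    [0, 0, 0, 0, 0, 0, 38] := by
  decide +kernel

theorem g8 (r : ℕ) (h1 : 1 ≤ r) (h2 : r < 8 / 2) : Gap 8 3 r := by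
  have h : r = 1 ∨ r = 2 ∨ r = 3 := by omega
  rcases h with rfl | rfl | rfl
  · exact gap_of d8 c8_1
  · exact gap_of d8 c8_2
  · exact gap_of d8 c8_3

/-- the roots in degree `9` -/
def l9 : List ℤ := [0, 24, 30, 83, 86, 133, 157, 181, 197]

theorem d9 : Dt l9 (![1, 17, 41, 65, 112, 115, 168, 174] : Fin 8 → ℤ) 3377425033382400 := by
  unfold Dt Pool.Agent.W21.CG.Chk
  decide +kernel

theorem c9_1 : Cert l9 1 [3] 44723991827901 289644423868799
    [0, 27, 0, 0, 0, 146, 0, 191] := by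
  decide +kernel

theorem c9_2 : Cert l9 1 [1, 3] 411674529826801 1993594071268799
    [0, 0, 0, 0, 0, 146, 0, 191] := by
  decide +kernel

theorem c9_3 : Cert l9 1 [1, 3, 5] 2280830008504321 6890439597249599
    [0, 0, 0, 0, 0, 0, 0, 191] := by
  decide +kernel

theorem g9 (r : ℕ) (h1 : 1 ≤ r) (h2 : r < 9 / 2) : Gap 9 8 r := by
  have h : r = 1 ∨ r = 2 ∨ r = 3 := by omega
  rcases h with rfl | rfl | rfl
  · exact gap_of d9 c9_1
  · exact gap_of d9 c9_2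
  · exact gap_of d9 c9_3

/-- the roots in degree `11` -/
def l11 : List ℤ := [0, 2, 4, 7, 8, 9, 12, 16, 17, 18, 20]

theorem d11 : Dt l11 (![5, 13, 15] : Fin 3 → ℤ) 64864800 := by
  unfold Dt Pool.Agent.W21.CG.Chk
  decide +kernel

theorem c11_1 : Cert l11 3 [3] 6233022 9691460
    [0, 8, 0, 0, 0, 33, 0, 49, 0, 58] := by
  decide +kernel

theorem c11_2 : Cert l11 3 [3, 7] 25207071 31434479
    [0, 8, 0, 0, 0, 33, 0, 0, 0, 58] := by
  decide +kernel

theorem c11_3 : Cert l11 3 [3, 5, 7] 51268722 164479115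
    [0, 8, 0, 0, 0, 0, 0, 0, 0, 58] := by
  decide +kernel

theorem c11_4 : Cert l11 3 [1, 3, 5, 7] 280137596 376277638
    [0, 0, 0, 0, 0, 0, 0, 0, 0, 58] := by
  decide +kernel

theorem g11 (r : ℕ) (h1 : 1 ≤ r) (h2 : r < 11 / 2) : Gap 11 3 r := by
  have h : r = 1 ∨ r = 2 ∨ r = 3 ∨ r = 4 := by omega
  rcases h with rfl | rfl | rfl | rfl
  · exact gap_of d11 c11_1
  · exact gap_of d11 c11_2
  · exact gap_of d11 c11_3
  · exact gap_of d11 c11_4

/-- the roots in degree `12` -/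
def l12 : List ℤ := [0, 1, 4, 5, 6, 7, 8, 9, 13, 14, 15, 17]

theorem d12 : Dt l12 (![3, 11, 12] : Fin 3 → ℤ) 79833600 := by
  unfold Dt Pool.Agent.W21.CG.Chk
  decide +kernel

theorem c12_1 : Cert l12 5 [4] 1052890 1380329
    [2, 0, 22, 0, 0, 0, 43, 0, 68, 0, 83] := by
  decide +kernel

theorem c12_2 : Cert l12 5 [4, 6] 2579220 2727360
    [2, 0, 22, 0, 0, 0, 0, 0, 68, 0, 83] := by
  decide +kernel

theorem c12_3 : Cert l12 5 [2, 4, 6] 5246618 20883376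
    [2, 0, 0, 0, 0, 0, 0, 0, 68, 0, 83] := by
  decide +kernel

theorem c12_4 : Cert l12 5 [2, 4, 6, 8] 37905961 398736486
    [2, 0, 0, 0, 0, 0, 0, 0, 0, 0, 83] := by
  decide +kernel

theorem c12_5 : Cert l12 5 [0, 2, 4, 6, 8] 693983343 1508016819
    [0, 0, 0, 0, 0, 0, 0, 0, 0, 0, 83] := by
  decide +kernel

theorem g12 (r : ℕ) (h1 : 1 ≤ r) (h2 : r < 12 / 2) : Gap 12 3 r := by
  have h : r = 1 ∨ r = 2 ∨ r = 3 ∨ r = 4 ∨ r = 5 := by omega
  rcases h with rfl | rfl | rfl | rfl | rfl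
  · exact gap_of d12 c12_1
  · exact gap_of d12 c12_2
  · exact gap_of d12 c12_3
  · exact gap_of d12 c12_4
  · exact gap_of d12 c12_5

/-- the roots in degree `15` -/
def l15 : List ℤ := [0, 2, 3, 4, 5, 8, 11, 12, 13, 15, 16, 19, 20, 21, 22]

theorem d15 : Dt l15 (![6, 7, 18] : Fin 3 → ℤ) 237758976000 := by
  unfold Dt Pool.Agent.W21.CG.Chk
  decide +kernel

theorem c15_1 : Cert l15 8 [7] 6869107984 13210538013
    [0, 19, 0, 36, 0, 73, 0, 0, 0, 125, 0, 156, 0, 174] := by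
  decide +kernel

theorem c15_2 : Cert l15 8 [7, 9] 19602224273 47946202247
    [0, 19, 0, 36, 0, 73, 0, 0, 0, 0, 0, 156, 0, 174] := by
  decide +kernel

theorem c15_3 : Cert l15 8 [3, 7, 9] 70067214830 89042947031
    [0, 19, 0, 0, 0, 73, 0, 0, 0, 0, 0, 156, 0, 174] := by
  decide +kernel

theorem c15_4 : Cert l15 8 [3, 7, 9, 11] 130766102326 131199689496
    [0, 19, 0, 0, 0, 73, 0, 0, 0, 0, 0, 0, 0, 174] := by
  decide +kernel

theorem c15_5 : Cert l15 8 [3, 5, 7, 9, 11] 163821913947 217036863064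
    [0, 19, 0, 0, 0, 0, 0, 0, 0, 0, 0, 0, 0, 174] := by
  decide +kernel

theorem c15_6 : Cert l15 8 [1, 3, 5, 7, 9, 11] 327197735260 1057567912107
    [0, 0, 0, 0, 0, 0, 0, 0, 0, 0, 0, 0, 0, 174] := by
  decide +kernel

theorem g15 (r : ℕ) (h1 : 1 ≤ r) (h2 : r < 15 / 2) : Gap 15 3 r := by
  have h : r = 1 ∨ r = 2 ∨ r = 3 ∨ r = 4 ∨ r = 5 ∨ r = 6 := by omega
  rcases h with rfl | rfl | rfl | rfl | rfl | rfl
  · exact gap_of d15 c15_1
  · exact gap_of d15 c15_2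
  · exact gap_of d15 c15_3
  · exact gap_of d15 c15_4
  · exact gap_of d15 c15_5
  · exact gap_of d15 c15_6

end Pool.Agent.Q199.SG
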