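import Pool.Agent.Q199.SG.Six2
import Pool.Agent.Q199.SG.Small

/-!
# Six points: the data
-/

set_option autoImplicit false

namespace Pool.Agent.Q199.SG

open Polynomial Pool.Agent.W289.CG Pool.Agent.W460.CG Pool.Agent.TH665.CG6 Filter Topology

lemma of_set6' (n : ℕ) (S : Finset ℚ) (v : ℚ) (hcard : S.card = n) (hv : 0 < v) (h3 : Eq6 S v)
    (hd : ∀ j, (derivative (PS S)).eval (x6 j) ≠ 0) (hlt : ∃ s ∈ S, 3 < s) :
    ∃ (D : Dat n 6) (E : ℝ), 0 < E ∧
      ∀ x : ℝ, ∏ i, (E * x - (D.a i : ℝ)) = E ^ n * ∏ s ∈ S, (x - (s : ℝ)) := by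
  classical
  let e : Fin n ≃ S := (S.equivFinOfCardEq hcard).symm
  let D : ℕ := ∏ t ∈ S, t.den
  have hD : 0 < D := Finset.prod_pos fun t _ => t.den_pos
  have hDQ : (0 : ℚ) < D := by exact_mod_cast hD
  have hz : ∀ i : Fin n, ∃ z : ℤ, (z : ℚ) = D * (e i : ℚ) := by
    intro i
    obtain ⟨m, hm⟩ : (e i : ℚ).den ∣ D := Finset.dvd_prod_of_mem _ (e i).2
    refine ⟨m * (e i : ℚ).num, ?_⟩
    rw [hm]
    push_cast
    have h1 := Rat.num_div_den (e i : ℚ)
    have h2 : ((e i : ℚ).den : ℚ) ≠ 0 := by exact_mod_cast (e i : ℚ).den_ne_zero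
    rw [div_eq_iff h2] at h1
    rw [h1]
    ring
  choose a ha using hz
  let b : Fin 6 → ℤ := ![-(3 * D : ℤ), -(2 * D : ℤ), -(D : ℤ), (D : ℤ), (2 * D : ℤ), (3 * D : ℤ)]
  have hb : ∀ j, (b j : ℚ) = D * x6 j := by
    intro j
    fin_cases j <;> simp [b, x6, mul_comm]
  have hprod : ∀ y : ℚ, ∏ i, (y - (e i : ℚ)) = (PS S).eval y := by
    intro y
    unfold PS
    rw [eval_prod, Equiv.prod_comp e (fun s : S => y - (s : ℚ)),
      Finset.prod_coe_sort S (fun s => y - s)]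
    exact Finset.prod_congr rfl fun s _ => by simp
  have hev : ∀ (z : ℤ) (y : ℚ), (z : ℚ) = D * y →
      (((pA a).eval z : ℤ) : ℚ) = (D : ℚ) ^ n * (PS S).eval y := by
    intro z y hzy
    unfold pA
    rw [eval_prod]
    simp only [eval_sub, eval_X, eval_C]
    push_cast
    rw [← hprod y]
    have : ∀ i, (z : ℚ) - (a i : ℚ) = D * (y - (e i : ℚ)) := by
      intro i
      rw [hzy, ha]
      ring
    rw [Finset.prod_congr rfl fun i _ => this i, Finset.prod_mul_distrib, Finset.prod_const,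
      Finset.card_univ, Fintype.card_fin]
  have hx1 : ∀ j, x6 j ≤ 3 := by
    intro j
    fin_cases j <;> simp [x6] <;> norm_num
  have hxinj : Function.Injective x6 := by
    intro i j hij
    fin_cases i <;> fin_cases j <;> simp [x6] at hij ⊢ <;> norm_num at hij
  have hcomp : ((pA a).map (Int.castRingHom ℚ)).comp (C (D : ℚ) * X) =
      C ((D : ℚ) ^ n) * PS S := by
    unfold pA PS
    rw [Polynomial.map_prod, prod_comp]
    have h1 : ∏ s ∈ S, (X - C s : ℚ[X]) = ∏ i, (X - C (e i : ℚ)) := by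
      rw [Equiv.prod_comp e (fun s : S => (X - C (s : ℚ) : ℚ[X])),
        Finset.prod_coe_sort S (fun s => (X - C s : ℚ[X]))]
    rw [h1]
    have h2 : ∀ i, ((X - C (a i)).map (Int.castRingHom ℚ)).comp (C (D : ℚ) * X) =
        C (D : ℚ) * (X - C (e i : ℚ)) := by
      intro i
      rw [Polynomial.map_sub, map_X, map_C, sub_comp, X_comp, C_comp]
      change C (D : ℚ) * X - C ((a i : ℤ) : ℚ) = _
      rw [ha, C_mul]
      ring
    rw [Finset.prod_congr rfl fun i _ => h2 i, Finset.prod_mul_distrib, Finset.prod_const,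
      Finset.card_univ, Fintype.card_fin, C_pow]
  refine ⟨{ a := a, b := b, c := (pA a).eval (b 0), ha := ?_, hb := ?_, hc := ?_, hab := ?_,
            hder := ?_, hlt := ?_ }, D, ?_, ?_⟩
  · intro i j hij
    apply e.injective
    apply Subtype.ext
    have h1 := ha i
    rw [hij, ha j] at h1
    exact (mul_left_cancel₀ hDQ.ne' h1).symm
  · intro i j hij
    apply hxinj
    have h1 := hb i
    rw [hij, hb j] at h1
    exact (mul_left_cancel₀ hDQ.ne' h1).symm
  · have h1 := hev (b 0) (x6 0) (hb 0)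
    rw [h3 0] at h1
    have h2 : (0 : ℚ) < (((pA a).eval (b 0) : ℤ) : ℚ) := by
      rw [h1]
      positivity
    exact_mod_cast h2
  · intro j
    have h1 := hev (b j) (x6 j) (hb j)
    have h2 := hev (b 0) (x6 0) (hb 0)
    rw [h3 j] at h1
    rw [h3 0, ← h1] at h2
    exact_mod_cast h2.symm
  · intro j h0
    apply hd j
    have h1 := congrArg derivative hcomp
    rw [derivative_comp, derivative_C_mul, derivative_C_mul, derivative_X, mul_one] at h1
    have h2 := congrArg (eval (x6 j)) h1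
    rw [eval_mul, eval_C, eval_comp, eval_mul, eval_C, eval_X, eval_mul, eval_C] at h2
    have h4 : eval ((D : ℚ) * x6 j) (derivative ((pA a).map (Int.castRingHom ℚ))) = 0 := by
      rw [← hb j, derivative_map]
      have h5 : ((b j : ℤ) : ℚ) = Int.castRingHom ℚ (b j) := rfl
      rw [h5, eval_map, eval₂_hom, h0, map_zero]
    rw [h4, mul_zero] at h2
    have h5 : ((D : ℚ) ^ n) ≠ 0 := by positivity
    exact (mul_eq_zero.1 h2.symm).resolve_left h5
  · intro j
    obtain ⟨s, hs, hs1⟩ := hlt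
    refine ⟨e.symm ⟨s, hs⟩, ?_⟩
    have h1 := ha (e.symm ⟨s, hs⟩)
    rw [Equiv.apply_symm_apply] at h1
    have h2 : ((b j : ℤ) : ℚ) < (a (e.symm ⟨s, hs⟩) : ℤ) := by
      rw [h1, hb j]
      apply mul_lt_mul_of_pos_left _ hDQ
      exact (hx1 j).trans_lt hs1
    exact_mod_cast h2
  · exact_mod_cast hD
  · intro y
    have h1 : ∀ i, (D : ℝ) * y - (a i : ℝ) = D * (y - ((e i : ℚ) : ℝ)) := by
      intro i
      have h2 : ((a i : ℤ) : ℝ) = D * ((e i : ℚ) : ℝ) := by
        have h3 := ha i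
        have h4 : (((a i : ℤ) : ℚ) : ℝ) = ((D * (e i : ℚ) : ℚ) : ℝ) := by rw [h3]
        push_cast at h4
        exact h4
      rw [h2]
      ring
    show ∏ i, ((D : ℝ) * y - (a i : ℝ)) = _
    rw [Finset.prod_congr rfl fun i _ => h1 i, Finset.prod_mul_distrib, Finset.prod_const,
      Finset.card_univ, Fintype.card_fin, Equiv.prod_comp e (fun s : S => y - ((s : ℚ) : ℝ)),
      Finset.prod_coe_sort S (fun s => y - (s : ℝ))]


/-- data with an interval of values with a prescribed number of real roots -/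
theorem gap6 (S : Finset ℚ) (v : ℚ) (hv : 0 < v) (hS : Eq6 S v) (hs3 : ∃ s ∈ S, 3 < s)
    (hND : ND S) (a n r : ℕ) (hn : n = S.card + 6 * (a + 1)) (hr : 1 ≤ r) (hr2 : r ≤ n / 2) :
    Gap n 6 r := by
  obtain ⟨R, v', h1, h2, h3, h4, h5, v₁, v₂, h6, h7, h8⟩ :=
    config6 S v hv hS hs3 hND a n r hn hr hr2
  obtain ⟨D, E, hE, hD⟩ := of_set6' _ R v' h1 h2 h3 h4 h5
  have hEn : 0 < E ^ n := by positivity
  refine ⟨D, E ^ n * v₁, E ^ n * v₂, by positivity, by gcongr, fun w hw1 hw2 => ?_⟩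
  have g1 : v₁ ≤ w / E ^ n := by rw [le_div_iff₀ hEn]; linarith
  have g2 : w / E ^ n ≤ v₂ := by rw [div_le_iff₀ hEn]; linarith
  rw [← h8 _ g1 g2]
  have himg : {x : ℝ | ∏ i, (x - (D.a i : ℝ)) = -w} =
      (fun x => E * x) '' {x : ℝ | ∏ s ∈ R, (x - (s : ℝ)) = -(w / E ^ n)} := by
    ext x
    rw [Set.mem_image]
    constructor
    · intro hx
      rw [Set.mem_ofPred_eq] at hx
      refine ⟨x / E, ?_, by field_simp⟩
      rw [Set.mem_ofPred_eq]
      have k1 := hD (x / E)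
      rw [show E * (x / E) = x by field_simp, hx] at k1
      show ∏ s ∈ R, (x / E - (s : ℝ)) = -(w / E ^ n)
      rw [← neg_div, eq_div_iff hEn.ne', k1]
      ring
    · rintro ⟨y, hy, rfl⟩
      rw [Set.mem_ofPred_eq] at hy ⊢
      rw [hD y, hy]
      field_simp
  rw [himg, Set.ncard_image_of_injective _ (mul_right_injective₀ hE.ne')]

/-- the nondegeneracy for a list, with witnesses `100` and `1 / 5` -/
def NDL (L : List ℚ) : Prop :=
  (L.map fun s => (100 - s)).prod ≠ (L.map fun s => (-100 - s)).prod ∧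
  (L.map fun s => ((2 + 6 * (1 / 5) + (1 / 5) ^ 2) - s * (1 + 1 / 5 + (1 / 5) ^ 2))).prod ≠
    (L.map fun s => ((1 - 4 * (1 / 5) - 3 * (1 / 5) ^ 2) - s * (1 + 1 / 5 + (1 / 5) ^ 2))).prod ∧
  (L.map fun s => ((2 + 6 * (1 / 5) + (1 / 5) ^ 2) - s * (1 + 1 / 5 + (1 / 5) ^ 2))).prod ≠
    (L.map fun s => (-(1 - 4 * (1 / 5) - 3 * (1 / 5) ^ 2) - s * (1 + 1 / 5 + (1 / 5) ^ 2))).prod ∧
  (L.map fun s => (0 - s)⁻¹).sum ≠ 0 ∧ (L.map fun s => (7 - s ^ 2)⁻¹).sum ≠ 0 ∧
  (L.map fun s => (7 / 3 - s ^ 2)⁻¹).sum ≠ 0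

instance (L : List ℚ) : Decidable (NDL L) := by unfold NDL; infer_instance

lemma nd_of {L : List ℚ} (hnd : L.Nodup) (h : NDL L) : ND L.toFinset := by
  obtain ⟨h0, h1, h2, h3, h4, h5⟩ := h
  refine ⟨⟨100, ?_⟩, ⟨1 / 5, ?_⟩, ⟨1 / 5, ?_⟩, ?_, ?_, ?_⟩
  · rw [List.prod_toFinset _ hnd, List.prod_toFinset _ hnd]
    exact h0
  · rw [List.prod_toFinset _ hnd, List.prod_toFinset _ hnd]
    exact h1
  · rw [List.prod_toFinset _ hnd, List.prod_toFinset _ hnd]
    exact h2
  · rw [List.sum_toFinset _ hnd]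
    exact h3
  · rw [List.sum_toFinset _ hnd]
    exact h4
  · rw [List.sum_toFinset _ hnd]
    exact h5

theorem gap_of_blk {l : List (ℤ × ℤ)} {c : ℤ} (h : blk l c) (hnd' : NDL (l.map fr)) (n a r : ℕ)
    (hn : n = l.length + 6 * (a + 1)) (hr : 1 ≤ r) (hr2 : r ≤ n / 2) : Gap n 6 r := by
  classical
  obtain ⟨hok, h1, h2, h3, h4, h5, h6, hc, p, hp, hp3⟩ := h
  have hnd := hok.nodup
  have hd := dn_pos l hok.1
  have hdQ : (0 : ℚ) < dn l := by exact_mod_cast hd
  have hcQ : (0 : ℚ) < c := by exact_mod_cast hc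
  refine gap6 (l.map fr).toFinset ((c : ℚ) / dn l) (by positivity) ?_ ⟨fr p, ?_, ?_⟩
    (nd_of hnd hnd') a n r ?_ hr hr2
  · have hev : ∀ x : ℤ, (PS (l.map fr).toFinset).eval (x : ℚ) = (nm x l : ℚ) / dn l := by
      intro x
      rw [← eval_list l hok.1 x]
      unfold PS
      rw [eval_prod, List.prod_toFinset _ hnd]
      congr 1
      apply List.map_congr_left
      intro s _
      simp
    intro j
    fin_cases j
    · have := hev (-3); rw [h1] at this; simpa [x6] using this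
    · have := hev (-2); rw [h2] at this; simpa [x6] using this
    · have := hev (-1); rw [h3] at this; simpa [x6] using this
    · have := hev 1; rw [h4] at this; simpa [x6] using this
    · have := hev 2; rw [h5] at this; simpa [x6] using this
    · have := hev 3; rw [h6] at this; simpa [x6] using this
  · rw [List.mem_toFinset, List.mem_map]
    exact ⟨p, hp, rfl⟩
  · have h1 : (0 : ℚ) < p.2 := by exact_mod_cast hok.1 p hp
    unfold fr
    rw [lt_div_iff₀ h1]
    exact_mod_cast hp3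
  · rw [List.toFinset_card_of_nodup hnd, List.length_map, hn]

end Pool.Agent.Q199.SG
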