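import Pool.Agent.Q199.SG.Six3

/-!
# Six points: six non-symmetric bases
-/

set_option autoImplicit false
set_option maxRecDepth 100000

namespace Pool.Agent.Q199.SG

open Pool.Agent.W289.CG Pool.Agent.TH665.CG6

/-- a block of size 31 -/
def M31 : List (ℤ × ℤ) :=
  [(-53, 1), (-15, 1), (-11, 2), (-83, 19), (-4, 1), (-11, 3), (-94, 31), (-38, 13), (-8, 3),
   (-47, 19), (-7, 3), (-17, 9), (-11, 7), (-6, 7), (-4, 7), (-6, 11), (1, 7), (6, 11), (6,
   7), (3, 2), (11, 7), (29, 13), (9, 4), (47, 19), (38, 13), (94, 31), (17, 5), (4, 1), (83,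
   19), (9, 2), (5, 1)]

lemma bM31 : blk M31 115332911833119439020097536000000000 := by decide +kernel

lemma nM31 : NDL (M31.map fr) := by decide +kernel

/-- a block of size 45 -/
def M45 : List (ℤ × ℤ) :=
  [(-23, 1), (-19, 1), (-14, 1), (-12, 1), (-9, 1), (-6, 1), (-9, 2), (-83, 19), (-4, 1),
   (-7, 2), (-17, 5), (-13, 4), (-94, 31), (-38, 13), (-47, 19), (-9, 4), (-33, 16), (-5, 3),
   (-29, 23), (-3, 5), (-4, 7), (-2, 5), (-1, 4), (-1, 7), (1, 2), (4, 7), (3, 4), (29, 23),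
   (5, 3), (33, 16), (9, 4), (12, 5), (38, 13), (94, 31), (13, 4), (17, 5), (7, 2), (11, 3),
   (4, 1), (9, 2), (11, 2), (9, 1), (14, 1), (19, 1), (23, 1)]

lemma bM45 : blk M45 385587151174971106857146182334939136000000000000 := by decide +kernel

lemma nM45 : NDL (M45.map fr) := by decide +kernel

/-- a block of size 29 -/
def M29 : List (ℤ × ℤ) :=
  [(-18, 1), (-15, 1), (-14, 1), (-13, 1), (-12, 1), (-10, 1), (-9, 1), (-8, 1), (-13, 4),
   (-38, 13), (-8, 3), (-7, 3), (-9, 4), (-2, 5), (-1, 9), (-1, 13), (1, 13), (1, 9), (3, 7),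
   (29, 13), (7, 3), (8, 3), (38, 13), (13, 4), (5, 1), (11, 2), (7, 1), (15, 1), (18, 1)]

lemma bM29 : blk M29 1418884566711518610063360000000 := by decide +kernel

lemma nM29 : NDL (M29.map fr) := by decide +kernel

/-- a block of size 34 -/
def M34 : List (ℤ × ℤ) :=
  [(-13, 1), (-11, 1), (-10, 1), (-9, 1), (-7, 1), (-6, 1), (-11, 3), (-94, 31), (-38, 13),
   (-53, 19), (-8, 3), (-18, 7), (-17, 9), (-57, 31), (-29, 23), (-37, 31), (-3, 4), (-3, 7),
   (4, 7), (3, 4), (37, 31), (4, 3), (57, 31), (17, 9), (18, 7), (8, 3), (53, 19), (38, 13),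
   (94, 31), (11, 3), (4, 1), (11, 2), (11, 1), (13, 1)]

lemma bM34 : blk M34 296021140371673226818250342400000000000 := by decide +kernel

lemma nM34 : NDL (M34.map fr) := by decide +kernel

/-- a block of size 36 -/
def M36 : List (ℤ × ℤ) :=
  [(-23, 1), (-12, 1), (-8, 1), (-11, 3), (-13, 4), (-94, 31), (-38, 13), (-19, 7), (-8, 3),
   (-18, 7), (-29, 13), (-23, 11), (-3, 2), (-29, 23), (-19, 23), (-3, 7), (-6, 19), (1, 7),
   (3, 7), (19, 23), (29, 23), (3, 2), (23, 11), (7, 3), (18, 7), (8, 3), (94, 31), (13, 4),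
   (7, 2), (11, 3), (4, 1), (83, 19), (6, 1), (8, 1), (12, 1), (23, 1)]

lemma bM36 : blk M36 6660475658362647603410632704000000000000 := by decide +kernel

lemma nM36 : NDL (M36.map fr) := by decide +kernel

/-- a block of size 38 -/
def M38 : List (ℤ × ℤ) :=
  [(-12, 1), (-11, 1), (-8, 1), (-83, 19), (-11, 3), (-94, 31), (-38, 13), (-19, 7), (-8, 3),
   (-18, 7), (-47, 19), (-12, 5), (-13, 7), (-11, 7), (-9, 13), (-2, 3), (-1, 2), (-1, 7),
   (1, 17), (1, 2), (2, 3), (9, 13), (11, 7), (57, 31), (12, 5), (5, 2), (18, 7), (8, 3),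
   (19, 7), (38, 13), (94, 31), (83, 19), (11, 2), (8, 1), (9, 1), (11, 1), (12, 1), (15, 1)]

lemma bM38 : blk M38 703346229523095586920162813542400000000000 := by decide +kernel

lemma nM38 : NDL (M38.map fr) := by decide +kernel

theorem gap_all (n r : ℕ) (hn : n ∈ [35, 37, 40, 41, 42, 43, 44] ∨ 46 ≤ n) (hr : 1 ≤ r)
    (hr2 : r ≤ n / 2) : Gap n 6 r := by
  have h29 : M29.length = 29 := rfl
  have h31 : M31.length = 31 := rfl
  have h34 : M34.length = 34 := rfl
  have h36 : M36.length = 36 := rfl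
  have h38 : M38.length = 38 := rfl
  have h45 : M45.length = 45 := rfl
  simp only [List.mem_cons, List.not_mem_nil, or_false] at hn
  have hcase : n % 6 = 0 ∨ n % 6 = 1 ∨ n % 6 = 2 ∨ n % 6 = 3 ∨ n % 6 = 4 ∨ n % 6 = 5 := by omega
  rcases hcase with h | h | h | h | h | h
  · exact gap_of_blk bM36 nM36 n ((n - 36) / 6 - 1) r (by rw [h36]; omega) hr hr2
  · exact gap_of_blk bM31 nM31 n ((n - 31) / 6 - 1) r (by rw [h31]; omega) hr hr2
  · exact gap_of_blk bM38 nM38 n ((n - 38) / 6 - 1) r (by rw [h38]; omega) hr hr2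
  · exact gap_of_blk bM45 nM45 n ((n - 45) / 6 - 1) r (by rw [h45]; omega) hr hr2
  · exact gap_of_blk bM34 nM34 n ((n - 34) / 6 - 1) r (by rw [h34]; omega) hr hr2
  · exact gap_of_blk bM29 nM29 n ((n - 29) / 6 - 1) r (by rw [h29]; omega) hr hr2

end Pool.Agent.Q199.SG
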