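import Pool.Agent.Q199.SG.Small

/-!
# Explicit data in small degrees: symmetric sets
-/

set_option autoImplicit false

namespace Pool.Agent.Q199.SG

open Pool.Agent.W289.CG

/-- the roots in degree `8` -/
def s8 : List ℤ := [1, 2, 11, 20, 30, 39, 48, 49]

theorem ds8 : Dt s8 (![0, 4, 9, 23, 27, 41, 46] : Fin 7 → ℤ) 1210809600 := by
  unfold Dt Pool.Agent.W21.CG.Chk
  decide +kernel

theorem cs8_2 : Cert s8 2 [0, 6] 236180641 1470587366
    [0, 0, 31, 0, 69, 0, 0] := by
  decide +kernel

theorem gs8_2 : Gap 8 7 2 := gap_of ds8 cs8_2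

/-- the roots in degree `10` -/
def s10 : List ℤ := [-23738, -20885, -20231, -11881, -12, 12, 11881, 20231, 20885, 23738]

theorem ds10 : Dt s10 (![-23750, -20667, -20449, -11857, -436, 436, 11857, 20449, 20667] : Fin 9 → ℤ) 2690412768074211426290642227627411814400 := by
  unfold Dt Pool.Agent.W21.CG.Chk
  decide +kernel

theorem cs10_1 : Cert s10 1 [4] 2215744132465202849743254173402215681 79828214601556154558473536314305957478399
    [-22873, 0, -15524, 0, 0, 0, 15524, 0, 22873] := by
  decide +kernel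

theorem gs10_1 : Gap 10 9 1 := gap_of ds10 cs10_1

lemma loop2 (P : ℕ → Prop) (M B : ℕ) (hM : M ≤ B * B)
    (h : ∀ a < B, ∀ b < B, a * B + b < M → P (a * B + b)) : ∀ j < M, P j := by
  intro j hj
  have hB : 0 < B := by
    rcases Nat.eq_zero_or_pos B with h0 | h0
    · subst h0
      omega
    · exact h0
  have h1 : j / B < B := (Nat.div_lt_iff_lt_mul hB).2 (by omega)
  have h2 : j / B * B + j % B = j := Nat.div_add_mod' j B
  have h3 := h (j / B) h1 (j % B) (Nat.mod_lt _ hB) (by omega)
  rwa [h2] at h3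

theorem cs10_3 : Cert s10 1 [0, 4, 8] 79920550100145624834132111293403837966001 254893430495556771730684087260433287513599
    [0, 0, -15524, 0, 0, 0, 15524, 0, 0] := by
  refine ⟨by decide, by decide +kernel, by decide +kernel, by decide, by decide +kernel, ?_,
    by decide +kernel⟩
  intro i hi
  have h : i = 0 ∨ i = 4 ∨ i = 8 := by simpa using hi
  rcases h with rfl | rfl | rfl
  · refine ⟨by decide, by decide, loop2 _ _ 54 ?_ ?_⟩
    · decide +kernel
    · decide +kernel
  · refine ⟨by decide, by decide, ?_⟩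
    decide +kernel
  · refine ⟨by decide, by decide, loop2 _ _ 54 ?_ ?_⟩
    · decide +kernel
    · decide +kernel

theorem gs10_3 : Gap 10 9 3 := gap_of ds10 cs10_3

/-- the roots in degree `12` -/
def s12 : List ℤ := [-148, -146, -121, -94, -47, -35, 35, 47, 94, 121, 146, 148]

theorem ds12 : Dt s12 (![-151, -140, -127, -86, -61, -22, 22, 61, 86, 127, 140] : Fin 11 → ℤ) 67440294559676054016000 := by
  unfold Dt Pool.Agent.W21.CG.Chk
  decide +kernel

theorem cs12_2 : Cert s12 1 [0, 10] 6727903063425248664961 8865227649474104831999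
    [0, 0, -108, 0, -41, 0, 41, 0, 108, 0, 0] := by
  decide +kernel

theorem gs12_2 : Gap 12 11 2 := gap_of ds12 cs12_2

theorem cs12_4 : Cert s12 1 [0, 4, 6, 10] 10871917496859738654721 82128887576761010585599
    [0, 0, -108, 0, 0, 0, 0, 0, 108, 0, 0] := by
  decide +kernel

theorem gs12_4 : Gap 12 11 4 := gap_of ds12 cs12_4

end Pool.Agent.Q199.SG
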